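import Pool.Agent.J6H91.Cyc.Defs

/-!
# Basic facts on the spaces `D_t`
-/

set_option autoImplicit false

open MvPolynomial

namespace Pool.Agent.J6H91.Cyc

variable {σ : Type} [Fintype σ]

theorem weight_pos (t : ℝ) (k : σ →₀ ℕ) : 0 < weight t k := by
  unfold weight
  exact Finset.prod_pos fun j _ => Real.rpow_pos_of_pos (by positivity) _

theorem weight_nonneg (t : ℝ) (k : σ →₀ ℕ) : 0 ≤ weight t k := (weight_pos t k).le

/-- the factor by which multiplication by `z^α` increases the weight -/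
noncomputable def shiftConst (t : ℝ) (α : σ →₀ ℕ) : ℝ := ∏ j, ((α j : ℝ) + 1) ^ |t|

theorem shiftConst_pos (t : ℝ) (α : σ →₀ ℕ) : 0 < shiftConst t α :=
  Finset.prod_pos fun j _ => Real.rpow_pos_of_pos (by positivity) _

theorem weight_add_le (t : ℝ) (k α : σ →₀ ℕ) : weight t (k + α) ≤ shiftConst t α * weight t k := by
  unfold weight shiftConst
  rw [← Finset.prod_mul_distrib]
  refine Finset.prod_le_prod (fun j _ => by positivity) fun j _ => ?_
  have hk : (0:ℝ) < (k j : ℝ) + 1 := by positivity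
  have ha : (1:ℝ) ≤ (α j : ℝ) + 1 := by simp
  rw [Finsupp.add_apply]
  push_cast
  rcases le_total 0 t with ht | ht
  · rw [abs_of_nonneg ht, ← Real.mul_rpow (by positivity) hk.le]
    refine Real.rpow_le_rpow (by positivity) ?_ ht
    nlinarith [(Nat.cast_nonneg (k j) : (0:ℝ) ≤ k j), (Nat.cast_nonneg (α j) : (0:ℝ) ≤ α j)]
  · have h1 : ((k j : ℝ) + α j + 1) ^ t ≤ ((k j : ℝ) + 1) ^ t :=
      Real.rpow_le_rpow_of_nonpos hk (by simp) ht
    have h2 : (1:ℝ) ≤ ((α j : ℝ) + 1) ^ |t| := Real.one_le_rpow ha (abs_nonneg _)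
    calc ((k j : ℝ) + α j + 1) ^ t ≤ 1 * ((k j : ℝ) + 1) ^ t := by rw [one_mul]; exact h1
      _ ≤ _ := mul_le_mul_of_nonneg_right h2 (by positivity)

/-- polynomials lie in `D_t` -/
theorem memD_coeff (t : ℝ) (f : MvPolynomial σ ℂ) : MemD t (fun k => f.coeff k) := by
  unfold MemD
  refine summable_of_ne_finset_zero (s := f.support) fun k hk => ?_
  simp [MvPolynomial.notMem_support_iff.mp hk]

theorem MemD.add {t : ℝ} {a b : (σ →₀ ℕ) → ℂ} (ha : MemD t a) (hb : MemD t b) :
    MemD t (fun k => a k + b k) := by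
  unfold MemD at *
  refine Summable.of_nonneg_of_le (fun k => by have := weight_nonneg t k; positivity) (fun k => ?_)
    ((ha.mul_left 2).add (hb.mul_left 2))
  have h1 : ‖a k + b k‖ ^ 2 ≤ 2 * ‖a k‖ ^ 2 + 2 * ‖b k‖ ^ 2 := by
    have := norm_add_le (a k) (b k)
    nlinarith [sq_nonneg (‖a k‖ - ‖b k‖), norm_nonneg (a k + b k), norm_nonneg (a k),
      norm_nonneg (b k)]
  have h2 := mul_le_mul_of_nonneg_left h1 (weight_nonneg t k)
  linarith

theorem MemD.neg {t : ℝ} {a : (σ →₀ ℕ) → ℂ} (ha : MemD t a) : MemD t (fun k => - a k) := by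
  unfold MemD at *
  simpa using ha

theorem MemD.sub {t : ℝ} {a b : (σ →₀ ℕ) → ℂ} (ha : MemD t a) (hb : MemD t b) :
    MemD t (fun k => a k - b k) := by
  simpa [sub_eq_add_neg] using ha.add hb.neg

theorem normSq_nonneg (t : ℝ) (a : (σ →₀ ℕ) → ℂ) : 0 ≤ normSq t a :=
  tsum_nonneg fun k => by have := weight_nonneg t k; positivity

theorem normSq_add_le {t : ℝ} {a b : (σ →₀ ℕ) → ℂ} (ha : MemD t a) (hb : MemD t b) :
    normSq t (fun k => a k + b k) ≤ 2 * normSq t a + 2 * normSq t b := by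
  unfold normSq
  rw [← tsum_mul_left, ← tsum_mul_left, ← (Summable.mul_left 2 ha).tsum_add (Summable.mul_left 2 hb)]
  refine Summable.tsum_le_tsum (fun k => ?_) (ha.add hb) ((ha.mul_left 2).add (hb.mul_left 2))
  have h1 : ‖a k + b k‖ ^ 2 ≤ 2 * ‖a k‖ ^ 2 + 2 * ‖b k‖ ^ 2 := by
    have := norm_add_le (a k) (b k)
    nlinarith [sq_nonneg (‖a k‖ - ‖b k‖), norm_nonneg (a k + b k), norm_nonneg (a k),
      norm_nonneg (b k)]
  have h2 := mul_le_mul_of_nonneg_left h1 (weight_nonneg t k)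
  linarith

omit [Fintype σ] in
theorem coeff_monomial_mul_eq (α : σ →₀ ℕ) (x : ℂ) (g : MvPolynomial σ ℂ) (k : σ →₀ ℕ) :
    (monomial α x * g).coeff (k + α) = x * g.coeff k := by
  rw [add_comm k α, MvPolynomial.coeff_monomial_mul]

/-- multiplication by a monomial is bounded -/
theorem normSq_monomial_mul_le (t : ℝ) (α : σ →₀ ℕ) (x : ℂ) (g : MvPolynomial σ ℂ) :
    normSq t (fun k => (monomial α x * g).coeff k) ≤
      (shiftConst t α * ‖x‖ ^ 2) * normSq t (fun k => g.coeff k) := by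
  classical
  unfold normSq
  have hinj : Function.Injective (fun k : σ →₀ ℕ => k + α) := add_left_injective α
  have h1 : ∑' k, weight t k * ‖(monomial α x * g).coeff k‖ ^ 2 =
      ∑' k, weight t (k + α) * ‖(monomial α x * g).coeff (k + α)‖ ^ 2 := by
    refine (hinj.tsum_eq (f := fun k => weight t k * ‖(monomial α x * g).coeff k‖ ^ 2) ?_).symm
    intro k hk
    by_contra hcon
    apply hk
    have : ¬ α ≤ k := by
      intro hle
      exact hcon ⟨k - α, by simp [tsub_add_cancel_of_le hle]⟩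
    simp [MvPolynomial.coeff_monomial_mul', this]
  rw [h1, ← tsum_mul_left]
  refine Summable.tsum_le_tsum (fun k => ?_) ?_ ?_
  · rw [coeff_monomial_mul_eq, norm_mul, mul_pow]
    have := weight_add_le t k α
    have h3 : 0 ≤ ‖x‖ ^ 2 * ‖g.coeff k‖ ^ 2 := by positivity
    calc weight t (k + α) * (‖x‖ ^ 2 * ‖g.coeff k‖ ^ 2)
        ≤ (shiftConst t α * weight t k) * (‖x‖ ^ 2 * ‖g.coeff k‖ ^ 2) :=
          mul_le_mul_of_nonneg_right this h3
      _ = _ := by ring
  · exact (memD_coeff t (monomial α x * g)).comp_injective hinj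
  · exact (memD_coeff t g).mul_left _

/-- multiplication by a polynomial is bounded -/
theorem exists_mul_bound (t : ℝ) (f : MvPolynomial σ ℂ) :
    ∃ C : ℝ, 0 < C ∧ ∀ g : MvPolynomial σ ℂ,
      normSq t (fun k => (f * g).coeff k) ≤ C * normSq t (fun k => g.coeff k) := by
  induction f using MvPolynomial.monomial_add_induction_on with
  | C a =>
    refine ⟨shiftConst t (0 : σ →₀ ℕ) * ‖a‖ ^ 2 + 1, by
      have := shiftConst_pos t (0 : σ →₀ ℕ); positivity, fun g => ?_⟩
    have h := normSq_monomial_mul_le t (0 : σ →₀ ℕ) a g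
    have h2 := normSq_nonneg t (fun k => g.coeff k)
    rw [MvPolynomial.C_apply]
    linarith
  | monomial_add α x f _ _ ih =>
    obtain ⟨C, hC, hC2⟩ := ih
    refine ⟨2 * (shiftConst t α * ‖x‖ ^ 2) + 2 * C, by
      have := shiftConst_pos t α; positivity, fun g => ?_⟩
    have h1 := normSq_monomial_mul_le t α x g
    have h2 := hC2 g
    have h3 := normSq_add_le (memD_coeff t (monomial α x * g)) (memD_coeff t (f * g))
    have h4 : (fun k => ((monomial α x + f) * g).coeff k) =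
        fun k => (monomial α x * g).coeff k + (f * g).coeff k := by
      funext k
      rw [add_mul, MvPolynomial.coeff_add]
    rw [h4]
    linarith

/-- multiplication by a monomial is bounded, for power series -/
theorem series_monomial_mul (t : ℝ) (α : σ →₀ ℕ) (x : ℂ) {g : MvPowerSeries σ ℂ}
    (hg : MemD t fun k => MvPowerSeries.coeff k g) :
    MemD t (fun k => MvPowerSeries.coeff k (MvPowerSeries.monomial α x * g)) ∧
    normSq t (fun k => MvPowerSeries.coeff k (MvPowerSeries.monomial α x * g)) ≤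
      (shiftConst t α * ‖x‖ ^ 2) * normSq t (fun k => MvPowerSeries.coeff k g) := by
  classical
  have hinj : Function.Injective (fun k : σ →₀ ℕ => k + α) := add_left_injective α
  have hsupp : Function.support (fun k => weight t k *
      ‖MvPowerSeries.coeff k (MvPowerSeries.monomial α x * g)‖ ^ 2) ⊆
      Set.range (fun k : σ →₀ ℕ => k + α) := by
    intro k hk
    by_contra hcon
    apply hk
    have : ¬ α ≤ k := by
      intro hle
      exact hcon ⟨k - α, by simp [tsub_add_cancel_of_le hle]⟩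
    simp [MvPowerSeries.coeff_monomial_mul, this]
  have hc : ∀ k, MvPowerSeries.coeff (k + α) (MvPowerSeries.monomial α x * g) =
      x * MvPowerSeries.coeff k g := by
    intro k
    rw [MvPowerSeries.coeff_monomial_mul, if_pos (by simp), add_tsub_cancel_right]
  have hle : ∀ k, weight t (k + α) *
      ‖MvPowerSeries.coeff (k + α) (MvPowerSeries.monomial α x * g)‖ ^ 2 ≤
      (shiftConst t α * ‖x‖ ^ 2) * (weight t k * ‖MvPowerSeries.coeff k g‖ ^ 2) := by
    intro k
    rw [hc, norm_mul, mul_pow]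
    have := weight_add_le t k α
    have h3 : 0 ≤ ‖x‖ ^ 2 * ‖MvPowerSeries.coeff k g‖ ^ 2 := by positivity
    calc weight t (k + α) * (‖x‖ ^ 2 * ‖MvPowerSeries.coeff k g‖ ^ 2)
        ≤ (shiftConst t α * weight t k) * (‖x‖ ^ 2 * ‖MvPowerSeries.coeff k g‖ ^ 2) :=
          mul_le_mul_of_nonneg_right this h3
      _ = _ := by ring
  have hg' : Summable fun k => (shiftConst t α * ‖x‖ ^ 2) *
      (weight t k * ‖MvPowerSeries.coeff k g‖ ^ 2) := Summable.mul_left _ hg
  have hs : Summable fun k => weight t (k + α) *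
      ‖MvPowerSeries.coeff (k + α) (MvPowerSeries.monomial α x * g)‖ ^ 2 :=
    Summable.of_nonneg_of_le (fun k => by have := weight_nonneg t (k + α); positivity) hle hg'
  have hs2 : MemD t (fun k => MvPowerSeries.coeff k (MvPowerSeries.monomial α x * g)) := by
    unfold MemD
    refine (hinj.summable_iff (f := fun k => weight t k *
      ‖MvPowerSeries.coeff k (MvPowerSeries.monomial α x * g)‖ ^ 2) ?_).mp hs
    intro k hk
    by_contra hcon
    exact hk (hsupp hcon)
  refine ⟨hs2, ?_⟩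
  unfold normSq
  rw [← hinj.tsum_eq hsupp, ← tsum_mul_left]
  exact Summable.tsum_le_tsum hle hs hg'

/-- multiplication by a polynomial is bounded on `D_t` -/
theorem exists_series_mul_bound (t : ℝ) (f : MvPolynomial σ ℂ) :
    ∃ C : ℝ, 0 < C ∧ ∀ g : MvPowerSeries σ ℂ, MemD t (fun k => MvPowerSeries.coeff k g) →
      MemD t (fun k => MvPowerSeries.coeff k ((f : MvPowerSeries σ ℂ) * g)) ∧
      normSq t (fun k => MvPowerSeries.coeff k ((f : MvPowerSeries σ ℂ) * g)) ≤
        C * normSq t (fun k => MvPowerSeries.coeff k g) := by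
  induction f using MvPolynomial.monomial_add_induction_on with
  | C a =>
    refine ⟨shiftConst t (0 : σ →₀ ℕ) * ‖a‖ ^ 2 + 1, by
      have := shiftConst_pos t (0 : σ →₀ ℕ); positivity, fun g hg => ?_⟩
    have h := series_monomial_mul t (0 : σ →₀ ℕ) a hg
    have h2 := normSq_nonneg t (fun k => MvPowerSeries.coeff k g)
    rw [MvPolynomial.C_apply, MvPolynomial.coe_monomial]
    exact ⟨h.1, by linarith [h.2]⟩
  | monomial_add α x f _ _ ih =>
    obtain ⟨C, hC, hC2⟩ := ih
    refine ⟨2 * (shiftConst t α * ‖x‖ ^ 2) + 2 * C, by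
      have := shiftConst_pos t α; positivity, fun g hg => ?_⟩
    have h1 := series_monomial_mul t α x hg
    have h2 := hC2 g hg
    have h3 := normSq_add_le h1.1 h2.1
    have h4 : (fun k => MvPowerSeries.coeff k
        (((monomial α x + f : MvPolynomial σ ℂ) : MvPowerSeries σ ℂ) * g)) =
        fun k => MvPowerSeries.coeff k (MvPowerSeries.monomial α x * g) +
          MvPowerSeries.coeff k ((f : MvPowerSeries σ ℂ) * g) := by
      funext k
      rw [MvPolynomial.coe_add, MvPolynomial.coe_monomial, add_mul, map_add]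
    rw [h4]
    exact ⟨h1.1.add h2.1, by linarith [h1.2, h2.2]⟩

/-- it is enough to approximate the constant `1` -/
def ApproxOne (t : ℝ) (P : MvPolynomial σ ℂ) : Prop :=
  ∀ ε : ℝ, 0 < ε → ∃ q : MvPolynomial σ ℂ, normSq t (fun k => (1 - q * P).coeff k) < ε

theorem ShiftCyclic.approxOne {t : ℝ} {P : MvPolynomial σ ℂ} (h : ShiftCyclic t P) :
    ApproxOne t P := by
  intro ε hε
  obtain ⟨q, hq⟩ := h (fun k => (1 : MvPolynomial σ ℂ).coeff k) (memD_coeff t 1) ε hε
  exact ⟨q, by simpa only [MvPolynomial.coeff_sub] using hq⟩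

theorem exists_truncation (t : ℝ) {c : (σ →₀ ℕ) → ℂ} (_hc : MemD t c) {ε : ℝ} (hε : 0 < ε) :
    ∃ f : MvPolynomial σ ℂ, normSq t (fun k => c k - f.coeff k) < ε := by
  classical
  have h1 := tendsto_tsum_compl_atTop_zero (fun k => weight t k * ‖c k‖ ^ 2)
  have h2 := (h1.eventually (gt_mem_nhds hε)).exists
  obtain ⟨s, hs⟩ := h2
  refine ⟨∑ k ∈ s, monomial k (c k), ?_⟩
  have hcoeff : ∀ k, (∑ i ∈ s, monomial i (c i)).coeff k = if k ∈ s then c k else 0 := by
    intro k
    rw [MvPolynomial.coeff_sum]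
    simp [MvPolynomial.coeff_monomial]
  refine lt_of_le_of_lt (le_of_eq ?_) hs
  unfold normSq
  have h3 := tsum_subtype ({b | b ∉ s} : Set (σ →₀ ℕ)) (fun k => weight t k * ‖c k‖ ^ 2)
  refine Eq.trans ?_ h3.symm
  refine tsum_congr fun k => ?_
  simp only [hcoeff]
  by_cases hk : k ∈ s
  · simp [hk, Set.indicator]
  · simp [hk, Set.indicator]

theorem ApproxOne.shiftCyclic {t : ℝ} {P : MvPolynomial σ ℂ} (h : ApproxOne t P) :
    ShiftCyclic t P := by
  intro c hc ε hε
  obtain ⟨f, hf⟩ := exists_truncation t hc (ε := ε / 4) (by positivity)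
  obtain ⟨C, hC, hC2⟩ := exists_mul_bound t f
  obtain ⟨q, hq⟩ := h (ε / (4 * C)) (by positivity)
  refine ⟨f * q, ?_⟩
  have h1 := normSq_add_le (hc.sub (memD_coeff t f)) (memD_coeff t (f * (1 - q * P)))
  have h2 : (fun k => c k - (f * q * P).coeff k) =
      fun k => (c k - f.coeff k) + (f * (1 - q * P)).coeff k := by
    funext k
    rw [show f * (1 - q * P) = f - f * q * P by ring, MvPolynomial.coeff_sub]
    ring
  rw [h2]
  have h3 := hC2 (1 - q * P)
  have h4 : C * normSq t (fun k => (1 - q * P).coeff k) < ε / 4 := by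
    calc _ < C * (ε / (4 * C)) := mul_lt_mul_of_pos_left hq hC
      _ = ε / 4 := by field_simp
  linarith

theorem shiftCyclic_iff {t : ℝ} {P : MvPolynomial σ ℂ} : ShiftCyclic t P ↔ ApproxOne t P :=
  ⟨ShiftCyclic.approxOne, ApproxOne.shiftCyclic⟩

theorem ApproxOne.mul {t : ℝ} {P Q : MvPolynomial σ ℂ} (hP : ApproxOne t P) (hQ : ApproxOne t Q) :
    ApproxOne t (P * Q) := by
  intro ε hε
  obtain ⟨p, hp⟩ := hP (ε / 4) (by positivity)
  obtain ⟨C, hC, hC2⟩ := exists_mul_bound t (p * P)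
  obtain ⟨q, hq⟩ := hQ (ε / (4 * C)) (by positivity)
  refine ⟨p * q, ?_⟩
  have h1 := normSq_add_le (memD_coeff t (1 - p * P)) (memD_coeff t (p * P * (1 - q * Q)))
  have h2 : (fun k => (1 - p * q * (P * Q)).coeff k) =
      fun k => (1 - p * P).coeff k + (p * P * (1 - q * Q)).coeff k := by
    funext k
    rw [← MvPolynomial.coeff_add]
    congr 1
    ring
  rw [h2]
  have h3 := hC2 (1 - q * Q)
  have h4 : C * normSq t (fun k => (1 - q * Q).coeff k) < ε / 4 := by
    calc _ < C * (ε / (4 * C)) := mul_lt_mul_of_pos_left hq hC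
      _ = ε / 4 := by field_simp
  linarith

theorem ApproxOne.of_mul_left {t : ℝ} {P Q : MvPolynomial σ ℂ} (h : ApproxOne t (P * Q)) :
    ApproxOne t P := by
  intro ε hε
  obtain ⟨q, hq⟩ := h ε hε
  refine ⟨q * Q, ?_⟩
  rw [show q * Q * P = q * (P * Q) by ring]
  exact hq

theorem ApproxOne.of_dvd {t : ℝ} {P Q : MvPolynomial σ ℂ} (h : ApproxOne t Q) (hd : P ∣ Q) :
    ApproxOne t P := by
  obtain ⟨R, rfl⟩ := hd
  exact h.of_mul_left

theorem normSq_zero (t : ℝ) : normSq t (fun _ : σ →₀ ℕ => (0 : ℂ)) = 0 := by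
  simp [normSq]

theorem approxOne_C {t : ℝ} {a : ℂ} (ha : a ≠ 0) : ApproxOne t (C a : MvPolynomial σ ℂ) := by
  intro ε hε
  refine ⟨C a⁻¹, ?_⟩
  rw [← MvPolynomial.C_mul, inv_mul_cancel₀ ha]
  simpa [normSq] using hε

/-- A bounded functional on `D_t` given by a family `φ` of coefficients. -/
theorem norm_functional_le {t : ℝ} {φ : (σ →₀ ℕ) → ℂ}
    (hφ : Summable fun k => (weight t k)⁻¹ * ‖φ k‖ ^ 2) (f : MvPolynomial σ ℂ) :
    ‖∑ k ∈ f.support, f.coeff k * φ k‖ ^ 2 ≤
      (∑' k, (weight t k)⁻¹ * ‖φ k‖ ^ 2) * normSq t (fun k => f.coeff k) := by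
  have h1 : ‖∑ k ∈ f.support, f.coeff k * φ k‖ ≤
      ∑ k ∈ f.support, (Real.sqrt (weight t k)⁻¹ * ‖φ k‖) * (Real.sqrt (weight t k) * ‖f.coeff k‖) := by
    refine (norm_sum_le _ _).trans (Finset.sum_le_sum fun k _ => ?_)
    have hw := weight_pos t k
    rw [norm_mul, Real.sqrt_inv]
    have : (Real.sqrt (weight t k))⁻¹ * Real.sqrt (weight t k) = 1 :=
      inv_mul_cancel₀ (Real.sqrt_pos.mpr hw).ne'
    calc ‖coeff k f‖ * ‖φ k‖ = ((Real.sqrt (weight t k))⁻¹ * Real.sqrt (weight t k)) *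
        (‖coeff k f‖ * ‖φ k‖) := by rw [this, one_mul]
      _ ≤ _ := le_of_eq (by ring)
  have h2 := Finset.sum_mul_sq_le_sq_mul_sq f.support
    (fun k => Real.sqrt (weight t k)⁻¹ * ‖φ k‖) (fun k => Real.sqrt (weight t k) * ‖f.coeff k‖)
  have h3 : ∑ k ∈ f.support, (Real.sqrt (weight t k)⁻¹ * ‖φ k‖) ^ 2 ≤
      ∑' k, (weight t k)⁻¹ * ‖φ k‖ ^ 2 := by
    have : ∀ k, (Real.sqrt (weight t k)⁻¹ * ‖φ k‖) ^ 2 = (weight t k)⁻¹ * ‖φ k‖ ^ 2 := by
      intro k
      rw [mul_pow, Real.sq_sqrt (inv_nonneg.mpr (weight_nonneg t k))]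
    simp_rw [this]
    exact hφ.sum_le_tsum _ fun k _ => by have := weight_nonneg t k; positivity
  have h4 : ∑ k ∈ f.support, (Real.sqrt (weight t k) * ‖f.coeff k‖) ^ 2 ≤
      normSq t (fun k => f.coeff k) := by
    have : ∀ k, (Real.sqrt (weight t k) * ‖f.coeff k‖) ^ 2 = weight t k * ‖f.coeff k‖ ^ 2 := by
      intro k
      rw [mul_pow, Real.sq_sqrt (weight_nonneg t k)]
    simp_rw [this]
    exact Summable.sum_le_tsum (f := fun k => weight t k * ‖f.coeff k‖ ^ 2) _
      (fun k _ => by have := weight_nonneg t k; positivity) (memD_coeff t f)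
  have h5 : 0 ≤ ∑ k ∈ f.support, (Real.sqrt (weight t k)⁻¹ * ‖φ k‖) ^ 2 :=
    Finset.sum_nonneg fun k _ => sq_nonneg _
  calc ‖∑ k ∈ f.support, f.coeff k * φ k‖ ^ 2
      ≤ (∑ k ∈ f.support, (Real.sqrt (weight t k)⁻¹ * ‖φ k‖) *
        (Real.sqrt (weight t k) * ‖f.coeff k‖)) ^ 2 :=
        pow_le_pow_left₀ (norm_nonneg _) h1 2
    _ ≤ _ := h2
    _ ≤ _ := mul_le_mul h3 h4 (Finset.sum_nonneg fun k _ => sq_nonneg _) (h5.trans h3)

/-- the functional with coefficients `φ` -/
noncomputable def functional (φ : (σ →₀ ℕ) → ℂ) (f : MvPolynomial σ ℂ) : ℂ :=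
  ∑ k ∈ f.support, f.coeff k * φ k

/-- A nonzero bounded functional which vanishes on the multiples of `P`: not cyclic. -/
theorem not_approxOne_of_functional {t : ℝ} {P : MvPolynomial σ ℂ} {φ : (σ →₀ ℕ) → ℂ}
    (hφ : Summable fun k => (weight t k)⁻¹ * ‖φ k‖ ^ 2)
    (h0 : ∀ q : MvPolynomial σ ℂ, functional φ (1 - q * P) = functional φ 1)
    (h1 : functional φ 1 ≠ 0) : ¬ ApproxOne t P := by
  intro h
  set S := ∑' k, (weight t k)⁻¹ * ‖φ k‖ ^ 2 with hS
  have hS0 : 0 ≤ S := tsum_nonneg fun k => by have := weight_nonneg t k; positivity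
  have hL : 0 < ‖functional φ 1‖ ^ 2 := by positivity
  obtain ⟨q, hq⟩ := h (‖functional φ 1‖ ^ 2 / (S + 1)) (by positivity)
  have h2 := norm_functional_le hφ (1 - q * P)
  change ‖functional φ (1 - q * P)‖ ^ 2 ≤ _ at h2
  rw [h0 q] at h2
  have h3 : S * normSq t (fun k => (1 - q * P).coeff k) ≤
      S * (‖functional φ 1‖ ^ 2 / (S + 1)) := mul_le_mul_of_nonneg_left hq.le hS0
  have h4 : S * (‖functional φ 1‖ ^ 2 / (S + 1)) < ‖functional φ 1‖ ^ 2 := by
    rw [mul_div_assoc', div_lt_iff₀ (by positivity)]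
    nlinarith
  linarith

end Pool.Agent.J6H91.Cyc
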