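import Pool.Agent.J6H91.Cyc.Main2

/-!
# Polynomials without zeros on the closed polydisc are cyclic in all `D_t`
-/

set_option autoImplicit false
set_option linter.unusedSectionVars false

open MvPolynomial Filter Topology

namespace Pool.Agent.J6H91.Cyc

variable {σ : Type} [Fintype σ] [DecidableEq σ]

/-- the polynomial `P(R z)` -/
noncomputable def scaleP (R : ℝ) (P : MvPolynomial σ ℂ) : MvPolynomial σ ℂ :=
  aeval (fun j => C (R : ℂ) * X j) P

theorem eval_scaleP (R : ℝ) (P : MvPolynomial σ ℂ) (z : σ → ℂ) :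
    eval z (scaleP R P) = eval (fun j => (R : ℂ) * z j) P := by
  have h : (eval z).comp (aeval (fun j => C (R : ℂ) * X j) :
        MvPolynomial σ ℂ →ₐ[ℂ] MvPolynomial σ ℂ).toRingHom =
      eval (fun j => (R : ℂ) * z j) := by
    refine MvPolynomial.ringHom_ext (fun a => ?_) (fun s => ?_)
    · simp
    · simp
  exact congrArg (fun f => f P) h

theorem coe_scaleP (R : ℝ) (P : MvPolynomial σ ℂ) :
    ((scaleP R P : MvPolynomial σ ℂ) : MvPowerSeries σ ℂ) =
      MvPowerSeries.rescale (fun _ => (R : ℂ)) (P : MvPowerSeries σ ℂ) := by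
  have h : (MvPolynomial.coeToMvPowerSeries.ringHom).comp
        (aeval (fun j => C (R : ℂ) * X j) :
        MvPolynomial σ ℂ →ₐ[ℂ] MvPolynomial σ ℂ).toRingHom =
      (MvPowerSeries.rescale (fun _ : σ => (R : ℂ))).comp
        (MvPolynomial.coeToMvPowerSeries.ringHom) := by
    refine MvPolynomial.ringHom_ext (fun a => ?_) (fun s => ?_)
    · ext n
      simp [MvPowerSeries.coeff_rescale, MvPowerSeries.coeff_C]
      split_ifs with hn
      · simp [hn]
      · rfl
    · ext n
      simp [MvPowerSeries.coeff_rescale, MvPowerSeries.coeff_X]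
      split_ifs with hn
      · subst hn
        rw [Finset.prod_eq_single s]
        · simp
        · intro b _ hb
          rw [Finsupp.single_apply, if_neg hb.symm, pow_zero]
        · simp
      · rfl
  exact congrArg (fun f => f P) h

/-- A polynomial without zeros on the closed polydisc has none on a larger polydisc. -/
theorem exists_radius {P : MvPolynomial σ ℂ}
    (hP : ∀ z : σ → ℂ, (∀ j, ‖z j‖ ≤ 1) → eval z P ≠ 0) :
    ∃ R : ℝ, 1 < R ∧ ZeroFree (scaleP R P) := by
  set K : Set (σ → ℂ) := Metric.closedBall 0 1 with hK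
  have hKc : IsCompact K := isCompact_closedBall 0 1
  have hU : IsOpen {z : σ → ℂ | eval z P ≠ 0} :=
    isOpen_ne_fun (MvPolynomial.continuous_eval P) continuous_const
  have hKU : K ⊆ {z : σ → ℂ | eval z P ≠ 0} := by
    intro z hz
    refine hP z fun j => ?_
    rw [hK, mem_closedBall_zero_iff] at hz
    exact (norm_le_pi_norm z j).trans hz
  obtain ⟨δ, hδ, hsub⟩ := hKc.exists_thickening_subset_open hU hKU
  refine ⟨1 + δ / 2, by linarith, fun z hz => ?_⟩
  rw [eval_scaleP]
  have hzn : ‖z‖ ≤ 1 := (pi_norm_le_iff_of_nonneg zero_le_one).mpr fun j => (hz j).le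
  refine hsub (Metric.mem_thickening_iff.mpr ⟨z, ?_, ?_⟩)
  · rw [hK, mem_closedBall_zero_iff]
    exact hzn
  · rw [dist_eq_norm]
    have h1 : (fun j => ((1 + δ / 2 : ℝ) : ℂ) * z j) - z = fun j => ((δ / 2 : ℝ) : ℂ) * z j := by
      funext j
      simp only [Pi.sub_apply]
      push_cast
      ring
    rw [h1]
    refine lt_of_le_of_lt ((pi_norm_le_iff_of_nonneg (by positivity)).mpr fun j => ?_)
      (show δ / 2 < δ by linarith)
    rw [norm_mul, Complex.norm_real, Real.norm_of_nonneg (by positivity)]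
    exact mul_le_of_le_one_right (by positivity) (hz j).le

theorem approxOne_of_closed (t : ℝ) {P : MvPolynomial σ ℂ}
    (hP : ∀ z : σ → ℂ, (∀ j, ‖z j‖ ≤ 1) → eval z P ≠ 0) : ApproxOne t P := by
  obtain ⟨R, hR, hzf⟩ := exists_radius hP
  have hzf0 : ZeroFree P := fun z hz => hP z fun j => (hz j).le
  have hc := constantCoeff_ne hzf0
  have hc' := constantCoeff_ne hzf
  set a : MvPowerSeries σ ℂ := (P : MvPowerSeries σ ℂ)⁻¹ with ha
  have hPa : (P : MvPowerSeries σ ℂ) * a = 1 := MvPowerSeries.mul_inv_cancel _ hc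
  have hinv : ((scaleP R P : MvPolynomial σ ℂ) : MvPowerSeries σ ℂ)⁻¹ =
      MvPowerSeries.rescale (fun _ => (R : ℂ)) a := by
    symm
    rw [MvPowerSeries.eq_inv_iff_mul_eq_one hc', coe_scaleP, ← map_mul, mul_comm a, hPa, map_one]
  -- choose `r < 1` with `r R > 1`
  obtain ⟨r, hr1, hr2⟩ : ∃ r : ℝ, R⁻¹ < r ∧ r < 1 := exists_between (inv_lt_one_of_one_lt₀ hR)
  have hR0 : 0 < R := by linarith
  have hr0 : 0 < r := lt_trans (by positivity) hr1
  have hrR : 1 < r * R := by
    have := mul_lt_mul_of_pos_right hr1 hR0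
    rwa [inv_mul_cancel₀ hR0.ne'] at this
  obtain ⟨A, B, hAB⟩ := bd_prod_geo hr0.le hr2 (scaleP R P).totalDegree
  have hsl : ∀ ζ : σ → ℂ, (∀ j, ‖ζ j‖ = 1) → BdD (slice ζ (invR (scaleP R P) r))
      (‖((scaleP R P).coeff 0)⁻¹‖ ^ 2 * B) := by
    intro ζ hζ
    obtain ⟨s, hs1, hs2, hs3⟩ := slices hzf ζ hζ
    rw [(hs3 r).1]
    intro L
    have := (hAB s hs1 hs2).2 L
    calc ∑ n_1 ∈ Finset.range L, ((n_1 : ℝ) + 1) * ‖PowerSeries.coeff n_1
          (PowerSeries.C ((scaleP R P).coeff 0)⁻¹ * (s.map fun b => geo (r * b)).prod)‖ ^ 2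
        = ‖((scaleP R P).coeff 0)⁻¹‖ ^ 2 * ∑ n_1 ∈ Finset.range L, ((n_1 : ℝ) + 1) *
          ‖PowerSeries.coeff n_1 ((s.map fun b => geo (r * b)).prod)‖ ^ 2 := by
          rw [Finset.mul_sum]
          refine Finset.sum_congr rfl fun m _ => ?_
          rw [PowerSeries.coeff_C_mul, norm_mul, mul_pow]
          ring
      _ ≤ _ := mul_le_mul_of_nonneg_left this (by positivity)
  set B' := ‖((scaleP R P).coeff 0)⁻¹‖ ^ 2 * B with hB'
  have hB'0 : 0 ≤ B' := (hsl (fun _ => 1) (by simp)).nonneg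
  set x : ℝ := ((r * R) ^ 2)⁻¹ with hx
  have hx0 : 0 ≤ x := by positivity
  have hx1 : x < 1 := by
    rw [hx]
    refine inv_lt_one_of_one_lt₀ ?_
    nlinarith
  have hcoef : ∀ k, ‖MvPowerSeries.coeff k a‖ ^ 2 ≤ B' * x ^ (∑ j, k j) := by
    intro k
    have h1 := sum_le_of_slices hsl {k}
    rw [Finset.sum_singleton] at h1
    have h2 : MvPowerSeries.coeff k (invR (scaleP R P) r) =
        ((r * R : ℝ) : ℂ) ^ (∑ j, k j) * MvPowerSeries.coeff k a := by
      rw [invR, hinv, MvPowerSeries.coeff_rescale, MvPowerSeries.coeff_rescale,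
        Finsupp.prod_fintype _ _ (by simp), Finsupp.prod_fintype _ _ (by simp),
        Finset.prod_pow_eq_pow_sum, Finset.prod_pow_eq_pow_sum, ← mul_assoc, ← mul_pow]
      push_cast
      rfl
    rw [h2, norm_mul, norm_pow, Complex.norm_real, Real.norm_of_nonneg (by positivity), mul_pow] at h1
    have h3 : ((r * R) ^ (∑ j, k j)) ^ 2 * ‖MvPowerSeries.coeff k a‖ ^ 2 ≤ B' := by
      refine le_trans ?_ h1
      have : (1:ℝ) ≤ ((∑ j, k j : ℕ) : ℝ) + 1 := by
        have : (0:ℝ) ≤ ((∑ j, k j : ℕ) : ℝ) := Nat.cast_nonneg _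
        linarith
      have h4 : 0 ≤ ((r * R) ^ (∑ j, k j)) ^ 2 * ‖MvPowerSeries.coeff k a‖ ^ 2 := by positivity
      nlinarith
    have h5 : x ^ (∑ j, k j) * ((r * R) ^ (∑ j, k j)) ^ 2 = 1 := by
      rw [hx, inv_pow, ← pow_mul, ← pow_mul, mul_comm 2]
      exact inv_mul_cancel₀ (by positivity)
    calc ‖MvPowerSeries.coeff k a‖ ^ 2 = (x ^ (∑ j, k j) * ((r * R) ^ (∑ j, k j)) ^ 2) *
          ‖MvPowerSeries.coeff k a‖ ^ 2 := by rw [h5, one_mul]
      _ = x ^ (∑ j, k j) * (((r * R) ^ (∑ j, k j)) ^ 2 * ‖MvPowerSeries.coeff k a‖ ^ 2) := by ring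
      _ ≤ x ^ (∑ j, k j) * B' := mul_le_mul_of_nonneg_left h3 (by positivity)
      _ = _ := by ring
  have hmem : MemD t (fun k => MvPowerSeries.coeff k a) := by
    have h1 := (summable_prod_of_nonneg (σ := σ)
      (fun _ n => (((n : ℝ) + 1) ^ (-t))⁻¹ * x ^ n) (fun j n => by positivity)
      (fun j => summable_rpow_mul_geometric (-t) x hx0 hx1)).mul_left B'
    refine Summable.of_nonneg_of_le (fun k => by have := weight_nonneg t k; positivity)
      (fun k => ?_) h1
    have h2 : weight t k * x ^ (∑ j, k j) = ∏ j, (((k j : ℝ) + 1) ^ (-t))⁻¹ * x ^ k j := by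
      rw [Finset.prod_mul_distrib, Finset.prod_pow_eq_pow_sum, weight]
      congr 1
      refine Finset.prod_congr rfl fun j _ => ?_
      rw [Real.rpow_neg (by positivity), inv_inv]
    calc weight t k * ‖MvPowerSeries.coeff k a‖ ^ 2 ≤ weight t k * (B' * x ^ (∑ j, k j)) :=
          mul_le_mul_of_nonneg_left (hcoef k) (weight_nonneg t k)
      _ = B' * (weight t k * x ^ (∑ j, k j)) := by ring
      _ = _ := by rw [h2]
  intro ε hε
  obtain ⟨C, hC, hC2⟩ := exists_series_mul_bound t P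
  obtain ⟨q, hq⟩ := exists_truncation t hmem (ε := ε / C) (by positivity)
  refine ⟨q, ?_⟩
  have h1 := hC2 (a - (q : MvPowerSeries σ ℂ)) (by
    have := hmem.sub (memD_coeff t q)
    refine this.congr fun k => ?_
    simp only [map_sub, MvPolynomial.coeff_coe])
  have h2 : (fun k => (1 - q * P).coeff k) = fun k => MvPowerSeries.coeff k
      ((P : MvPowerSeries σ ℂ) * (a - (q : MvPowerSeries σ ℂ))) := by
    funext k
    rw [mul_sub, hPa, ← MvPolynomial.coe_mul, mul_comm P q, map_sub, MvPolynomial.coeff_coe,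
      MvPolynomial.coeff_sub, ← MvPolynomial.coeff_coe (1 : MvPolynomial σ ℂ), MvPolynomial.coe_one]
  rw [h2]
  refine lt_of_le_of_lt h1.2 ?_
  have h3 : normSq t (fun k => MvPowerSeries.coeff k (a - (q : MvPowerSeries σ ℂ))) =
      normSq t (fun k => MvPowerSeries.coeff k a - q.coeff k) := by
    simp only [map_sub, MvPolynomial.coeff_coe]
  rw [h3]
  calc _ < C * (ε / C) := mul_lt_mul_of_pos_left hq hC
    _ = ε := by field_simp

end Pool.Agent.J6H91.Cyc
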