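import Pool.Agent.J6H91.Cyc.Hall

/-!
# The series of a subtractive monoid of exponents
-/

set_option autoImplicit false
set_option linter.unusedSectionVars false

open Finset
open scoped Pointwise

namespace Pool.Agent.J6H91.Cyc

variable {σ : Type} [Fintype σ] [DecidableEq σ]

/-- the rational vector of an exponent -/
def toQ : (σ →₀ ℕ) →+ (σ → ℚ) where
  toFun k := fun j => (k j : ℚ)
  map_zero' := by funext j; simp
  map_add' k l := by funext j; simp

theorem toQ_injective : Function.Injective (toQ : (σ →₀ ℕ) → σ → ℚ) := by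
  intro k l h
  ext j
  have h1 : ((k j : ℕ) : ℚ) = ((l j : ℕ) : ℚ) := congrFun h j
  exact_mod_cast h1

/-- the rank of the elements of `M` supported in `J` -/
noncomputable def rankIn (M : Set (σ →₀ ℕ)) (J : Finset σ) : ℕ :=
  Module.finrank ℚ (Submodule.span ℚ (toQ '' {k | k ∈ M ∧ k.support ⊆ J}))

theorem linearIndepOn_toQ {s : Set (σ →₀ ℕ)} (hs : LinearIndepOn ℕ id s) :
    LinearIndepOn ℚ (toQ : (σ →₀ ℕ) → σ → ℚ) s := by
  rw [LinearIndepOn, ← LinearIndependent.iff_fractionRing ℤ ℚ, ← LinearIndepOn, linearIndepOn_iff'']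
  intro t f ht hf heq i hi
  rw [linearIndepOn_iff_linearIndepOn_finset] at hs
  specialize hs t ht
  rw [linearIndepOn_finset_iffₛ] at hs
  specialize hs (Int.toNat ∘ f) (Int.toNat ∘ (-·) ∘ f) ?_ i hi
  · rw [← toQ_injective.eq_iff]
    simp_rw [map_sum]
    rw [← sub_eq_zero, ← Finset.sum_sub_distrib, ← heq]
    refine Finset.sum_congr rfl fun j hj => ?_
    conv_rhs => rw [← (f j).toNat_sub_toNat_neg]
    simp only [sub_smul, map_nsmul, natCast_zsmul, Function.comp_apply, id_eq]
  · rw [← (f i).toNat_sub_toNat_neg, sub_eq_zero, Int.natCast_inj]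
    simpa using hs

/-- independent elements of `M` supported in `J` -/
theorem card_le_rankIn {M : Set (σ →₀ ℕ)} {J : Finset σ} {ι : Type} [Fintype ι]
    {v : ι → σ →₀ ℕ} (hv : LinearIndependent ℚ fun i => toQ (v i))
    (h : ∀ i, v i ∈ M ∧ (v i).support ⊆ J) : Fintype.card ι ≤ rankIn M J := by
  unfold rankIn
  set W := Submodule.span ℚ (toQ '' {k | k ∈ M ∧ k.support ⊆ J}) with hW
  let w : ι → W := fun i => ⟨toQ (v i), Submodule.subset_span ⟨v i, h i, rfl⟩⟩
  have hw : LinearIndependent ℚ w := by
    refine LinearIndependent.of_comp W.subtype ?_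
    exact hv
  exact hw.fintype_card_le_finrank

theorem weight_le_add {t : ℝ} (ht : 0 ≤ t) (a k : σ →₀ ℕ) : weight t k ≤ weight t (a + k) := by
  unfold weight
  refine Finset.prod_le_prod (fun j _ => by positivity) fun j _ => ?_
  refine Real.rpow_le_rpow (by positivity) ?_ ht
  rw [Finsupp.add_apply]
  push_cast
  have : (0:ℝ) ≤ a j := Nat.cast_nonneg _
  linarith

/-- **Convergence.** -/
theorem summable_of_rank {M : AddSubmonoid (σ →₀ ℕ)} (hM : ∀ x ∈ M, ∀ y, x + y ∈ M → y ∈ M)
    {t : ℝ} (h : ∀ J : Finset σ, J.Nonempty → (rankIn (M : Set (σ →₀ ℕ)) J : ℝ) < t * J.card) :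
    Summable fun k : M => (weight t k.1)⁻¹ := by
  classical
  rcases isEmpty_or_nonempty σ with hσ | hσ
  · have : Finite (σ →₀ ℕ) := by
      have : Subsingleton (σ →₀ ℕ) := inferInstance
      infer_instance
    exact Summable.of_finite
  have ht : 0 ≤ t := by
    have h1 := h univ univ_nonempty
    have h2 : (0:ℝ) ≤ rankIn (M : Set (σ →₀ ℕ)) univ := Nat.cast_nonneg _
    have h3 : (0:ℝ) < (univ : Finset σ).card := by
      exact_mod_cast Finset.card_pos.mpr univ_nonempty
    by_contra hcon
    push Not at hcon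
    have := mul_neg_of_neg_of_pos hcon h3
    linarith
  have hfg : M.FG := AddSubmonoid.fg_of_subtractive hM
  obtain ⟨S, hS1, hS2, hS3⟩ :=
    (IsSemilinearSet.of_fg hfg).isProperSemilinearSet
  -- summability on each proper linear set
  have key : ∀ s ∈ S, Summable fun k : s => (weight t k.1)⁻¹ := by
    intro s hs
    obtain ⟨a, T, hT1, hT2, rfl⟩ := hS2 s hs
    have hsub : a +ᵥ (AddSubmonoid.closure T : Set (σ →₀ ℕ)) ⊆ (M : Set (σ →₀ ℕ)) := by
      rw [hS3]
      exact Set.subset_sUnion_of_mem hs
    have haM : a ∈ M := hsub ⟨0, zero_mem _, by simp⟩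
    have hTM : ∀ p ∈ T, p ∈ M := fun p hp => hM a haM p (hsub ⟨p, AddSubmonoid.subset_closure hp, rfl⟩)
    have : Fintype T := hT1.fintype
    have hsum := summable_simplicial (ι := T) (fun p => p.1) (t := t) (by
      intro U hU
      set J := U.biUnion fun i : T => i.1.support with hJ
      have hJne : J.Nonempty := by
        obtain ⟨p, hp⟩ := hU
        have hp0 : p.1 ≠ 0 := by
          intro h0
          have h1 := LinearIndependent.ne_zero p hT2
          exact h1 h0
        obtain ⟨j, hj⟩ := Finsupp.support_nonempty_iff.mpr hp0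
        exact ⟨j, Finset.mem_biUnion.mpr ⟨p, hp, hj⟩⟩
      refine lt_of_le_of_lt ?_ (h J hJne)
      have h1 : LinearIndependent ℚ fun i : U => toQ (i.1.1 : σ →₀ ℕ) := by
        have h2 := linearIndepOn_toQ hT2
        exact h2.comp (fun i : U => i.1) Subtype.val_injective
      have h2 := card_le_rankIn (M := (M : Set (σ →₀ ℕ))) (J := J) h1 (fun i => ⟨hTM _ i.1.2, by
        intro j hj
        exact Finset.mem_biUnion.mpr ⟨i.1, i.2, hj⟩⟩)
      rw [Fintype.card_coe] at h2
      exact_mod_cast h2)
    -- the parametrization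
    have hpar : ∀ k : (a +ᵥ (AddSubmonoid.closure T : Set (σ →₀ ℕ)) : Set (σ →₀ ℕ)),
        ∃ c : T →₀ ℕ, k.1 = a + ∑ i, c i • (i.1 : σ →₀ ℕ) := by
      rintro ⟨k, x, hx, rfl⟩
      have hx' : x ∈ AddSubmonoid.closure T := hx
      induction hx' using AddSubmonoid.closure_induction with
      | mem y hy =>
        refine ⟨Finsupp.single ⟨y, hy⟩ 1, ?_⟩
        simp only [vadd_eq_add]
        congr 1
        rw [Finset.sum_eq_single (⟨y, hy⟩ : T)]
        · simp
        · intro b _ hb
          rw [Finsupp.single_apply, if_neg (Ne.symm hb), zero_smul]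
        · simp
      | zero => exact ⟨0, by simp⟩
      | add y z hy hz ih1 ih2 =>
        obtain ⟨c, hc⟩ := ih1 hy
        obtain ⟨d, hd⟩ := ih2 hz
        refine ⟨c + d, ?_⟩
        simp only [vadd_eq_add] at hc hd ⊢
        rw [add_right_inj] at hc hd
        rw [hc, hd]
        simp only [Finsupp.add_apply, add_smul, Finset.sum_add_distrib]
    choose par hparspec using hpar
    have hinj : Function.Injective par := by
      intro k l hkl
      apply Subtype.ext
      rw [hparspec k, hparspec l, hkl]
    refine Summable.of_nonneg_of_le (fun k => inv_nonneg.mpr (weight_nonneg _ _)) (fun k => ?_)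
      (hsum.comp_injective hinj)
    simp only [Function.comp_apply]
    rw [hparspec k]
    exact inv_anti₀ (weight_pos _ _) (weight_le_add ht _ _)
  -- finite union
  have h2 : Summable ((M : Set (σ →₀ ℕ)).indicator fun k => (weight t k)⁻¹) := by
    have h3 : Summable fun k : σ →₀ ℕ => ∑ s ∈ hS1.toFinset, s.indicator (fun k => (weight t k)⁻¹) k := by
      refine summable_sum fun s hs => ?_
      exact summable_subtype_iff_indicator.mp (key s (hS1.mem_toFinset.mp hs))
    refine Summable.of_nonneg_of_le (fun k => Set.indicator_nonneg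
      (fun k _ => inv_nonneg.mpr (weight_nonneg _ _)) k) (fun k => ?_) h3
    by_cases hk : k ∈ (M : Set (σ →₀ ℕ))
    · rw [Set.indicator_of_mem hk]
      have hk' := hk
      rw [hS3] at hk'
      obtain ⟨s, hs, hks⟩ := hk'
      have h4 : (weight t k)⁻¹ = s.indicator (fun k => (weight t k)⁻¹) k := by
        rw [Set.indicator_of_mem hks]
      rw [h4]
      exact Finset.single_le_sum (f := fun s => Set.indicator s (fun k => (weight t k)⁻¹) k)
        (fun s _ => Set.indicator_nonneg (fun k _ => inv_nonneg.mpr (weight_nonneg _ _)) k)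
        (hS1.mem_toFinset.mpr hs)
    · rw [Set.indicator_of_notMem hk]
      exact Finset.sum_nonneg fun s _ => Set.indicator_nonneg
        (fun k _ => inv_nonneg.mpr (weight_nonneg _ _)) k
  exact summable_subtype_iff_indicator.mpr h2

end Pool.Agent.J6H91.Cyc
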