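import Mathlib

/-!
# Dirichlet-type spaces on the polydisc: definitions

A holomorphic function `f(z) = Σ_k c_k z^k` on the polydisc `𝔻^σ` (here `σ` is a finite set of
variables, usually `Fin d`) is represented by its family `c` of Taylor coefficients. It lies in the
Dirichlet-type space `D_t(𝔻^σ)` if `‖f‖_t² = Σ_k ∏_j (k_j + 1)^t |c_k|²` is finite.
-/

set_option autoImplicit false

namespace Pool.Agent.J6H91.Cyc

variable {σ : Type} [Fintype σ]

/-- the weight `∏_j (k_j + 1)^t` of the monomial `z^k` -/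
noncomputable def weight (t : ℝ) (k : σ →₀ ℕ) : ℝ := ∏ j, ((k j : ℝ) + 1) ^ t

/-- The function with Taylor coefficients `c` lies in `D_t`: `Σ_k ∏_j (k_j + 1)^t |c_k|² < ∞`. -/
def MemD (t : ℝ) (c : (σ →₀ ℕ) → ℂ) : Prop := Summable fun k => weight t k * ‖c k‖ ^ 2

/-- the square of the norm of `D_t`, `‖f‖_t² = Σ_k ∏_j (k_j + 1)^t |c_k|²` -/
noncomputable def normSq (t : ℝ) (c : (σ →₀ ℕ) → ℂ) : ℝ := ∑' k, weight t k * ‖c k‖ ^ 2

/-- The polynomial `P` is shift-cyclic in `D_t`: every `f ∈ D_t` (with Taylor coefficients `c`) is a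
limit in `D_t` of multiples `q P` with polynomials `q`. -/
def ShiftCyclic (t : ℝ) (P : MvPolynomial σ ℂ) : Prop :=
  ∀ c : (σ →₀ ℕ) → ℂ, MemD t c → ∀ ε : ℝ, 0 < ε →
    ∃ q : MvPolynomial σ ℂ, normSq t (fun k => c k - (q * P).coeff k) < ε

/-- `P` has no zero in the open polydisc -/
def ZeroFree (P : MvPolynomial σ ℂ) : Prop :=
  ∀ z : σ → ℂ, (∀ j, ‖z j‖ < 1) → MvPolynomial.eval z P ≠ 0

end Pool.Agent.J6H91.Cyc
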