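import Pool.Agent.J6H91.Cyc.Cone

/-!
# Divergence of the series of a monoid of exponents
-/

set_option autoImplicit false
set_option linter.unusedSectionVars false

open Finset

namespace Pool.Agent.J6H91.Cyc

variable {σ : Type} [Fintype σ] [DecidableEq σ]

theorem weight_le_of_bound {t : ℝ} (ht : 0 ≤ t) {J : Finset σ} {k : σ →₀ ℕ} (hk : k.support ⊆ J)
    {B : ℝ} (hB : ∀ j, (k j : ℝ) + 1 ≤ B) : weight t k ≤ (B ^ t) ^ J.card := by
  unfold weight
  rw [← Finset.prod_subset (Finset.subset_univ J), ← Finset.prod_const]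
  · refine Finset.prod_le_prod (fun j _ => by positivity) fun j _ => ?_
    exact Real.rpow_le_rpow (by positivity) (hB j) ht
  · intro j _ hj
    have : k j = 0 := by
      by_contra h
      exact hj (hk (Finsupp.mem_support_iff.mpr h))
    rw [this]
    simp

theorem not_summable_of_card {M : AddSubmonoid (σ →₀ ℕ)} {t : ℝ} (ht : 0 ≤ t) {J : Finset σ}
    {ι : Type} [Fintype ι] [Nonempty ι] {v : ι → σ →₀ ℕ}
    (hv : LinearIndependent ℚ fun i => toQ (v i))
    (h : ∀ i, v i ∈ M ∧ (v i).support ⊆ J) (hr : t * J.card ≤ Fintype.card ι) :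
    ¬ Summable fun k : M => (weight t k.1)⁻¹ := by
  classical
  intro hsum
  let F : (ι → ℕ) → M := fun n => ⟨∑ i, n i • v i, sum_mem fun i _ => nsmul_mem (h i).1 _⟩
  have hF : Function.Injective F := by
    intro n m hnm
    have h1 : ∑ i, n i • v i = ∑ i, m i • v i := congrArg Subtype.val hnm
    have h2 : ∑ i, (n i : ℚ) • toQ (v i) = ∑ i, (m i : ℚ) • toQ (v i) := by
      have h3 := congrArg toQ h1
      rw [map_sum, map_sum] at h3
      simp only [map_nsmul] at h3
      simp only [Nat.cast_smul_eq_nsmul]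
      exact h3
    have h3 : ∑ i, ((n i : ℚ) - m i) • toQ (v i) = 0 := by
      simp only [sub_smul, Finset.sum_sub_distrib]
      rw [h2, sub_self]
    have h4 := Fintype.linearIndependent_iff.mp hv _ h3
    funext i
    have h5 : (n i : ℚ) = m i := sub_eq_zero.mp (h4 i)
    exact_mod_cast h5
  have hsum2 := hsum.comp_injective hF
  set C : ℕ := 1 + ∑ i, ∑ j, v i j with hC
  have hC1 : (1:ℝ) ≤ C := by
    rw [hC]
    push_cast
    have : (0:ℝ) ≤ ∑ i, ∑ j, (v i j : ℝ) := by positivity
    linarith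
  set r := Fintype.card ι with hrdef
  have hshell : ∀ N : ℕ, 1 ≤ N → ∀ n : ι → ℕ, (∀ i, n i < 2 * N) →
      ((2 * N * C : ℝ) ^ r)⁻¹ ≤ (weight t (F n).1)⁻¹ := by
    intro N hN n hn
    have hN' : (1:ℝ) ≤ N := by exact_mod_cast hN
    have hbase : (1:ℝ) ≤ 2 * N * C := by nlinarith
    refine inv_anti₀ (weight_pos _ _) ?_
    have h1 : weight t (F n).1 ≤ ((2 * N * C : ℝ) ^ t) ^ J.card := by
      refine weight_le_of_bound ht ?_ ?_
      · intro j hj
        have hj' : (∑ i, n i • v i) j ≠ 0 := Finsupp.mem_support_iff.mp hj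
        rw [Finsupp.finsetSum_apply] at hj'
        obtain ⟨i, _, hi⟩ := Finset.exists_ne_zero_of_sum_ne_zero hj'
        refine (h i).2 (Finsupp.mem_support_iff.mpr ?_)
        intro h0
        apply hi
        rw [Finsupp.smul_apply, h0, smul_zero]
      · intro j
        have h2 : (F n).1 j + 1 ≤ 2 * N * C := by
          have h3 : (F n).1 j = ∑ i, n i * v i j := by
            change (∑ i, n i • v i) j = _
            rw [Finsupp.finsetSum_apply]
            rfl
          rw [h3]
          have h4 : ∑ i, n i * v i j ≤ ∑ i, 2 * N * ∑ j, v i j := by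
            refine Finset.sum_le_sum fun i _ => ?_
            exact Nat.mul_le_mul (hn i).le
              (Finset.single_le_sum (f := fun j => v i j) (fun _ _ => Nat.zero_le _)
                (Finset.mem_univ j))
          rw [← Finset.mul_sum] at h4
          rw [hC, mul_add, mul_one]
          omega
        exact_mod_cast h2
    refine h1.trans ?_
    rw [← Real.rpow_natCast, ← Real.rpow_mul (by positivity), ← Real.rpow_natCast]
    exact Real.rpow_le_rpow_of_exponent_le hbase hr
  rw [summable_iff_vanishing_norm] at hsum2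
  have hε : (0:ℝ) < ((2 * C : ℝ) ^ r)⁻¹ := by positivity
  obtain ⟨s, hs⟩ := hsum2 _ hε
  obtain ⟨i0⟩ := (inferInstance : Nonempty ι)
  set N : ℕ := 1 + ∑ n ∈ s, n i0 with hN
  have hN1 : 1 ≤ N := by omega
  have hdisj : Disjoint (Fintype.piFinset fun _ : ι => Finset.Ico N (2 * N)) s := by
    rw [Finset.disjoint_left]
    intro n hn hns
    rw [Fintype.mem_piFinset] at hn
    have h1 := (Finset.mem_Ico.mp (hn i0)).1
    have h2 : n i0 ≤ ∑ n ∈ s, n i0 :=
      Finset.single_le_sum (f := fun n : ι → ℕ => n i0) (fun _ _ => Nat.zero_le _) hns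
    omega
  have h1 := hs _ hdisj
  have h2 : ((2 * C : ℝ) ^ r)⁻¹ ≤ ∑ n ∈ Fintype.piFinset fun _ : ι => Finset.Ico N (2 * N),
      (weight t (F n).1)⁻¹ := by
    have h3 : ∑ n ∈ Fintype.piFinset fun _ : ι => Finset.Ico N (2 * N), ((2 * N * C : ℝ) ^ r)⁻¹ ≤
        ∑ n ∈ Fintype.piFinset fun _ : ι => Finset.Ico N (2 * N), (weight t (F n).1)⁻¹ := by
      refine Finset.sum_le_sum fun n hn => hshell N hN1 n fun i => ?_
      exact (Finset.mem_Ico.mp (Fintype.mem_piFinset.mp hn i)).2
    refine le_trans (le_of_eq ?_) h3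
    rw [Finset.sum_const, Fintype.card_piFinset, Finset.prod_const, Nat.card_Ico, Finset.card_univ,
      ← hrdef, nsmul_eq_mul]
    have h4 : 2 * N - N = N := by omega
    rw [h4]
    have hN0 : (N:ℝ) ≠ 0 := by
      have : (1:ℝ) ≤ N := by exact_mod_cast hN1
      linarith
    have h5 : (2 * N * C : ℝ) = N * (2 * C) := by ring
    rw [h5, mul_pow (N : ℝ) (2 * C : ℝ) r, mul_inv, Nat.cast_pow, ← mul_assoc,
      mul_inv_cancel₀ (pow_ne_zero _ hN0), one_mul]
  have h3 : ‖∑ n ∈ Fintype.piFinset fun _ : ι => Finset.Ico N (2 * N),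
      ((fun k : M => (weight t k.1)⁻¹) ∘ F) n‖ = ∑ n ∈ Fintype.piFinset fun _ : ι => Finset.Ico N (2 * N),
      (weight t (F n).1)⁻¹ := by
    rw [Real.norm_of_nonneg]
    · rfl
    · exact Finset.sum_nonneg fun n _ => inv_nonneg.mpr (weight_nonneg _ _)
  rw [h3] at h1
  exact absurd h1 (not_lt.mpr h2)

/-- **Divergence.** -/
theorem not_summable_of_rank {M : AddSubmonoid (σ →₀ ℕ)} {x : σ →₀ ℕ} (hx : x ∈ M) (hx0 : x ≠ 0)
    {t : ℝ} {J : Finset σ} (hJ : J.Nonempty) (hr : t * J.card ≤ rankIn (M : Set (σ →₀ ℕ)) J) :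
    ¬ Summable fun k : M => (weight t k.1)⁻¹ := by
  classical
  rcases le_or_gt t 0 with ht | ht
  · intro hsum
    have h1 : ∀ n : ℕ, n • x ∈ M := fun n => nsmul_mem hx n
    have hinj : Function.Injective fun n : ℕ => (⟨n • x, h1 n⟩ : M) := by
      intro n m hnm
      have h2 : n • x = m • x := congrArg Subtype.val hnm
      obtain ⟨j, hj⟩ := Finsupp.ne_iff.mp hx0
      have h3 := DFunLike.congr_fun h2 j
      rw [Finsupp.smul_apply, Finsupp.smul_apply, smul_eq_mul, smul_eq_mul] at h3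
      exact Nat.eq_of_mul_eq_mul_right (Nat.pos_of_ne_zero hj) h3
    have h2 := (hsum.comp_injective hinj).tendsto_atTop_zero
    have h3 : ∀ n : ℕ, 1 ≤ ((fun k : M => (weight t k.1)⁻¹) ∘ fun n : ℕ => (⟨n • x, h1 n⟩ : M)) n := by
      intro n
      simp only [Function.comp_apply]
      refine (one_le_inv₀ (weight_pos _ _)).mpr ?_
      unfold weight
      refine Finset.prod_le_one (fun _ _ => by positivity) fun j _ => ?_
      exact Real.rpow_le_one_of_one_le_of_nonpos (by
        have : (0:ℝ) ≤ ((n • x) j : ℕ) := Nat.cast_nonneg _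
        linarith) ht
    have h4 := ge_of_tendsto' h2 h3
    linarith
  · obtain ⟨b, hb1, hb2, hb3⟩ := exists_linearIndependent ℚ
      (toQ '' {k : σ →₀ ℕ | k ∈ (M : Set (σ →₀ ℕ)) ∧ k.support ⊆ J})
    have hbfin : b.Finite := hb3.set_finite_of_isNoetherian
    have : Fintype b := hbfin.fintype
    have hcard : Fintype.card b = rankIn (M : Set (σ →₀ ℕ)) J := by
      unfold rankIn
      rw [← hb2, finrank_span_set_eq_card hb3, Set.toFinset_card]
    have hpre : ∀ y : b, ∃ k : σ →₀ ℕ, (k ∈ M ∧ k.support ⊆ J) ∧ toQ k = y.1 := by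
      intro y
      obtain ⟨k, hk, hk2⟩ := hb1 y.2
      exact ⟨k, hk, hk2⟩
    choose v hv1 hv2 using hpre
    have hpos : 0 < Fintype.card b := by
      rw [hcard]
      have h1 : 0 < t * J.card := mul_pos ht (by exact_mod_cast Finset.card_pos.mpr hJ)
      exact_mod_cast h1.trans_le hr
    have : Nonempty b := Fintype.card_pos_iff.mp hpos
    refine not_summable_of_card (J := J) (v := v) ht.le ?_ hv1 (by rw [hcard]; exact hr)
    have : (fun i => toQ (v i)) = fun x : b => (x : σ → ℚ) := by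
      funext i
      exact hv2 i
    rw [this]
    exact hb3

theorem summable_iff_rank {M : AddSubmonoid (σ →₀ ℕ)} (hM : ∀ x ∈ M, ∀ y, x + y ∈ M → y ∈ M)
    {x : σ →₀ ℕ} (hx : x ∈ M) (hx0 : x ≠ 0) (t : ℝ) :
    ¬ (Summable fun k : M => (weight t k.1)⁻¹) ↔
      ∃ J : Finset σ, J.Nonempty ∧ t * J.card ≤ rankIn (M : Set (σ →₀ ℕ)) J := by
  constructor
  · intro h
    by_contra hcon
    push Not at hcon
    exact h (summable_of_rank hM hcon)
  · rintro ⟨J, hJ, h⟩
    exact not_summable_of_rank hx hx0 hJ h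

end Pool.Agent.J6H91.Cyc
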