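import Pool.Agent.J6H91.Cyc.Dual
import Pool.Agent.J6H91.Cyc.Closed

/-!
# Polynomials with dominant constant term
-/

set_option autoImplicit false
set_option linter.unusedSectionVars false

open MvPolynomial Filter Topology

namespace Pool.Agent.J6H91.Cyc

variable {σ : Type}

/-- `P ≠ 0` and the constant term of `P` dominates the other coefficients,
`Σ_{k ≠ 0} |P_k| ≤ |P_0|`, that is, `Σ_k |P_k| ≤ 2 |P_0|` -/
def Dominated (P : MvPolynomial σ ℂ) : Prop :=
  P ≠ 0 ∧ ∑ k ∈ P.support, ‖P.coeff k‖ ≤ 2 * ‖P.coeff 0‖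

/-- the integer vector of an exponent -/
def toZ (k : σ →₀ ℕ) : σ → ℤ := fun j => (k j : ℤ)

/-- `k` lies in the subgroup of `ℤ^σ` generated by the exponents of the monomials of `P` -/
def InExponentGroup (P : MvPolynomial σ ℂ) (k : σ →₀ ℕ) : Prop :=
  toZ k ∈ AddSubgroup.closure (toZ '' (P.support : Set (σ →₀ ℕ)))

theorem toZ_add (k l : σ →₀ ℕ) : toZ (k + l) = toZ k + toZ l := by
  funext j
  simp [toZ]

theorem toZ_zero : toZ (0 : σ →₀ ℕ) = 0 := by
  funext j
  simp [toZ]

theorem toZ_injective : Function.Injective (toZ : (σ →₀ ℕ) → σ → ℤ) := by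
  intro k l h
  ext j
  have := congrFun h j
  simpa [toZ] using this

/-- elements of the group generated by exponents are differences of elements of the semigroup -/
theorem exists_sub_of_mem (A : Set (σ →₀ ℕ)) {x : σ → ℤ}
    (hx : x ∈ AddSubgroup.closure (toZ '' A)) :
    ∃ a ∈ AddSubmonoid.closure A, ∃ b ∈ AddSubmonoid.closure A, x = toZ a - toZ b := by
  induction hx using AddSubgroup.closure_induction with
  | mem x hx =>
    obtain ⟨a, ha, rfl⟩ := hx
    exact ⟨a, AddSubmonoid.subset_closure ha, 0, zero_mem _, by rw [toZ_zero, sub_zero]⟩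
  | zero => exact ⟨0, zero_mem _, 0, zero_mem _, by rw [sub_self]⟩
  | add x y _ _ hx hy =>
    obtain ⟨a, ha, b, hb, rfl⟩ := hx
    obtain ⟨c, hc, d, hd, rfl⟩ := hy
    exact ⟨a + c, add_mem ha hc, b + d, add_mem hb hd, by rw [toZ_add, toZ_add]; abel⟩
  | neg x _ hx =>
    obtain ⟨a, ha, b, hb, rfl⟩ := hx
    exact ⟨b, hb, a, ha, by abel⟩

theorem invariant_closure {A : Set (σ →₀ ℕ)} {φ : (σ →₀ ℕ) → ℂ}
    (h : ∀ a ∈ A, ∀ k, φ (k + a) = φ k) {x : σ →₀ ℕ} (hx : x ∈ AddSubmonoid.closure A) :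
    ∀ k, φ (k + x) = φ k := by
  induction hx using AddSubmonoid.closure_induction with
  | mem x hx => exact h x hx
  | zero => intro k; rw [add_zero]
  | add x y _ _ hx hy => intro k; rw [← add_assoc, hy, hx]

theorem invariant_group {A : Set (σ →₀ ℕ)} {φ : (σ →₀ ℕ) → ℂ}
    (h : ∀ a ∈ A, ∀ k, φ (k + a) = φ k) {x : σ →₀ ℕ}
    (hx : toZ x ∈ AddSubgroup.closure (toZ '' A)) (k : σ →₀ ℕ) : φ (k + x) = φ k := by
  obtain ⟨a, ha, b, hb, hab⟩ := exists_sub_of_mem A hx
  have h1 : x + b = a := by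
    apply toZ_injective
    rw [toZ_add, hab]
    abel
  rw [← invariant_closure h hb (k + x), add_assoc, h1, invariant_closure h ha]

/-- equality in the triangle inequality -/
theorem eq_norm_of_sum {ι : Type} (s : Finset ι) (z : ι → ℂ) (h1 : ∑ i ∈ s, z i = 1)
    (h2 : ∑ i ∈ s, ‖z i‖ ≤ 1) : ∀ i ∈ s, z i = (‖z i‖ : ℂ) := by
  have h3 : ∑ i ∈ s, (‖z i‖ - (z i).re) ≤ 0 := by
    rw [Finset.sum_sub_distrib, ← Complex.re_sum, h1, Complex.one_re]
    linarith
  have h4 : ∀ i ∈ s, 0 ≤ ‖z i‖ - (z i).re := fun i _ => sub_nonneg.mpr (Complex.re_le_norm _)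
  have h5 : ∑ i ∈ s, (‖z i‖ - (z i).re) = 0 := le_antisymm h3 (Finset.sum_nonneg h4)
  intro i hi
  have h6 := (Finset.sum_eq_zero_iff_of_nonneg h4).mp h5 i hi
  have h7 : (z i).re = ‖z i‖ := by linarith
  have h8 : (z i).im = 0 := by
    have := Complex.sq_norm (z i)
    rw [Complex.normSq_apply, h7] at this
    have h9 : (z i).im * (z i).im = 0 := by nlinarith
    exact mul_self_eq_zero.mp h9
  apply Complex.ext
  · rw [Complex.ofReal_re, h7]
  · rw [Complex.ofReal_im, h8]

variable [Fintype σ] [DecidableEq σ]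

theorem Dominated.coeff_zero_ne {P : MvPolynomial σ ℂ} (hP : Dominated P) : P.coeff 0 ≠ 0 := by
  intro h0
  apply hP.1
  have h1 := hP.2
  rw [h0, norm_zero, mul_zero] at h1
  ext k
  rw [MvPolynomial.coeff_zero]
  by_contra hk
  have h2 : ‖P.coeff k‖ ≤ ∑ k ∈ P.support, ‖P.coeff k‖ :=
    Finset.single_le_sum (f := fun k => ‖P.coeff k‖) (fun _ _ => norm_nonneg _)
      (MvPolynomial.mem_support_iff.mpr hk)
  have h3 : ‖P.coeff k‖ = 0 := le_antisymm (h2.trans h1) (norm_nonneg _)
  exact hk (norm_eq_zero.mp h3)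

theorem Dominated.le {P : MvPolynomial σ ℂ} (hP : Dominated P) :
    ∑ k ∈ P.support \ {0}, ‖P.coeff k‖ ≤ ‖P.coeff 0‖ := by
  have h0s : (0 : σ →₀ ℕ) ∈ P.support := MvPolynomial.mem_support_iff.mpr hP.coeff_zero_ne
  have h1 := hP.2
  rw [← Finset.sum_sdiff (Finset.singleton_subset_iff.mpr h0s), Finset.sum_singleton] at h1
  linarith

theorem eval_eq_split (P : MvPolynomial σ ℂ) (z : σ → ℂ) :
    eval z P = P.coeff 0 + ∑ k ∈ P.support \ {0}, P.coeff k * ∏ j, z j ^ k j := by
  classical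
  rw [MvPolynomial.eval_eq']
  by_cases h0 : (0 : σ →₀ ℕ) ∈ P.support
  · rw [← Finset.sum_sdiff (Finset.singleton_subset_iff.mpr h0), Finset.sum_singleton, add_comm]
    simp
  · have h1 : P.support \ {0} = P.support := by
      rw [Finset.sdiff_singleton_eq_erase, Finset.erase_eq_of_notMem h0]
    rw [h1, MvPolynomial.notMem_support_iff.mp h0, zero_add]

/-- at a zero on the closed polydisc all the monomials have the same argument -/
theorem Dominated.at_zero {P : MvPolynomial σ ℂ} (hP : Dominated P) {z : σ → ℂ}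
    (hz : ∀ j, ‖z j‖ ≤ 1) (h0 : eval z P = 0) :
    (∀ k ∈ P.support \ {0}, -(P.coeff k / P.coeff 0) * ∏ j, z j ^ k j =
      (‖P.coeff k‖ / ‖P.coeff 0‖ : ℝ)) ∧
    (∑ k ∈ P.support \ {0}, ‖P.coeff k‖ / ‖P.coeff 0‖ = 1) ∧
    (∀ k ∈ P.support \ {0}, ∀ j, k j ≠ 0 → ‖z j‖ = 1) := by
  have hc := hP.coeff_zero_ne
  have hc' : 0 < ‖P.coeff 0‖ := norm_pos_iff.mpr hc
  have hprod : ∀ k : σ →₀ ℕ, ‖∏ j, z j ^ k j‖ ≤ 1 := by
    intro k
    rw [norm_prod]
    refine Finset.prod_le_one (fun _ _ => norm_nonneg _) fun j _ => ?_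
    rw [norm_pow]
    exact pow_le_one₀ (norm_nonneg _) (hz j)
  have h1 : ∑ k ∈ P.support \ {0}, -(P.coeff k / P.coeff 0) * ∏ j, z j ^ k j = 1 := by
    rw [eval_eq_split] at h0
    have h2 : ∑ k ∈ P.support \ {0}, P.coeff k * ∏ j, z j ^ k j = -P.coeff 0 := by
      linear_combination h0
    have h3 : ∑ k ∈ P.support \ {0}, -(P.coeff k / P.coeff 0) * ∏ j, z j ^ k j =
        -(∑ k ∈ P.support \ {0}, P.coeff k * ∏ j, z j ^ k j) / P.coeff 0 := by
      rw [← Finset.sum_neg_distrib, Finset.sum_div]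
      refine Finset.sum_congr rfl fun k _ => ?_
      ring
    rw [h3, h2, neg_neg, div_self hc]
  have hnorm : ∀ k : σ →₀ ℕ, ‖-(P.coeff k / P.coeff 0) * ∏ j, z j ^ k j‖ =
      ‖P.coeff k‖ / ‖P.coeff 0‖ * ‖∏ j, z j ^ k j‖ := by
    intro k
    rw [norm_mul, norm_neg, norm_div]
  have h4 : ∑ k ∈ P.support \ {0}, ‖P.coeff k‖ / ‖P.coeff 0‖ ≤ 1 := by
    rw [← Finset.sum_div, div_le_one hc']
    exact hP.le
  have h5 : ∑ k ∈ P.support \ {0}, ‖-(P.coeff k / P.coeff 0) * ∏ j, z j ^ k j‖ ≤ 1 := by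
    refine le_trans (Finset.sum_le_sum fun k _ => ?_) h4
    rw [hnorm]
    exact mul_le_of_le_one_right (by positivity) (hprod k)
  have h6 := eq_norm_of_sum _ _ h1 h5
  have h7 : ∑ k ∈ P.support \ {0}, ‖-(P.coeff k / P.coeff 0) * ∏ j, z j ^ k j‖ = 1 := by
    have h8 := Finset.sum_congr rfl h6
    rw [h1, ← Complex.ofReal_sum] at h8
    exact_mod_cast h8.symm
  have h9 : ∀ k ∈ P.support \ {0}, ‖-(P.coeff k / P.coeff 0) * ∏ j, z j ^ k j‖ =
      ‖P.coeff k‖ / ‖P.coeff 0‖ := by
    have h10 : ∀ k ∈ P.support \ {0}, ‖-(P.coeff k / P.coeff 0) * ∏ j, z j ^ k j‖ ≤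
        ‖P.coeff k‖ / ‖P.coeff 0‖ := by
      intro k _
      rw [hnorm]
      exact mul_le_of_le_one_right (by positivity) (hprod k)
    have h11 : ∑ k ∈ P.support \ {0}, ‖-(P.coeff k / P.coeff 0) * ∏ j, z j ^ k j‖ =
        ∑ k ∈ P.support \ {0}, ‖P.coeff k‖ / ‖P.coeff 0‖ :=
      le_antisymm (Finset.sum_le_sum h10) (h7 ▸ h4)
    exact (Finset.sum_eq_sum_iff_of_le h10).mp h11
  refine ⟨fun k hk => ?_, ?_, fun k hk j hj => ?_⟩
  · rw [h6 k hk, h9 k hk]
  · rw [← h7]
    exact Finset.sum_congr rfl fun k hk => (h9 k hk).symm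
  · have hk' : P.coeff k ≠ 0 := by
      rw [Finset.mem_sdiff, MvPolynomial.mem_support_iff] at hk
      exact hk.1
    have h12 := h9 k hk
    rw [hnorm] at h12
    have h13 : 0 < ‖P.coeff k‖ / ‖P.coeff 0‖ := by
      have := norm_pos_iff.mpr hk'
      positivity
    have h14 : ‖∏ j, z j ^ k j‖ = 1 := by
      have : ‖P.coeff k‖ / ‖P.coeff 0‖ * ‖∏ j, z j ^ k j‖ = ‖P.coeff k‖ / ‖P.coeff 0‖ * 1 := by
        rw [h12, mul_one]
      exact mul_left_cancel₀ h13.ne' this
    by_contra hne
    have hlt : ‖z j‖ < 1 := lt_of_le_of_ne (hz j) hne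
    have h15 : ‖∏ j, z j ^ k j‖ < 1 := by
      rw [norm_prod, ← Finset.mul_prod_erase Finset.univ _ (Finset.mem_univ j)]
      have h16 : ‖z j ^ k j‖ < 1 := by
        rw [norm_pow]
        exact pow_lt_one₀ (norm_nonneg _) hlt hj
      have h17 : ∏ i ∈ Finset.univ.erase j, ‖z i ^ k i‖ ≤ 1 :=
        Finset.prod_le_one (fun _ _ => norm_nonneg _) fun i _ => by
          rw [norm_pow]
          exact pow_le_one₀ (norm_nonneg _) (hz i)
      have h18 : 0 ≤ ∏ i ∈ Finset.univ.erase j, ‖z i ^ k i‖ :=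
        Finset.prod_nonneg fun _ _ => norm_nonneg _
      have h19 := norm_nonneg (z j ^ k j)
      nlinarith
    linarith

/-- a dominated polynomial with a zero on the closed polydisc has a zero on the torus -/
theorem Dominated.exists_torus_zero {P : MvPolynomial σ ℂ} (hP : Dominated P) {z : σ → ℂ}
    (hz : ∀ j, ‖z j‖ ≤ 1) (h0 : eval z P = 0) :
    ∃ ζ : σ → ℂ, (∀ j, ‖ζ j‖ = 1) ∧ eval ζ P = 0 := by
  classical
  refine ⟨fun j => if ‖z j‖ = 1 then z j else 1, fun j => ?_, ?_⟩
  · simp only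
    split_ifs with h
    · exact h
    · exact norm_one
  · rw [← h0, eval_eq_split, eval_eq_split]
    congr 1
    refine Finset.sum_congr rfl fun k hk => ?_
    congr 1
    refine Finset.prod_congr rfl fun j _ => ?_
    by_cases hj : k j = 0
    · rw [hj, pow_zero, pow_zero]
    · rw [if_pos ((hP.at_zero hz h0).2.2 k hk j hj)]

theorem mem_group_iff {P : MvPolynomial σ ℂ} {k : σ →₀ ℕ} (hk : k ∈ P.support) (β : σ →₀ ℕ) :
    InExponentGroup P (β + k) ↔ InExponentGroup P β := by
  unfold InExponentGroup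
  rw [toZ_add]
  exact AddSubgroup.add_mem_cancel_right _ (AddSubgroup.subset_closure ⟨k, hk, rfl⟩)

theorem weight_neg (t : ℝ) (k : σ →₀ ℕ) : weight (-t) k = (weight t k)⁻¹ := by
  unfold weight
  rw [← Finset.prod_inv_distrib]
  exact Finset.prod_congr rfl fun j _ => Real.rpow_neg (by positivity) _

/-- **Classification of the cyclic polynomials with dominant constant term.** -/
theorem dominated_iff {P : MvPolynomial σ ℂ} (hP : Dominated P) (t : ℝ) :
    ApproxOne t P ↔ (∀ z : σ → ℂ, (∀ j, ‖z j‖ = 1) → eval z P ≠ 0) ∨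
      ¬ Summable fun k : {k : σ →₀ ℕ // InExponentGroup P k} => weight (-t) k.1 := by
  classical
  constructor
  · intro h
    by_contra hcon
    push Not at hcon
    obtain ⟨⟨ζ, hζ, h0⟩, hsum⟩ := hcon
    refine not_approxOne_of_functional
      (φ := fun k => if InExponentGroup P k then ∏ j, ζ j ^ k j else 0) ?_ ?_ ?_ h
    · have h1 := (summable_subtype_iff_indicator
        (f := fun k : σ →₀ ℕ => weight (-t) k) (s := {k | InExponentGroup P k})).mp hsum
      refine h1.congr fun k => ?_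
      by_cases hk : InExponentGroup P k
      · rw [Set.indicator_of_mem (show k ∈ {k | InExponentGroup P k} from hk)]
        simp only [if_pos hk]
        rw [weight_neg, norm_prod]
        have : ∏ j, ‖ζ j ^ k j‖ = 1 := Finset.prod_eq_one fun j _ => by
          rw [norm_pow, hζ, one_pow]
        rw [this]
        simp
      · rw [Set.indicator_of_notMem (show k ∉ {k | InExponentGroup P k} from hk)]
        simp only [if_neg hk]
        simp
    · intro q
      rw [functional_sub, functional_mul_eq_zero, sub_zero]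
      intro β
      by_cases hβ : InExponentGroup P β
      · have h1 : ∀ k ∈ P.support, P.coeff k *
            (if InExponentGroup P (β + k) then ∏ j, ζ j ^ (β + k) j else 0) =
            (∏ j, ζ j ^ β j) * (P.coeff k * ∏ j, ζ j ^ k j) := by
          intro k hk
          rw [if_pos ((mem_group_iff hk β).mpr hβ)]
          simp only [Finsupp.add_apply, pow_add, Finset.prod_mul_distrib]
          ring
        rw [Finset.sum_congr rfl h1, ← Finset.mul_sum, ← MvPolynomial.eval_eq', h0, mul_zero]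
      · refine Finset.sum_eq_zero fun k hk => ?_
        rw [if_neg (fun hcon => hβ ((mem_group_iff hk β).mp hcon)), mul_zero]
    · have h1 : (1 : MvPolynomial σ ℂ) = monomial 0 1 := rfl
      rw [h1, functional_monomial, one_mul, if_pos]
      · simp
      · unfold InExponentGroup
        rw [toZ_zero]
        exact zero_mem _
  · intro h
    by_cases hz : ∃ ζ : σ → ℂ, (∀ j, ‖ζ j‖ = 1) ∧ eval ζ P = 0
    · obtain ⟨ζ, hζ, h0⟩ := hz
      have hns : ¬ Summable fun k : {k : σ →₀ ℕ // InExponentGroup P k} => weight (-t) k.1 := by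
        rcases h with h | h
        · exact absurd h0 (h ζ hζ)
        · exact h
      obtain ⟨ha, hb, -⟩ := hP.at_zero (fun j => (hζ j).le) h0
      have hc := hP.coeff_zero_ne
      have hc' : 0 < ‖P.coeff 0‖ := norm_pos_iff.mpr hc
      have hζ0 : ∀ j, ζ j ≠ 0 := fun j => by
        rw [← norm_ne_zero_iff, hζ]
        exact one_ne_zero
      by_contra hna
      obtain ⟨φ, hφ1, hφ2, hφ3⟩ := exists_annihilator hna
      set A := P.support \ {0} with hA
      set p : (σ →₀ ℕ) → ℝ := fun k => ‖P.coeff k‖ / ‖P.coeff 0‖ with hp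
      set e : (σ →₀ ℕ) → ℂ := fun k => ∏ j, ζ j ^ k j with he
      have he0 : ∀ k, e k ≠ 0 := fun k => Finset.prod_ne_zero_iff.mpr fun j _ => pow_ne_zero _ (hζ0 j)
      have headd : ∀ k l, e (k + l) = e k * e l := by
        intro k l
        simp only [he, Finsupp.add_apply, pow_add, Finset.prod_mul_distrib]
      have henorm : ∀ k, ‖e k‖ = 1 := by
        intro k
        rw [he]
        simp only
        rw [norm_prod]
        exact Finset.prod_eq_one fun j _ => by rw [norm_pow, hζ, one_pow]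
      have hppos : ∀ a ∈ A, 0 < p a := by
        intro a ha'
        rw [hA, Finset.mem_sdiff, MvPolynomial.mem_support_iff] at ha'
        have := norm_pos_iff.mpr ha'.1
        rw [hp]
        positivity
      have hrec : ∀ β, φ β = ∑ k ∈ A, -(P.coeff k / P.coeff 0) * φ (β + k) := by
        intro β
        have h1 := hφ2 β
        have h0s : (0 : σ →₀ ℕ) ∈ P.support := MvPolynomial.mem_support_iff.mpr hc
        rw [← Finset.sum_sdiff (Finset.singleton_subset_iff.mpr h0s), Finset.sum_singleton,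
          add_zero] at h1
        have h2 : ∑ k ∈ A, -(P.coeff k / P.coeff 0) * φ (β + k) =
            -(∑ k ∈ P.support \ {0}, P.coeff k * φ (β + k)) / P.coeff 0 := by
          rw [← Finset.sum_neg_distrib, Finset.sum_div]
          refine Finset.sum_congr rfl fun k _ => ?_
          ring
        rw [h2, eq_div_iff hc]
        linear_combination h1
      have hharm : Harm A p (fun k => φ k / e k) := by
        intro β
        simp only
        rw [hrec β, Finset.sum_div]
        refine Finset.sum_congr rfl fun k hk => ?_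
        have h1 := ha k hk
        have h2 : (p k : ℂ) = -(P.coeff k / P.coeff 0) * e k := by
          rw [hp, he]
          simp only
          rw [h1]
        rw [h2, headd]
        field_simp [he0 k, he0 β]
      obtain ⟨ψ, hψ1, hψ2, k0, hk0⟩ := exists_invariant (t := t) hppos hb
        ⟨fun k => φ k / e k, by
          refine hφ1.congr fun k => ?_
          rw [norm_div, henorm, div_one], hharm, by
          obtain ⟨k, hk⟩ := hφ3
          exact ⟨k, div_ne_zero hk (he0 k)⟩⟩
      apply hns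
      have hinv : ∀ x : σ →₀ ℕ, InExponentGroup P x → ψ (k0 + x) = ψ k0 := by
        intro x hx
        refine invariant_group (A := (P.support : Set (σ →₀ ℕ))) (φ := ψ) ?_ hx k0
        intro a ha' k
        by_cases h00 : a = 0
        · rw [h00, add_zero]
        · exact hψ2 a (by
            rw [hA, Finset.mem_sdiff, Finset.mem_singleton]
            exact ⟨ha', h00⟩) k
      have h1 : Summable fun x : {k : σ →₀ ℕ // InExponentGroup P k} =>
          (weight t (x.1 + k0))⁻¹ * ‖ψ (x.1 + k0)‖ ^ 2 := by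
        refine hψ1.comp_injective (i := fun x : {k : σ →₀ ℕ // InExponentGroup P k} => x.1 + k0) ?_
        intro a b hab
        exact Subtype.ext (add_right_cancel hab)
      have hk0' : 0 < ‖ψ k0‖ ^ 2 := by
        have := norm_pos_iff.mpr hk0
        positivity
      refine Summable.of_nonneg_of_le (fun k => weight_nonneg _ _) (fun x => ?_)
        (h1.mul_left (shiftConst t k0 / ‖ψ k0‖ ^ 2))
      rw [add_comm x.1 k0, hinv x.1 x.2, weight_neg]
      have hw := weight_pos t x.1
      have hw2 := weight_pos t (k0 + x.1)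
      have h2 := weight_add_le t x.1 k0
      rw [add_comm x.1 k0] at h2
      have h3 : shiftConst t k0 / ‖ψ k0‖ ^ 2 * ((weight t (k0 + x.1))⁻¹ * ‖ψ k0‖ ^ 2) =
          shiftConst t k0 / weight t (k0 + x.1) := by
        field_simp
      rw [h3, le_div_iff₀ hw2, inv_mul_le_iff₀ hw, mul_comm]
      exact h2
    · push Not at hz
      refine approxOne_of_closed t fun z hz1 h0 => ?_
      obtain ⟨ζ, hζ, h1⟩ := hP.exists_torus_zero hz1 h0
      exact hz ζ hζ h1

end Pool.Agent.J6H91.Cyc
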