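import Mathlib

/-!
# Harmonic functions of random walks in the orthant

Let `A` be a finite set of exponents with probabilities `p`. A function `φ` on `ℕ^σ` is harmonic if
`φ(k) = Σ_{a ∈ A} p_a φ(k + a)`. Harmonic functions of polynomial growth satisfy difference equations
`φ(k + α) = φ(k + β)` up to lower order.
-/

set_option autoImplicit false
set_option linter.unusedSectionVars false

open Finset

namespace Pool.Agent.J6H91.Cyc

variable {σ : Type} [Fintype σ]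

/-- total degree -/
def deg (k : σ →₀ ℕ) : ℕ := ∑ j, k j

theorem deg_add (k l : σ →₀ ℕ) : deg (k + l) = deg k + deg l := by
  simp [deg, Finset.sum_add_distrib]

/-- harmonic functions -/
def Harm (A : Finset (σ →₀ ℕ)) (p : (σ →₀ ℕ) → ℝ) (φ : (σ →₀ ℕ) → ℂ) : Prop :=
  ∀ k, φ k = ∑ a ∈ A, (p a : ℂ) * φ (k + a)

/-- the expectation of `G (X_m, S_m)`, where `X_m` is the sum of the `ξ` and `S_m` the sum of the
steps -/
noncomputable def W {E : Type} [AddCommGroup E] [Module ℝ E] (A : Finset (σ →₀ ℕ))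
    (p ξ : (σ →₀ ℕ) → ℝ) : ℕ → (ℝ → (σ →₀ ℕ) → E) → E
  | 0, G => G 0 0
  | m + 1, G => ∑ a ∈ A, p a • W A p ξ m (fun x s => G (x + ξ a) (s + a))

variable {A : Finset (σ →₀ ℕ)} {p ξ : (σ →₀ ℕ) → ℝ}

theorem W_mono (hp : ∀ a ∈ A, 0 ≤ p a) {D : ℕ} (hD : ∀ a ∈ A, deg a ≤ D) :
    ∀ (m : ℕ) (G H : ℝ → (σ →₀ ℕ) → ℝ),
      (∀ x s, deg s ≤ D * m → G x s ≤ H x s) → W A p ξ m G ≤ W A p ξ m H := by
  intro m
  induction m with
  | zero =>
    intro G H h
    exact h 0 0 (by simp [deg])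
  | succ m ih =>
    intro G H h
    refine Finset.sum_le_sum fun a ha => ?_
    refine mul_le_mul_of_nonneg_left (ih _ _ fun x s hs => ?_) (hp a ha)
    refine h _ _ ?_
    rw [deg_add]
    have := hD a ha
    nlinarith

theorem W_norm_le (hp : ∀ a ∈ A, 0 ≤ p a) :
    ∀ (m : ℕ) (G : ℝ → (σ →₀ ℕ) → ℂ),
      ‖W A p ξ m G‖ ≤ W A p ξ m (fun x s => ‖G x s‖) := by
  intro m
  induction m with
  | zero =>
    intro G
    exact le_rfl
  | succ m ih =>
    intro G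
    refine (norm_sum_le _ _).trans (Finset.sum_le_sum fun a ha => ?_)
    rw [norm_smul, Real.norm_of_nonneg (hp a ha), smul_eq_mul]
    exact mul_le_mul_of_nonneg_left (ih _) (hp a ha)

theorem W_add {E : Type} [AddCommGroup E] [Module ℝ E] :
    ∀ (m : ℕ) (G H : ℝ → (σ →₀ ℕ) → E),
      W A p ξ m (fun x s => G x s + H x s) = W A p ξ m G + W A p ξ m H := by
  intro m
  induction m with
  | zero => intro G H; rfl
  | succ m ih =>
    intro G H
    simp only [W]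
    rw [← Finset.sum_add_distrib]
    refine Finset.sum_congr rfl fun a _ => ?_
    rw [ih (fun x s => G (x + ξ a) (s + a)) (fun x s => H (x + ξ a) (s + a)), smul_add]

theorem W_smul {E : Type} [AddCommGroup E] [Module ℝ E] (c : ℝ) :
    ∀ (m : ℕ) (G : ℝ → (σ →₀ ℕ) → E),
      W A p ξ m (fun x s => c • G x s) = c • W A p ξ m G := by
  intro m
  induction m with
  | zero => intro G; rfl
  | succ m ih =>
    intro G
    simp only [W]
    rw [Finset.smul_sum]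
    refine Finset.sum_congr rfl fun a _ => ?_
    rw [ih (fun x s => G (x + ξ a) (s + a)), smul_comm]

theorem W_const (hp1 : ∑ a ∈ A, p a = 1) (c : ℝ) :
    ∀ m : ℕ, W A p ξ m (fun _ _ => c) = c := by
  intro m
  induction m with
  | zero => rfl
  | succ m ih =>
    simp only [W, ih, smul_eq_mul]
    rw [← Finset.sum_mul, hp1, one_mul]

theorem W_harm {φ : (σ →₀ ℕ) → ℂ} (h : Harm A p φ) :
    ∀ (m : ℕ) (k : σ →₀ ℕ), W A p ξ m (fun _ s => φ (k + s)) = φ k := by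
  intro m
  induction m with
  | zero => intro k; simp [W]
  | succ m ih =>
    intro k
    simp only [W]
    have h1 : ∀ a : σ →₀ ℕ, (fun (_ : ℝ) (s : σ →₀ ℕ) => φ (k + (s + a))) =
        fun _ s => φ ((k + a) + s) := by
      intro a
      funext x s
      rw [add_comm s a, add_assoc]
    simp_rw [h1, ih]
    rw [h k]
    refine Finset.sum_congr rfl fun a _ => ?_
    simp

/-- the mean of `X_m` times `φ` -/
theorem W_x_harm {φ : (σ →₀ ℕ) → ℂ} (h : Harm A p φ) :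
    ∀ (m : ℕ) (k : σ →₀ ℕ), W A p ξ m (fun x s => (x : ℂ) * φ (k + s)) =
      (m : ℂ) * ∑ a ∈ A, (p a : ℂ) * (ξ a : ℂ) * φ (k + a) := by
  intro m
  induction m with
  | zero => intro k; simp [W]
  | succ m ih =>
    intro k
    simp only [W]
    have h1 : ∀ a : σ →₀ ℕ, W A p ξ m (fun x s => ((x + ξ a : ℝ) : ℂ) * φ (k + (s + a))) =
        (m : ℂ) * ∑ b ∈ A, (p b : ℂ) * (ξ b : ℂ) * φ ((k + a) + b) + (ξ a : ℂ) * φ (k + a) := by
      intro a
      have h2 : (fun (x : ℝ) (s : σ →₀ ℕ) => ((x + ξ a : ℝ) : ℂ) * φ (k + (s + a))) =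
          fun (x : ℝ) (s : σ →₀ ℕ) => ((x : ℂ) * φ ((k + a) + s)) + (ξ a) • φ ((k + a) + s) := by
        funext x s
        rw [add_comm s a, ← add_assoc, Complex.real_smul]
        push_cast
        ring
      rw [h2, W_add m (fun x s => ((x : ℂ) * φ ((k + a) + s))) (fun x s => (ξ a) • φ ((k + a) + s)),
        ih, W_smul (ξ a) m (fun x s => φ ((k + a) + s)), W_harm h, Complex.real_smul]
    simp_rw [h1]
    have h3 : ∑ a ∈ A, p a • ((m : ℂ) * ∑ b ∈ A, (p b : ℂ) * (ξ b : ℂ) * φ ((k + a) + b) +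
        (ξ a : ℂ) * φ (k + a)) =
        (m : ℂ) * ∑ b ∈ A, (p b : ℂ) * (ξ b : ℂ) * (∑ a ∈ A, (p a : ℂ) * φ ((k + b) + a)) +
        ∑ a ∈ A, (p a : ℂ) * (ξ a : ℂ) * φ (k + a) := by
      simp only [Complex.real_smul, mul_add, Finset.sum_add_distrib]
      congr 1
      · simp only [Finset.mul_sum]
        rw [Finset.sum_comm]
        refine Finset.sum_congr rfl fun b _ => Finset.sum_congr rfl fun a _ => ?_
        rw [add_right_comm k a b]
        ring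
      · refine Finset.sum_congr rfl fun a _ => ?_
        ring
    rw [h3]
    have h4 : ∀ b, ∑ a ∈ A, (p a : ℂ) * φ ((k + b) + a) = φ (k + b) := fun b => (h (k + b)).symm
    simp_rw [h4]
    push_cast
    ring

/-- the mean of `X_m` is zero -/
theorem W_x (hp1 : ∑ a ∈ A, p a = 1) (hξ : ∑ a ∈ A, p a * ξ a = 0) :
    ∀ m : ℕ, W A p ξ m (fun x _ => x) = 0 := by
  intro m
  induction m with
  | zero => rfl
  | succ m ih =>
    simp only [W]
    have h1 : ∀ a : σ →₀ ℕ, W A p ξ m (fun x _ => x + ξ a) = ξ a := by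
      intro a
      rw [W_add m (fun x _ => x) (fun _ _ => ξ a), ih, W_const hp1, zero_add]
    simp_rw [h1, smul_eq_mul]
    exact hξ

/-- the variance of `X_m` -/
theorem W_x_sq (hp1 : ∑ a ∈ A, p a = 1) (hξ : ∑ a ∈ A, p a * ξ a = 0) :
    ∀ m : ℕ, W A p ξ m (fun x _ => x ^ 2) = m * ∑ a ∈ A, p a * ξ a ^ 2 := by
  intro m
  induction m with
  | zero => simp [W]
  | succ m ih =>
    simp only [W]
    have h1 : ∀ a : σ →₀ ℕ, W A p ξ m (fun x _ => (x + ξ a) ^ 2) =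
        m * (∑ b ∈ A, p b * ξ b ^ 2) + ξ a ^ 2 := by
      intro a
      have h2 : (fun (x : ℝ) (_ : σ →₀ ℕ) => (x + ξ a) ^ 2) =
          fun x _ => (x ^ 2 + (2 * ξ a) • x) + ξ a ^ 2 := by
        funext x _
        rw [smul_eq_mul]
        ring
      rw [h2, W_add m (fun x _ => x ^ 2 + (2 * ξ a) • x) (fun _ _ => ξ a ^ 2),
        W_add m (fun x _ => x ^ 2) (fun x _ => (2 * ξ a) • x), ih,
        W_smul (2 * ξ a) m (fun x _ => x), W_x hp1 hξ, W_const hp1]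
      simp
    simp_rw [h1, smul_eq_mul]
    have h3 : ∑ a ∈ A, p a * (m * (∑ b ∈ A, p b * ξ b ^ 2) + ξ a ^ 2) =
        (∑ a ∈ A, p a) * (m * (∑ b ∈ A, p b * ξ b ^ 2)) + ∑ a ∈ A, p a * ξ a ^ 2 := by
      rw [Finset.sum_mul, ← Finset.sum_add_distrib]
      refine Finset.sum_congr rfl fun a _ => ?_
      ring
    rw [h3, hp1]
    push_cast
    ring

/-- the mean of `|X_m|` -/
theorem W_abs_le (hp : ∀ a ∈ A, 0 ≤ p a) (hp1 : ∑ a ∈ A, p a = 1) (hξ : ∑ a ∈ A, p a * ξ a = 0)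
    (m : ℕ) (v : ℝ) (hv : ∑ a ∈ A, p a * ξ a ^ 2 ≤ v) (hv0 : 0 < v) :
    W A p ξ m (fun x _ => |x|) ≤ Real.sqrt (m * v) := by
  rcases Nat.eq_zero_or_pos m with h0 | hm
  · subst h0
    simp [W]
  have hm' : (0:ℝ) < m := by exact_mod_cast hm
  set l := Real.sqrt (m * v) with hl
  have hl0 : 0 < l := Real.sqrt_pos.mpr (by positivity)
  have hl2 : l ^ 2 = m * v := Real.sq_sqrt (by positivity)
  have h1 : W A p ξ m (fun x _ => |x|) ≤ W A p ξ m (fun x _ => (1 / (2 * l)) • x ^ 2 + l / 2) := by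
    obtain ⟨D, hD⟩ : ∃ D : ℕ, ∀ a ∈ A, deg a ≤ D := ⟨A.sup deg, fun a ha => Finset.le_sup ha⟩
    refine W_mono hp hD m _ _ fun x _ _ => ?_
    rw [smul_eq_mul]
    have h2 : 0 ≤ (|x| - l) ^ 2 := sq_nonneg _
    have h3 : |x| ^ 2 = x ^ 2 := sq_abs x
    have h4 : 1 / (2 * l) * x ^ 2 + l / 2 - |x| = (|x| - l) ^ 2 / (2 * l) := by
      rw [← h3]
      field_simp
      ring
    have h5 : 0 ≤ (|x| - l) ^ 2 / (2 * l) := by positivity
    linarith
  rw [W_add m (fun x _ => (1 / (2 * l)) • x ^ 2) (fun _ _ => l / 2),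
    W_smul (1 / (2 * l)) m (fun x _ => x ^ 2), W_x_sq hp1 hξ, W_const hp1, smul_eq_mul] at h1
  refine h1.trans ?_
  have h6 : (m : ℝ) * ∑ a ∈ A, p a * ξ a ^ 2 ≤ l ^ 2 := by
    rw [hl2]
    exact mul_le_mul_of_nonneg_left hv hm'.le
  have h7 : 1 / (2 * l) * (m * ∑ a ∈ A, p a * ξ a ^ 2) ≤ 1 / (2 * l) * l ^ 2 :=
    mul_le_mul_of_nonneg_left h6 (by positivity)
  have h8 : 1 / (2 * l) * l ^ 2 = l / 2 := by
    field_simp
  linarith

/-- the function `ξ = 1_α / p_α - 1_β / p_β` -/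
noncomputable def xi [DecidableEq (σ →₀ ℕ)] (p : (σ →₀ ℕ) → ℝ) (α β : σ →₀ ℕ) (a : σ →₀ ℕ) : ℝ :=
  (if a = α then (p α)⁻¹ else 0) - (if a = β then (p β)⁻¹ else 0)

/-- The main estimate. -/
theorem diff_le [DecidableEq (σ →₀ ℕ)] (hp : ∀ a ∈ A, 0 < p a) (hp1 : ∑ a ∈ A, p a = 1)
    {D : ℕ} (hD : ∀ a ∈ A, deg a ≤ D) {φ : (σ →₀ ℕ) → ℂ} (h : Harm A p φ) {α β : σ →₀ ℕ}
    (hα : α ∈ A) (hβ : β ∈ A) (hne : α ≠ β) {C : ℝ} {j : ℕ}
    (hφ : ∀ k, ‖φ k‖ ^ 2 ≤ C * (1 + (deg k : ℝ)) ^ j) (k : σ →₀ ℕ) (m : ℕ) (hm : 0 < m) :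
    ‖φ (k + α) - φ (k + β)‖ ^ 2 ≤
      ((p α)⁻¹ + (p β)⁻¹) / m * (C * (1 + (deg k : ℝ) + D * m) ^ j) := by
  have hm' : (0:ℝ) < m := by exact_mod_cast hm
  have hpa := hp α hα
  have hpb := hp β hβ
  have hC : 0 ≤ C := by
    have := hφ 0
    have h2 : (deg (0 : σ →₀ ℕ) : ℝ) = 0 := by simp [deg]
    rw [h2] at this
    have h3 : 0 ≤ ‖φ 0‖ ^ 2 := by positivity
    simpa using h3.trans this
  set ξ := xi p α β with hξdef
  have hξα : ξ α = (p α)⁻¹ := by simp [hξdef, xi, hne]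
  have hξβ : ξ β = -(p β)⁻¹ := by simp [hξdef, xi, hne.symm]
  have hξo : ∀ a, a ≠ α → a ≠ β → ξ a = 0 := by
    intro a h1 h2
    simp [hξdef, xi, h1, h2]
  have hsum : ∀ g : (σ →₀ ℕ) → ℂ, (∀ a, a ≠ α → a ≠ β → g a = 0) → ∑ a ∈ A, g a = g α + g β := by
    intro g hg
    rw [← Finset.sum_pair hne]
    symm
    refine Finset.sum_subset ?_ ?_
    · intro x hx
      rw [Finset.mem_insert, Finset.mem_singleton] at hx
      rcases hx with rfl | rfl <;> assumption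
    · intro x _ hx
      rw [Finset.mem_insert, Finset.mem_singleton, not_or] at hx
      exact hg x hx.1 hx.2
  have hsumR : ∀ g : (σ →₀ ℕ) → ℝ, (∀ a, a ≠ α → a ≠ β → g a = 0) → ∑ a ∈ A, g a = g α + g β := by
    intro g hg
    rw [← Finset.sum_pair hne]
    symm
    refine Finset.sum_subset ?_ ?_
    · intro x hx
      rw [Finset.mem_insert, Finset.mem_singleton] at hx
      rcases hx with rfl | rfl <;> assumption
    · intro x _ hx
      rw [Finset.mem_insert, Finset.mem_singleton, not_or] at hx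
      exact hg x hx.1 hx.2
  have e1 : ∑ a ∈ A, p a * ξ a = 0 := by
    rw [hsumR _ (fun a h1 h2 => by rw [hξo a h1 h2, mul_zero]), hξα, hξβ]
    field_simp
    ring
  have e2 : ∑ a ∈ A, p a * ξ a ^ 2 = (p α)⁻¹ + (p β)⁻¹ := by
    rw [hsumR _ (fun a h1 h2 => by rw [hξo a h1 h2]; ring), hξα, hξβ]
    field_simp
  have e3 : ∑ a ∈ A, (p a : ℂ) * (ξ a : ℂ) * φ (k + a) = φ (k + α) - φ (k + β) := by
    rw [hsum _ (fun a h1 h2 => by rw [hξo a h1 h2]; simp), hξα, hξβ]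
    have ha : (p α : ℂ) ≠ 0 := by exact_mod_cast hpa.ne'
    have hb : (p β : ℂ) ≠ 0 := by exact_mod_cast hpb.ne'
    push_cast
    field_simp
    ring
  set v := (p α)⁻¹ + (p β)⁻¹ with hv
  have hv0 : 0 < v := by positivity
  set B := Real.sqrt (C * (1 + (deg k : ℝ) + D * m) ^ j) with hB
  have hB2 : B ^ 2 = C * (1 + (deg k : ℝ) + D * m) ^ j := Real.sq_sqrt (by positivity)
  have h1 := W_x_harm (ξ := ξ) h m k
  rw [e3] at h1
  have h2 : ‖(m : ℂ) * (φ (k + α) - φ (k + β))‖ ≤ B * Real.sqrt (m * v) := by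
    rw [← h1]
    refine (W_norm_le (fun a ha => (hp a ha).le) m _).trans ?_
    have h3 : W A p ξ m (fun x s => ‖(x : ℂ) * φ (k + s)‖) ≤ W A p ξ m (fun x _ => B • |x|) := by
      refine W_mono (fun a ha => (hp a ha).le) hD m _ _ fun x s hs => ?_
      rw [norm_mul, Complex.norm_real, Real.norm_eq_abs, smul_eq_mul, mul_comm]
      refine mul_le_mul_of_nonneg_right ?_ (abs_nonneg _)
      refine Real.le_sqrt_of_sq_le ?_
      refine (hφ (k + s)).trans ?_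
      refine mul_le_mul_of_nonneg_left ?_ hC
      refine pow_le_pow_left₀ (by positivity) ?_ j
      rw [deg_add]
      have : (deg s : ℝ) ≤ D * m := by exact_mod_cast hs
      push_cast
      linarith
    refine h3.trans ?_
    rw [W_smul B m (fun x _ => |x|), smul_eq_mul]
    exact mul_le_mul_of_nonneg_left (W_abs_le (fun a ha => (hp a ha).le) hp1 e1 m v e2.le hv0)
      (Real.sqrt_nonneg _)
  rw [norm_mul, Complex.norm_natCast] at h2
  have h3 : (m * ‖φ (k + α) - φ (k + β)‖) ^ 2 ≤ (B * Real.sqrt (m * v)) ^ 2 :=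
    pow_le_pow_left₀ (by positivity) h2 2
  rw [mul_pow, mul_pow, hB2, Real.sq_sqrt (by positivity)] at h3
  have h4 : ‖φ (k + α) - φ (k + β)‖ ^ 2 = ((m : ℝ) ^ 2 * ‖φ (k + α) - φ (k + β)‖ ^ 2) / m ^ 2 := by
    field_simp
  rw [h4]
  calc _ ≤ (C * (1 + (deg k : ℝ) + D * m) ^ j * (m * v)) / m ^ 2 :=
        div_le_div_of_nonneg_right h3 (by positivity)
    _ = _ := by
        field_simp

theorem Harm.shift {φ : (σ →₀ ℕ) → ℂ} (h : Harm A p φ) (α : σ →₀ ℕ) :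
    Harm A p (fun k => φ (k + α)) := by
  intro k
  simp only
  rw [h (k + α)]
  refine Finset.sum_congr rfl fun a _ => ?_
  rw [add_right_comm]

theorem Harm.sub {φ ψ : (σ →₀ ℕ) → ℂ} (h : Harm A p φ) (h' : Harm A p ψ) :
    Harm A p (fun k => φ k - ψ k) := by
  intro k
  simp only
  rw [h k, h' k, ← Finset.sum_sub_distrib]
  refine Finset.sum_congr rfl fun a _ => ?_
  ring

/-- bounded harmonic functions satisfy `φ(k + α) = φ(k + β)` -/
theorem eq_of_bounded [DecidableEq (σ →₀ ℕ)] (hp : ∀ a ∈ A, 0 < p a) (hp1 : ∑ a ∈ A, p a = 1)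
    {φ : (σ →₀ ℕ) → ℂ} (h : Harm A p φ) {α β : σ →₀ ℕ}
    (hα : α ∈ A) (hβ : β ∈ A) {C : ℝ}
    (hφ : ∀ k, ‖φ k‖ ^ 2 ≤ C) (k : σ →₀ ℕ) : φ (k + α) = φ (k + β) := by
  rcases eq_or_ne α β with heq | hne
  · rw [heq]
  obtain ⟨D, hD⟩ : ∃ D : ℕ, ∀ a ∈ A, deg a ≤ D := ⟨A.sup deg, fun a ha => Finset.le_sup ha⟩
  have h1 : ∀ m : ℕ, ‖φ (k + α) - φ (k + β)‖ ^ 2 ≤
      (((p α)⁻¹ + (p β)⁻¹) * C) / ((m : ℝ) + 1) := by
    intro m
    have := diff_le hp hp1 hD h hα hβ hne (C := C) (j := 0) (by simpa using hφ) k (m + 1) (by omega)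
    rw [pow_zero, mul_one] at this
    push_cast at this
    rw [div_mul_eq_mul_div] at this
    exact this
  have h2 : ‖φ (k + α) - φ (k + β)‖ ^ 2 ≤ 0 := by
    have h3 : Filter.Tendsto (fun m : ℕ => (((p α)⁻¹ + (p β)⁻¹) * C) / ((m : ℝ) + 1))
        Filter.atTop (nhds 0) :=
      tendsto_const_nhds.div_atTop
        (Filter.tendsto_atTop_add_const_right _ _ tendsto_natCast_atTop_atTop)
    exact ge_of_tendsto' h3 h1
  have h3 : ‖φ (k + α) - φ (k + β)‖ = 0 := by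
    have := sq_nonneg ‖φ (k + α) - φ (k + β)‖
    exact pow_eq_zero_iff (two_ne_zero) |>.mp (le_antisymm h2 this)
  rw [norm_eq_zero, sub_eq_zero] at h3
  exact h3

/-- differences of harmonic functions have smaller growth -/
theorem growth_step [DecidableEq (σ →₀ ℕ)] (hp : ∀ a ∈ A, 0 < p a) (hp1 : ∑ a ∈ A, p a = 1)
    {φ : (σ →₀ ℕ) → ℂ} (h : Harm A p φ) {α β : σ →₀ ℕ}
    (hα : α ∈ A) (hβ : β ∈ A) {C : ℝ} {j : ℕ}
    (hφ : ∀ k, ‖φ k‖ ^ 2 ≤ C * (1 + (deg k : ℝ)) ^ (j + 1)) :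
    ∃ C' : ℝ, ∀ k, ‖φ (k + α) - φ (k + β)‖ ^ 2 ≤ C' * (1 + (deg k : ℝ)) ^ j := by
  rcases eq_or_ne α β with heq | hne
  · subst heq
    exact ⟨0, fun k => by simp⟩
  obtain ⟨D, hD⟩ : ∃ D : ℕ, ∀ a ∈ A, deg a ≤ D := ⟨A.sup deg, fun a ha => Finset.le_sup ha⟩
  refine ⟨((p α)⁻¹ + (p β)⁻¹) * (C * (1 + D) ^ (j + 1)), fun k => ?_⟩
  have h1 := diff_le hp hp1 hD h hα hβ hne hφ k (deg k + 1) (by omega)
  push_cast at h1
  have h2 : (1 + (deg k : ℝ) + D * (deg k + 1)) = (1 + D) * (1 + deg k) := by ring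
  rw [h2, mul_pow] at h1
  refine h1.trans (le_of_eq ?_)
  have h3 : (1 + (deg k : ℝ)) ≠ 0 := by positivity
  have h4 : ((deg k : ℝ) + 1) = 1 + deg k := by ring
  rw [h4, pow_succ (1 + (deg k : ℝ)) j]
  field_simp

end Pool.Agent.J6H91.Cyc
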