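import Pool.Agent.J6H91.Cyc.Main2
import Pool.Agent.J6H91.Cyc.Walk

/-!
# Annihilators of the multiples of a polynomial
-/

set_option autoImplicit false
set_option linter.unusedSectionVars false

open MvPolynomial Filter Topology

namespace Pool.Agent.J6H91.Cyc

variable {σ : Type} [Fintype σ]

theorem functional_monomial_mul (φ : (σ →₀ ℕ) → ℂ) (β : σ →₀ ℕ) (b : ℂ) (P : MvPolynomial σ ℂ) :
    functional φ (monomial β b * P) = b * ∑ k ∈ P.support, P.coeff k * φ (β + k) := by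
  classical
  have h1 : ∀ S : Finset (σ →₀ ℕ), functional φ (monomial β b * ∑ k ∈ S, monomial k (P.coeff k)) =
      b * ∑ k ∈ S, P.coeff k * φ (β + k) := by
    intro S
    induction S using Finset.induction_on with
    | empty => simp [functional]
    | insert a S ha ih =>
      rw [Finset.sum_insert ha, mul_add, functional_add, ih, MvPolynomial.monomial_mul,
        functional_monomial, Finset.sum_insert ha]
      ring
  have h2 : ∑ k ∈ P.support, monomial k (P.coeff k) = P := P.support_sum_monomial_coeff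
  conv_lhs => rw [← h2]
  exact h1 P.support

/-- if `φ` satisfies the recursion of `P`, the functional vanishes on the multiples of `P` -/
theorem functional_mul_eq_zero {φ : (σ →₀ ℕ) → ℂ} {P : MvPolynomial σ ℂ}
    (h : ∀ β : σ →₀ ℕ, ∑ k ∈ P.support, P.coeff k * φ (β + k) = 0) (q : MvPolynomial σ ℂ) :
    functional φ (q * P) = 0 := by
  induction q using MvPolynomial.monomial_add_induction_on with
  | C a =>
    rw [MvPolynomial.C_apply, functional_monomial_mul, h, mul_zero]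
  | monomial_add a b f _ _ ih =>
    rw [add_mul, functional_add, functional_monomial_mul, h, ih, mul_zero, add_zero]

/-- If `P` is not cyclic there is a nonzero solution of the recursion of `P` in the dual space. -/
theorem exists_annihilator {t : ℝ} {P : MvPolynomial σ ℂ} (hP : ¬ ApproxOne t P) :
    ∃ φ : (σ →₀ ℕ) → ℂ, (Summable fun k => (weight t k)⁻¹ * ‖φ k‖ ^ 2) ∧
      (∀ β : σ →₀ ℕ, ∑ k ∈ P.support, P.coeff k * φ (β + k) = 0) ∧ ∃ k, φ k ≠ 0 := by
  classical
  set V : Submodule ℂ (L2 σ) := (LinearMap.range (mulMap t P)).topologicalClosure with hV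
  have hVc : IsClosed (V : Set (L2 σ)) := Submodule.isClosed_topologicalClosure _
  have : CompleteSpace V := hVc.completeSpace_coe
  set e : L2 σ := toL2 (memD_coeff t (1 : MvPolynomial σ ℂ)) with he
  set u : L2 σ := e - V.starProjection e with hu
  have hperp : u ∈ Vᗮ := Submodule.sub_starProjection_mem_orthogonal e
  have hne : u ≠ 0 := by
    intro h0
    apply hP
    have h6 : e ∈ V := by
      have : e = V.starProjection e := by
        rw [hu, sub_eq_zero] at h0
        exact h0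
      rw [this]
      exact Submodule.starProjection_apply_mem V e
    intro ε hε
    rw [hV, ← SetLike.mem_coe, Submodule.topologicalClosure_coe, Metric.mem_closure_iff] at h6
    obtain ⟨_, ⟨q, rfl⟩, hq⟩ := h6 (Real.sqrt ε) (Real.sqrt_pos.mpr hε)
    refine ⟨q, ?_⟩
    rw [dist_eq_norm] at hq
    have h7 := toL2_sub_norm_sq (memD_coeff t (1 : MvPolynomial σ ℂ)) (memD_coeff t (q * P))
    have h8 : ‖e - mulMap t P q‖ ^ 2 < Real.sqrt ε ^ 2 := by
      exact pow_lt_pow_left₀ hq (norm_nonneg _) (by norm_num)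
    rw [Real.sq_sqrt hε.le] at h8
    simp only [MvPolynomial.coeff_sub]
    rw [← h7]
    exact h8
  refine ⟨fun k => (starRingEnd ℂ) (u k) * (Real.sqrt (weight t k) : ℂ), ?_, ?_, ?_⟩
  · have h1 := lp.memℓp u
    rw [memℓp_gen_iff (by norm_num)] at h1
    refine h1.congr fun k => ?_
    have hw := weight_pos t k
    simp only [ENNReal.toReal_ofNat, Real.rpow_ofNat, norm_mul, mul_pow, Complex.norm_real,
      Real.norm_eq_abs, sq_abs, RCLike.norm_conj]
    rw [Real.sq_sqrt hw.le]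
    field_simp
  · intro β
    have h1 : inner ℂ u (mulMap t P (monomial β 1)) = 0 :=
      (Submodule.mem_orthogonal' V u).mp hperp _
        (Submodule.le_topologicalClosure _ (LinearMap.mem_range_self _ _))
    rw [lp.inner_eq_tsum] at h1
    have h2 : ∀ k, inner ℂ (u k) (mulMap t P (monomial β 1) k) =
        ((starRingEnd ℂ) (u k) * (Real.sqrt (weight t k) : ℂ)) * (monomial β 1 * P).coeff k := by
      intro k
      change inner ℂ (u k) ((Real.sqrt (weight t k) : ℂ) * (monomial β 1 * P).coeff k) = _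
      rw [RCLike.inner_apply]
      ring
    simp_rw [h2] at h1
    rw [tsum_eq_sum (s := (monomial β (1:ℂ) * P).support) (fun k hk => by
      rw [MvPolynomial.notMem_support_iff.mp hk, mul_zero])] at h1
    have h3 := functional_monomial_mul
      (fun k => (starRingEnd ℂ) (u k) * (Real.sqrt (weight t k) : ℂ)) β 1 P
    rw [one_mul] at h3
    rw [← h3, ← h1, functional]
    refine Finset.sum_congr rfl fun k _ => ?_
    ring
  · by_contra hcon
    push Not at hcon
    apply hne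
    apply Subtype.ext
    funext k
    have h1 := hcon k
    have hw : (Real.sqrt (weight t k) : ℂ) ≠ 0 := by
      exact_mod_cast (Real.sqrt_pos.mpr (weight_pos t k)).ne'
    have h2 := (mul_eq_zero.mp h1).resolve_right hw
    rwa [map_eq_zero] at h2

theorem weight_le_deg (t : ℝ) : ∃ n : ℕ, ∀ k : σ →₀ ℕ, weight t k ≤ (1 + (deg k : ℝ)) ^ n := by
  obtain ⟨m, hm⟩ := exists_nat_ge |t|
  refine ⟨m * Fintype.card σ, fun k => ?_⟩
  unfold weight
  rw [pow_mul]
  have h1 : ∏ _j : σ, (1 + (deg k : ℝ)) ^ m = ((1 + (deg k : ℝ)) ^ m) ^ Fintype.card σ := by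
    rw [Finset.prod_const, Finset.card_univ]
  rw [← h1]
  refine Finset.prod_le_prod (fun j _ => by positivity) fun j _ => ?_
  have h2 : (k j : ℝ) ≤ deg k := by
    have : k j ≤ deg k := Finset.single_le_sum (f := fun j => k j) (fun _ _ => Nat.zero_le _)
      (Finset.mem_univ j)
    exact_mod_cast this
  have h3 : (1:ℝ) ≤ (k j : ℝ) + 1 := by simp
  calc ((k j : ℝ) + 1) ^ t ≤ ((k j : ℝ) + 1) ^ (m : ℝ) :=
        Real.rpow_le_rpow_of_exponent_le h3 ((le_abs_self t).trans hm)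
    _ = ((k j : ℝ) + 1) ^ m := Real.rpow_natCast _ _
    _ ≤ (1 + (deg k : ℝ)) ^ m := pow_le_pow_left₀ (by positivity) (by linarith) m

/-- elements of the dual space have polynomial growth -/
theorem growth_of_summable {t : ℝ} {φ : (σ →₀ ℕ) → ℂ}
    (hφ : Summable fun k => (weight t k)⁻¹ * ‖φ k‖ ^ 2) :
    ∃ (n : ℕ) (C : ℝ), ∀ k, ‖φ k‖ ^ 2 ≤ C * (1 + (deg k : ℝ)) ^ n := by
  obtain ⟨n, hn⟩ := weight_le_deg (σ := σ) t
  refine ⟨n, ∑' k, (weight t k)⁻¹ * ‖φ k‖ ^ 2, fun k => ?_⟩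
  have h1 : (weight t k)⁻¹ * ‖φ k‖ ^ 2 ≤ ∑' k, (weight t k)⁻¹ * ‖φ k‖ ^ 2 :=
    hφ.le_tsum k fun j _ => by have := weight_nonneg t j; positivity
  have hw := weight_pos t k
  have h2 : ‖φ k‖ ^ 2 = ((weight t k)⁻¹ * ‖φ k‖ ^ 2) * weight t k := by field_simp
  rw [h2]
  exact mul_le_mul h1 (hn k) hw.le (le_trans (by positivity) h1)

theorem summable_shift {t : ℝ} {φ : (σ →₀ ℕ) → ℂ}
    (hφ : Summable fun k => (weight t k)⁻¹ * ‖φ k‖ ^ 2) (α : σ →₀ ℕ) :
    Summable fun k => (weight t k)⁻¹ * ‖φ (k + α)‖ ^ 2 := by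
  have h1 : Summable fun k => (weight t (k + α))⁻¹ * ‖φ (k + α)‖ ^ 2 :=
    hφ.comp_injective (add_left_injective α)
  refine Summable.of_nonneg_of_le (fun k => by have := weight_nonneg t k; positivity)
    (fun k => ?_) (h1.mul_left (shiftConst t α))
  have hw := weight_pos t k
  have hw2 := weight_pos t (k + α)
  have h2 := weight_add_le t k α
  rw [← mul_assoc]
  refine mul_le_mul_of_nonneg_right ?_ (by positivity)
  rw [inv_le_iff_one_le_mul₀ hw, mul_assoc, mul_comm, mul_assoc, ← div_eq_inv_mul, one_le_div hw2,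
    mul_comm]
  exact h2

theorem summable_sub {t : ℝ} {φ ψ : (σ →₀ ℕ) → ℂ}
    (hφ : Summable fun k => (weight t k)⁻¹ * ‖φ k‖ ^ 2)
    (hψ : Summable fun k => (weight t k)⁻¹ * ‖ψ k‖ ^ 2) :
    Summable fun k => (weight t k)⁻¹ * ‖φ k - ψ k‖ ^ 2 := by
  refine Summable.of_nonneg_of_le (fun k => by have := weight_nonneg t k; positivity)
    (fun k => ?_) ((hφ.mul_left 2).add (hψ.mul_left 2))
  have hw := weight_pos t k
  have h1 : ‖φ k - ψ k‖ ^ 2 ≤ 2 * ‖φ k‖ ^ 2 + 2 * ‖ψ k‖ ^ 2 := by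
    have := norm_sub_le (φ k) (ψ k)
    nlinarith [sq_nonneg (‖φ k‖ - ‖ψ k‖), norm_nonneg (φ k - ψ k), norm_nonneg (φ k),
      norm_nonneg (ψ k)]
  have h2 := mul_le_mul_of_nonneg_left h1 (inv_nonneg.mpr hw.le)
  linarith

/-- **Liouville property.** If there is a nonzero harmonic function in the dual space, there is one
which is invariant under all steps of the walk. -/
theorem exists_invariant {t : ℝ} {A : Finset (σ →₀ ℕ)} {p : (σ →₀ ℕ) → ℝ}
    (hp : ∀ a ∈ A, 0 < p a) (hp1 : ∑ a ∈ A, p a = 1)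
    (hex : ∃ φ : (σ →₀ ℕ) → ℂ, (Summable fun k => (weight t k)⁻¹ * ‖φ k‖ ^ 2) ∧ Harm A p φ ∧
      ∃ k, φ k ≠ 0) :
    ∃ φ : (σ →₀ ℕ) → ℂ, (Summable fun k => (weight t k)⁻¹ * ‖φ k‖ ^ 2) ∧
      (∀ a ∈ A, ∀ k, φ (k + a) = φ k) ∧ ∃ k, φ k ≠ 0 := by
  classical
  let Q : ℕ → Prop := fun j => ∃ φ : (σ →₀ ℕ) → ℂ,
    (Summable fun k => (weight t k)⁻¹ * ‖φ k‖ ^ 2) ∧ Harm A p φ ∧ (∃ k, φ k ≠ 0) ∧
    ∃ C : ℝ, ∀ k, ‖φ k‖ ^ 2 ≤ C * (1 + (deg k : ℝ)) ^ j
  have hQ : ∃ j, Q j := by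
    obtain ⟨φ, h1, h2, h3⟩ := hex
    obtain ⟨n, C, hC⟩ := growth_of_summable h1
    exact ⟨n, φ, h1, h2, h3, C, hC⟩
  have hmin : ∀ {m : ℕ}, m < Nat.find hQ → ¬ Q m := Nat.find_min hQ
  obtain ⟨φ, h1, h2, h3, C, hC⟩ := Nat.find_spec hQ
  have hdiff : ∀ α ∈ A, ∀ β ∈ A, ∀ k, φ (k + α) = φ (k + β) := by
    intro α hα β hβ k
    rcases hj : Nat.find hQ with _ | j
    · rw [hj] at hC
      exact eq_of_bounded hp hp1 h2 hα hβ (C := C) (by simpa using hC) k
    · by_contra hne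
      rw [hj] at hC
      obtain ⟨C', hC'⟩ := growth_step hp hp1 h2 hα hβ hC
      refine hmin (m := j) (by omega) ⟨fun k => φ (k + α) - φ (k + β), ?_, ?_, ⟨k, ?_⟩, C', hC'⟩
      · exact summable_sub (summable_shift h1 α) (summable_shift h1 β)
      · exact (h2.shift α).sub (h2.shift β)
      · rwa [sub_ne_zero]
  refine ⟨φ, h1, fun a ha k => ?_, h3⟩
  rw [h2 k]
  have h4 : ∀ b ∈ A, (p b : ℂ) * φ (k + b) = (p b : ℂ) * φ (k + a) := by
    intro b hb
    rw [hdiff b hb a ha]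
  rw [Finset.sum_congr rfl h4, ← Finset.sum_mul, ← Complex.ofReal_sum, hp1]
  simp

end Pool.Agent.J6H91.Cyc
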