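import Pool.Agent.J6H91.Cyc.Main2

/-!
# Convergence of sums over simplicial monoids
-/

set_option autoImplicit false
set_option linter.unusedSectionVars false

open Finset

namespace Pool.Agent.J6H91.Cyc

variable {σ : Type} [Fintype σ] [DecidableEq σ]

/-- the assignment of Hall's theorem with multiplicities -/
theorem exists_assignment {ι : Type} [Fintype ι] [DecidableEq ι] (N : ι → Finset σ) {t : ℝ}
    (h : ∀ S : Finset ι, S.Nonempty → (S.card : ℝ) < t * (S.biUnion N).card) [Nonempty ι] :
    ∃ (n m : ℕ) (f : ι × Fin m → σ × Fin n), 0 < n ∧ (n : ℝ) < t * m ∧ Function.Injective f ∧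
      ∀ x, (f x).1 ∈ N x.1 := by
  classical
  -- the subset with the largest ratio
  have hne : ((univ : Finset (Finset ι)).filter fun S => S.Nonempty).Nonempty := by
    obtain ⟨i⟩ := ‹Nonempty ι›
    exact ⟨{i}, by simp⟩
  have hN : ∀ S : Finset ι, S.Nonempty → 0 < (S.biUnion N).card := by
    intro S hS
    by_contra hcon
    have h0 : (S.biUnion N).card = 0 := by omega
    have := h S hS
    rw [h0] at this
    simp at this
    have h2 : (0:ℝ) ≤ S.card := Nat.cast_nonneg _
    linarith
  obtain ⟨S0, hS0, hmax⟩ := Finset.exists_max_image _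
    (fun S : Finset ι => (S.card : ℝ) / (S.biUnion N).card) hne
  rw [Finset.mem_filter] at hS0
  set n := S0.card with hn
  set m := (S0.biUnion N).card with hm
  have hn0 : 0 < n := Finset.card_pos.mpr hS0.2
  have hm0 : 0 < m := hN S0 hS0.2
  have hratio : ∀ S : Finset ι, m * S.card ≤ n * (S.biUnion N).card := by
    intro S
    rcases S.eq_empty_or_nonempty with rfl | hS
    · simp
    · have h1 := hmax S (by simp [hS])
      have h2 : (0:ℝ) < (S.biUnion N).card := by exact_mod_cast hN S hS
      have h3 : (0:ℝ) < m := by exact_mod_cast hm0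
      rw [div_le_div_iff₀ h2 h3] at h1
      have h4 : ((m * S.card : ℕ) : ℝ) ≤ ((n * (S.biUnion N).card : ℕ) : ℝ) := by
        push_cast
        linarith
      exact_mod_cast h4
  have hall := (Finset.all_card_le_biUnion_card_iff_exists_injective
    (fun x : ι × Fin m => (N x.1) ×ˢ (univ : Finset (Fin n)))).mp (by
    intro S
    have h1 : S.card ≤ m * (S.image Prod.fst).card := by
      have h2 : S ⊆ (S.image Prod.fst) ×ˢ (univ : Finset (Fin m)) := by
        intro x hx
        rw [Finset.mem_product]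
        exact ⟨Finset.mem_image_of_mem _ hx, Finset.mem_univ _⟩
      have h3 := Finset.card_le_card h2
      rw [Finset.card_product, Finset.card_univ, Fintype.card_fin] at h3
      rw [mul_comm]
      exact h3
    have h4 : S.biUnion (fun x : ι × Fin m => (N x.1) ×ˢ (univ : Finset (Fin n))) =
        ((S.image Prod.fst).biUnion N) ×ˢ (univ : Finset (Fin n)) := by
      ext ⟨a, b⟩
      simp only [Finset.mem_biUnion, Finset.mem_product, Finset.mem_univ, and_true,
        Finset.mem_image]
      constructor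
      · rintro ⟨x, hx, ha⟩
        exact ⟨x.1, ⟨x, hx, rfl⟩, ha⟩
      · rintro ⟨i, ⟨x, hx, rfl⟩, ha⟩
        exact ⟨x, hx, ha⟩
    rw [h4, Finset.card_product, Finset.card_univ, Fintype.card_fin, mul_comm]
    exact h1.trans (hratio _))
  obtain ⟨f, hf1, hf2⟩ := hall
  refine ⟨n, m, f, hn0, ?_, hf1, fun x => ?_⟩
  · exact h S0 hS0.2
  · exact (Finset.mem_product.mp (hf2 x)).1

/-- Convergence for a family `v` with Hall's condition. -/
theorem summable_simplicial {ι : Type} [Fintype ι] [DecidableEq ι] (v : ι → σ →₀ ℕ) {t : ℝ}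
    (h : ∀ S : Finset ι, S.Nonempty → (S.card : ℝ) < t * (S.biUnion fun i => (v i).support).card) :
    Summable fun c : ι →₀ ℕ => (weight t (∑ i, c i • v i))⁻¹ := by
  classical
  rcases isEmpty_or_nonempty ι with hι | hι
  · exact Summable.of_finite
  obtain ⟨n, m, f, hn, hnm, hf1, hf2⟩ := exists_assignment (fun i => (v i).support) h
  have hn' : (0:ℝ) < n := by exact_mod_cast hn
  have hm' : (0:ℝ) ≤ m := Nat.cast_nonneg m
  have ht : 0 < t := by
    by_contra hcon
    push Not at hcon
    have := mul_nonpos_of_nonpos_of_nonneg hcon hm'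
    linarith
  set y : ℝ := m * (t / n) with hy
  have hy1 : 1 < y := by
    rw [hy, mul_div_assoc', one_lt_div hn', mul_comm]
    exact hnm
  have hbase := summable_prod_of_nonneg (σ := ι) (fun _ k => (((k : ℝ) + 1) ^ y)⁻¹)
    (fun _ k => by positivity) (fun _ => by
      have := (summable_nat_add_iff 1).mpr (Real.summable_nat_rpow_inv.mpr hy1)
      refine this.congr fun k => ?_
      push_cast
      rfl)
  refine Summable.of_nonneg_of_le (fun c => inv_nonneg.mpr (weight_nonneg _ _)) (fun c => ?_) hbase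
  rw [Finset.prod_inv_distrib]
  refine inv_anti₀ (Finset.prod_pos fun i _ => by positivity) ?_
  -- `∏_i (c_i + 1)^y ≤ ∏_j (1 + Σ_i c_i v_ij)^t`
  set k : σ →₀ ℕ := ∑ i, c i • v i with hk
  have hk1 : ∀ i j, v i j ≠ 0 → c i ≤ k j := by
    intro i j hij
    have h1 : k j = ∑ i, c i * v i j := by
      rw [hk, Finsupp.finsetSum_apply]
      rfl
    rw [h1]
    calc c i ≤ c i * v i j := Nat.le_mul_of_pos_right _ (Nat.pos_of_ne_zero hij)
      _ ≤ _ := Finset.single_le_sum (f := fun i => c i * v i j) (fun _ _ => Nat.zero_le _)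
          (Finset.mem_univ i)
  have h1 : ∏ i, ((c i : ℝ) + 1) ^ y = ∏ x : ι × Fin m, ((c x.1 : ℝ) + 1) ^ (t / n) := by
    rw [Fintype.prod_prod_type]
    refine Finset.prod_congr rfl fun i _ => ?_
    simp only
    rw [Finset.prod_const, Finset.card_univ, Fintype.card_fin, ← Real.rpow_natCast,
      ← Real.rpow_mul (by positivity), hy, mul_comm]
  have h2 : ∏ x : ι × Fin m, ((c x.1 : ℝ) + 1) ^ (t / n) ≤
      ∏ x : ι × Fin m, ((k (f x).1 : ℝ) + 1) ^ (t / n) := by
    refine Finset.prod_le_prod (fun x _ => by positivity) fun x _ => ?_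
    refine Real.rpow_le_rpow (by positivity) ?_ (by positivity)
    have := hk1 x.1 (f x).1 (Finsupp.mem_support_iff.mp (hf2 x))
    have h3 : (c x.1 : ℝ) ≤ k (f x).1 := by exact_mod_cast this
    linarith
  have h3 : ∏ x : ι × Fin m, ((k (f x).1 : ℝ) + 1) ^ (t / n) ≤
      ∏ z : σ × Fin n, ((k z.1 : ℝ) + 1) ^ (t / n) := by
    have h4 : ∏ x : ι × Fin m, ((k (f x).1 : ℝ) + 1) ^ (t / n) =
        ∏ z ∈ univ.image f, ((k z.1 : ℝ) + 1) ^ (t / n) := by
      rw [Finset.prod_image (fun a _ b _ hab => hf1 hab)]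
    rw [h4, ← Finset.prod_sdiff (Finset.subset_univ (univ.image f))]
    have h5 : 1 ≤ ∏ z ∈ univ \ univ.image f, ((k z.1 : ℝ) + 1) ^ (t / n) := by
      have h6 := Finset.prod_le_prod (s := univ \ univ.image f) (f := fun _ => (1:ℝ))
        (g := fun z : σ × Fin n => ((k z.1 : ℝ) + 1) ^ (t / n)) (fun _ _ => zero_le_one)
        (fun z _ => Real.one_le_rpow (by simp) (by positivity))
      simpa using h6
    have h7 : 0 ≤ ∏ z ∈ univ.image f, ((k z.1 : ℝ) + 1) ^ (t / n) :=
      Finset.prod_nonneg fun _ _ => by positivity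
    nlinarith
  have h4 : ∏ z : σ × Fin n, ((k z.1 : ℝ) + 1) ^ (t / n) = weight t k := by
    rw [Fintype.prod_prod_type, weight]
    refine Finset.prod_congr rfl fun j _ => ?_
    simp only
    rw [Finset.prod_const, Finset.card_univ, Fintype.card_fin, ← Real.rpow_natCast,
      ← Real.rpow_mul (by positivity), div_mul_cancel₀ _ hn'.ne']
  rw [h1, ← h4]
  exact h2.trans h3

end Pool.Agent.J6H91.Cyc
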