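import Pool.Agent.J6H91.Cyc.Basic

/-!
# Weak limits in `D_t`

If multiples of `P` by power series are bounded in `D_t`, are limits of polynomial multiples of `P`
and converge coefficientwise to `1`, then `P` is cyclic.
-/

set_option autoImplicit false

open MvPolynomial Filter Topology

namespace Pool.Agent.J6H91.Cyc

variable {σ : Type} [Fintype σ]

/-- the Hilbert space `ℓ²` -/
noncomputable abbrev L2 (σ : Type) := lp (fun _ : (σ →₀ ℕ) => ℂ) 2

theorem memℓp_of_memD {t : ℝ} {c : (σ →₀ ℕ) → ℂ} (hc : MemD t c) :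
    Memℓp (E := fun _ : (σ →₀ ℕ) => ℂ) (fun k => (Real.sqrt (weight t k) : ℂ) * c k) 2 := by
  rw [memℓp_gen_iff (by norm_num)]
  refine hc.congr fun k => ?_
  simp only [ENNReal.toReal_ofNat, Real.rpow_ofNat, norm_mul, mul_pow, Complex.norm_real,
    Real.norm_eq_abs, sq_abs]
  rw [Real.sq_sqrt (weight_nonneg t k)]

/-- the isometry from `D_t` to `ℓ²` -/
noncomputable def toL2 {t : ℝ} {c : (σ →₀ ℕ) → ℂ} (hc : MemD t c) : L2 σ :=
  ⟨fun k => (Real.sqrt (weight t k) : ℂ) * c k, memℓp_of_memD hc⟩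

theorem toL2_apply {t : ℝ} {c : (σ →₀ ℕ) → ℂ} (hc : MemD t c) (k : σ →₀ ℕ) :
    toL2 hc k = (Real.sqrt (weight t k) : ℂ) * c k := rfl

theorem norm_toL2_sq {t : ℝ} {c : (σ →₀ ℕ) → ℂ} (hc : MemD t c) :
    ‖toL2 hc‖ ^ 2 = normSq t c := by
  have h := lp.norm_rpow_eq_tsum (p := 2) (by norm_num) (toL2 hc)
  simp only [ENNReal.toReal_ofNat, Real.rpow_ofNat] at h
  rw [h]
  unfold normSq
  refine tsum_congr fun k => ?_
  rw [toL2_apply, norm_mul, mul_pow, Complex.norm_real, Real.norm_eq_abs, sq_abs,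
    Real.sq_sqrt (weight_nonneg t k)]

/-- bounded sequences which converge coordinatewise to zero converge weakly to zero -/
theorem tendsto_inner_zero {ι : Type} (u : lp (fun _ : ι => ℂ) 2)
    (v : ℕ → lp (fun _ : ι => ℂ) 2) (C : ℝ) (hv : ∀ n, ‖v n‖ ≤ C)
    (hlim : ∀ k, Tendsto (fun n => v n k) atTop (𝓝 0)) :
    Tendsto (fun n => inner ℂ u (v n)) atTop (𝓝 0) := by
  classical
  have hC : 0 ≤ C := (norm_nonneg _).trans (hv 0)
  rw [Metric.tendsto_atTop]
  intro ε hε
  have hsum := lp.hasSum_single (p := 2) (by norm_num) u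
  have h1 := (Metric.tendsto_atTop.mp hsum) (ε / (2 * (C + 1))) (by positivity)
  obtain ⟨s, hs⟩ := h1
  have h2 := hs s le_rfl
  rw [dist_eq_norm] at h2
  set u0 := ∑ k ∈ s, lp.single 2 k (u k) with hu0
  have h3 : Tendsto (fun n => inner ℂ u0 (v n)) atTop (𝓝 0) := by
    have h4 : ∀ n, inner ℂ u0 (v n) = ∑ k ∈ s, inner ℂ (u k) (v n k) := by
      intro n
      rw [hu0, sum_inner]
      refine Finset.sum_congr rfl fun k _ => ?_
      rw [lp.inner_single_left]
    simp_rw [h4]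
    have h5 : ∀ k ∈ s, Tendsto (fun n => inner ℂ (u k) (v n k)) atTop (𝓝 0) := by
      intro k _
      have := (hlim k).const_mul ((starRingEnd ℂ) (u k))
      rw [mul_zero] at this
      refine this.congr fun n => ?_
      simp [mul_comm]
    simpa using tendsto_finsetSum s h5
  rw [Metric.tendsto_atTop] at h3
  obtain ⟨N, hN⟩ := h3 (ε / 2) (by positivity)
  refine ⟨N, fun n hn => ?_⟩
  have h6 := hN n hn
  rw [dist_zero_right] at h6 ⊢
  have h7 : inner ℂ u (v n) = inner ℂ u0 (v n) - inner ℂ (u0 - u) (v n) := by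
    rw [inner_sub_left]
    ring
  rw [h7]
  have h8 : ‖inner ℂ (u0 - u) (v n)‖ ≤ ‖u0 - u‖ * ‖v n‖ := norm_inner_le_norm _ _
  have h9 : ‖u0 - u‖ * ‖v n‖ ≤ (ε / (2 * (C + 1))) * C :=
    mul_le_mul h2.le (hv n) (norm_nonneg _) (by positivity)
  have h10 : (ε / (2 * (C + 1))) * C < ε / 2 := by
    rw [div_mul_eq_mul_div, div_lt_div_iff₀ (by positivity) (by positivity)]
    nlinarith
  calc _ ≤ ‖inner ℂ u0 (v n)‖ + ‖inner ℂ (u0 - u) (v n)‖ := norm_sub_le _ _
    _ < ε := by linarith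

/-- the map `q ↦ q P` -/
noncomputable def mulMap (t : ℝ) (P : MvPolynomial σ ℂ) : MvPolynomial σ ℂ →ₗ[ℂ] L2 σ where
  toFun q := toL2 (memD_coeff t (q * P))
  map_add' q r := by
    apply Subtype.ext
    funext k
    change (Real.sqrt (weight t k) : ℂ) * ((q + r) * P).coeff k =
      (Real.sqrt (weight t k) : ℂ) * (q * P).coeff k + (Real.sqrt (weight t k) : ℂ) * (r * P).coeff k
    rw [add_mul, MvPolynomial.coeff_add]
    ring
  map_smul' a q := by
    apply Subtype.ext
    funext k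
    change (Real.sqrt (weight t k) : ℂ) * ((a • q) * P).coeff k =
      a • ((Real.sqrt (weight t k) : ℂ) * (q * P).coeff k)
    rw [smul_mul_assoc, MvPolynomial.coeff_smul, smul_eq_mul, smul_eq_mul]
    ring

theorem toL2_sub_norm_sq {t : ℝ} {a b : (σ →₀ ℕ) → ℂ} (ha : MemD t a) (hb : MemD t b) :
    ‖toL2 ha - toL2 hb‖ ^ 2 = normSq t (fun k => a k - b k) := by
  rw [← norm_toL2_sq (ha.sub hb)]
  congr 2
  apply Subtype.ext
  funext k
  change (Real.sqrt (weight t k) : ℂ) * a k - (Real.sqrt (weight t k) : ℂ) * b k =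
    (Real.sqrt (weight t k) : ℂ) * (a k - b k)
  ring

/-- The weak convergence criterion for cyclicity. -/
theorem approxOne_of_weak {t : ℝ} {P : MvPolynomial σ ℂ} (c : ℕ → (σ →₀ ℕ) → ℂ)
    (hc : ∀ n, MemD t (c n)) (C : ℝ) (hC : ∀ n, normSq t (c n) ≤ C)
    (hlim : ∀ k, Tendsto (fun n => c n k) atTop (𝓝 ((1 : MvPolynomial σ ℂ).coeff k)))
    (happ : ∀ n, ∀ ε : ℝ, 0 < ε → ∃ q : MvPolynomial σ ℂ,
      normSq t (fun k => c n k - (q * P).coeff k) < ε) :
    ApproxOne t P := by
  set V : Submodule ℂ (L2 σ) := (LinearMap.range (mulMap t P)).topologicalClosure with hV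
  have hVc : IsClosed (V : Set (L2 σ)) := Submodule.isClosed_topologicalClosure _
  have : CompleteSpace V := hVc.completeSpace_coe
  set e : L2 σ := toL2 (memD_coeff t (1 : MvPolynomial σ ℂ)) with he
  have hmem : ∀ n, toL2 (hc n) ∈ V := by
    intro n
    rw [hV, ← SetLike.mem_coe, Submodule.topologicalClosure_coe, Metric.mem_closure_iff]
    intro ε hε
    obtain ⟨q, hq⟩ := happ n (ε ^ 2) (by positivity)
    refine ⟨mulMap t P q, ⟨q, rfl⟩, ?_⟩
    rw [dist_eq_norm]
    have h := toL2_sub_norm_sq (hc n) (memD_coeff t (q * P))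
    rw [← h] at hq
    exact lt_of_pow_lt_pow_left₀ 2 hε.le hq
  set u : L2 σ := e - V.starProjection e with hu
  have hperp : u ∈ Vᗮ := Submodule.sub_starProjection_mem_orthogonal e
  have h1 : ∀ n, inner ℂ u (toL2 (hc n)) = 0 := fun n =>
    (Submodule.mem_orthogonal' V u).mp hperp _ (hmem n)
  have h2 : Tendsto (fun n => inner ℂ u (toL2 (hc n) - e)) atTop (𝓝 0) := by
    refine tendsto_inner_zero u (fun n => toL2 (hc n) - e) (Real.sqrt C + ‖e‖) (fun n => ?_) ?_
    · refine (norm_sub_le _ _).trans ?_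
      refine add_le_add ?_ le_rfl
      refine Real.le_sqrt_of_sq_le ?_
      rw [norm_toL2_sq]
      exact hC n
    · intro k
      have h3 : ∀ n, (toL2 (hc n) - e : L2 σ) k =
          (Real.sqrt (weight t k) : ℂ) * (c n k - (1 : MvPolynomial σ ℂ).coeff k) := by
        intro n
        change (Real.sqrt (weight t k) : ℂ) * c n k -
          (Real.sqrt (weight t k) : ℂ) * (1 : MvPolynomial σ ℂ).coeff k = _
        ring
      simp_rw [h3]
      have h4 := ((hlim k).sub_const ((1 : MvPolynomial σ ℂ).coeff k)).const_mul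
        (Real.sqrt (weight t k) : ℂ)
      simpa using h4
  have h3 : inner ℂ u e = 0 := by
    have h4 : ∀ n, inner ℂ u (toL2 (hc n) - e) = - inner ℂ u e := by
      intro n
      rw [inner_sub_right, h1 n, zero_sub]
    simp_rw [h4] at h2
    have := tendsto_nhds_unique h2 tendsto_const_nhds
    rw [← neg_eq_zero, ← this]
  have h4 : inner ℂ u u = 0 := by
    have h5 : inner ℂ u (V.starProjection e) = 0 :=
      (Submodule.mem_orthogonal' V u).mp hperp _ (Submodule.starProjection_apply_mem V e)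
    conv_lhs => rw [hu, inner_sub_right]
    rw [← hu, h3, h5, sub_zero]
  have h5 : u = 0 := inner_self_eq_zero.mp h4
  have h6 : e ∈ V := by
    have : e = V.starProjection e := by
      rw [hu, sub_eq_zero] at h5
      exact h5
    rw [this]
    exact Submodule.starProjection_apply_mem V e
  intro ε hε
  rw [hV, ← SetLike.mem_coe, Submodule.topologicalClosure_coe, Metric.mem_closure_iff] at h6
  obtain ⟨_, ⟨q, rfl⟩, hq⟩ := h6 (Real.sqrt ε) (Real.sqrt_pos.mpr hε)
  refine ⟨q, ?_⟩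
  rw [dist_eq_norm] at hq
  have h7 := toL2_sub_norm_sq (memD_coeff t (1 : MvPolynomial σ ℂ)) (memD_coeff t (q * P))
  have h8 : ‖e - mulMap t P q‖ ^ 2 < Real.sqrt ε ^ 2 := by
    exact pow_lt_pow_left₀ hq (norm_nonneg _) (by norm_num)
  rw [Real.sq_sqrt hε.le] at h8
  simp only [MvPolynomial.coeff_sub]
  rw [← h7]
  exact h8

end Pool.Agent.J6H91.Cyc
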