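import Pool.Agent.J6H91.Cyc.OneVar

/-!
# Slices of power series in several variables

`slice ζ G` is the one variable series `G(λ ζ)`.
-/

set_option autoImplicit false

open Finset

namespace Pool.Agent.J6H91.Cyc

variable {σ : Type} [Fintype σ] [DecidableEq σ]

/-- the exponents of total degree `n` -/
def degSet (n : ℕ) : Finset (σ →₀ ℕ) := finsuppAntidiag univ n

theorem mem_degSet {n : ℕ} {k : σ →₀ ℕ} : k ∈ degSet n ↔ ∑ j, k j = n := by
  simp [degSet, mem_finsuppAntidiag]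

/-- the slice `λ ↦ G(λ ζ)` -/
noncomputable def slice (ζ : σ → ℂ) (G : MvPowerSeries σ ℂ) : PowerSeries ℂ :=
  PowerSeries.mk fun n => ∑ k ∈ degSet n, MvPowerSeries.coeff k G * ∏ j, ζ j ^ k j

theorem coeff_slice (ζ : σ → ℂ) (G : MvPowerSeries σ ℂ) (n : ℕ) :
    PowerSeries.coeff n (slice ζ G) = ∑ k ∈ degSet n, MvPowerSeries.coeff k G * ∏ j, ζ j ^ k j := by
  simp [slice]

theorem slice_add (ζ : σ → ℂ) (F G : MvPowerSeries σ ℂ) :
    slice ζ (F + G) = slice ζ F + slice ζ G := by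
  ext n
  simp only [coeff_slice, map_add, add_mul, Finset.sum_add_distrib]

theorem slice_zero (ζ : σ → ℂ) : slice ζ (0 : MvPowerSeries σ ℂ) = 0 := by
  ext n
  simp [coeff_slice]

theorem slice_one (ζ : σ → ℂ) : slice ζ (1 : MvPowerSeries σ ℂ) = 1 := by
  ext n
  rw [coeff_slice, PowerSeries.coeff_one]
  split_ifs with h
  · subst h
    rw [Finset.sum_eq_single_of_mem (0 : σ →₀ ℕ)]
    · simp
    · simp [mem_degSet]
    · intro k _ hk
      simp [MvPowerSeries.coeff_one, hk]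
  · refine Finset.sum_eq_zero fun k hk => ?_
    rw [MvPowerSeries.coeff_one, if_neg, zero_mul]
    rintro rfl
    rw [mem_degSet] at hk
    simp at hk
    omega

theorem slice_mul (ζ : σ → ℂ) (F G : MvPowerSeries σ ℂ) :
    slice ζ (F * G) = slice ζ F * slice ζ G := by
  ext n
  rw [coeff_slice, PowerSeries.coeff_mul]
  simp_rw [coeff_slice, MvPowerSeries.coeff_mul, Finset.sum_mul, Finset.mul_sum]
  rw [Finset.sum_sigma', Finset.sum_sigma']
  have e3 : ∀ x : (_ : ℕ × ℕ) × (σ →₀ ℕ), ∑ i ∈ degSet x.1.2,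
      MvPowerSeries.coeff x.2 F * ∏ j, ζ j ^ x.2 j * (MvPowerSeries.coeff i G * ∏ j, ζ j ^ i j) =
      ∑ i ∈ degSet x.1.2,
      MvPowerSeries.coeff x.2 F * ∏ j, ζ j ^ x.2 j * (MvPowerSeries.coeff i G * ∏ j, ζ j ^ i j) :=
    fun _ => rfl
  rw [Finset.sum_sigma']
  refine Finset.sum_bij' (fun x _ => ⟨⟨(∑ j, x.2.1 j, ∑ j, x.2.2 j), x.2.1⟩, x.2.2⟩)
    (fun y _ => ⟨y.1.2 + y.2, (y.1.2, y.2)⟩) ?_ ?_ ?_ ?_ ?_
  · rintro ⟨k, i, j⟩ h
    simp only [mem_sigma, mem_degSet, HasAntidiagonal.mem_antidiagonal] at h ⊢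
    refine ⟨⟨?_, trivial⟩, trivial⟩
    rw [← h.1, ← h.2, ← Finset.sum_add_distrib]
    rfl
  · rintro ⟨⟨⟨a, b⟩, i⟩, j⟩ h
    simp only [mem_sigma, mem_degSet, HasAntidiagonal.mem_antidiagonal] at h ⊢
    refine ⟨?_, trivial⟩
    rw [← h.1.1, ← h.1.2, ← h.2, ← Finset.sum_add_distrib]
    rfl
  · rintro ⟨k, i, j⟩ h
    simp only [mem_sigma, mem_degSet, HasAntidiagonal.mem_antidiagonal] at h ⊢
    rw [← h.2]
  · rintro ⟨⟨⟨a, b⟩, i⟩, j⟩ h
    simp only [mem_sigma, mem_degSet, HasAntidiagonal.mem_antidiagonal] at h ⊢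
    rw [h.1.2, h.2]
  · rintro ⟨k, i, j⟩ h
    simp only [mem_sigma, mem_degSet, HasAntidiagonal.mem_antidiagonal] at h ⊢
    have : ∀ s, k s = i s + j s := by
      intro s
      rw [← h.2]
      rfl
    simp_rw [this, pow_add, Finset.prod_mul_distrib]
    ring

/-- the slice as a ring homomorphism -/
noncomputable def sliceHom (ζ : σ → ℂ) : MvPowerSeries σ ℂ →+* PowerSeries ℂ where
  toFun := slice ζ
  map_one' := slice_one ζ
  map_mul' := slice_mul ζ
  map_zero' := slice_zero ζ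
  map_add' := slice_add ζ

theorem slice_C (ζ : σ → ℂ) (a : ℂ) : slice ζ (MvPowerSeries.C a) = PowerSeries.C a := by
  ext n
  rw [coeff_slice, PowerSeries.coeff_C]
  split_ifs with h
  · subst h
    rw [Finset.sum_eq_single_of_mem (0 : σ →₀ ℕ)]
    · simp
    · simp [mem_degSet]
    · intro k _ hk
      simp [MvPowerSeries.coeff_C, hk]
  · refine Finset.sum_eq_zero fun k hk => ?_
    rw [MvPowerSeries.coeff_C, if_neg, zero_mul]
    rintro rfl
    rw [mem_degSet] at hk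
    simp at hk
    omega

theorem slice_X (ζ : σ → ℂ) (s : σ) :
    slice ζ (MvPowerSeries.X s) = PowerSeries.C (ζ s) * PowerSeries.X := by
  ext n
  rw [coeff_slice, PowerSeries.coeff_C_mul, PowerSeries.coeff_X]
  split_ifs with h
  · subst h
    rw [Finset.sum_eq_single_of_mem (Finsupp.single s 1 : σ →₀ ℕ)]
    · rw [MvPowerSeries.coeff_X, if_pos rfl, Finset.prod_eq_single s]
      · simp
      · intro b _ hb
        rw [Finsupp.single_apply, if_neg hb.symm, pow_zero]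
      · simp
    · rw [mem_degSet]
      simp [Finsupp.single_apply]
    · intro k _ hk
      simp [MvPowerSeries.coeff_X, hk]
  · rw [mul_zero]
    refine Finset.sum_eq_zero fun k hk => ?_
    rw [MvPowerSeries.coeff_X, if_neg, zero_mul]
    rintro rfl
    rw [mem_degSet] at hk
    simp [Finsupp.single_apply] at hk
    omega

/-- the slice of a polynomial, as a polynomial -/
noncomputable def polySlice (ζ : σ → ℂ) (P : MvPolynomial σ ℂ) : Polynomial ℂ :=
  MvPolynomial.aeval (fun j => Polynomial.C (ζ j) * Polynomial.X) P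

theorem slice_poly (ζ : σ → ℂ) (P : MvPolynomial σ ℂ) :
    slice ζ (P : MvPowerSeries σ ℂ) = (polySlice ζ P : PowerSeries ℂ) := by
  have h : (sliceHom ζ).comp (MvPolynomial.coeToMvPowerSeries.ringHom) =
      (Polynomial.coeToPowerSeries.ringHom).comp
        (MvPolynomial.aeval (fun j => Polynomial.C (ζ j) * Polynomial.X) :
          MvPolynomial σ ℂ →ₐ[ℂ] Polynomial ℂ).toRingHom := by
    refine MvPolynomial.ringHom_ext (fun a => ?_) (fun s => ?_)
    · simp [sliceHom, slice_C]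
    · simp [sliceHom, slice_X]
  exact congrArg (fun f => f P) h

omit [Fintype σ] [DecidableEq σ] in
theorem eval_polySlice (ζ : σ → ℂ) (P : MvPolynomial σ ℂ) (x : ℂ) :
    (polySlice ζ P).eval x = MvPolynomial.eval (fun j => x * ζ j) P := by
  have h : (Polynomial.evalRingHom x).comp
        (MvPolynomial.aeval (fun j => Polynomial.C (ζ j) * Polynomial.X) :
          MvPolynomial σ ℂ →ₐ[ℂ] Polynomial ℂ).toRingHom =
      MvPolynomial.eval (fun j => x * ζ j) := by
    refine MvPolynomial.ringHom_ext (fun a => ?_) (fun s => ?_)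
    · simp
    · simp only [RingHom.comp_apply, AlgHom.toRingHom_eq_coe, RingHom.coe_coe,
        MvPolynomial.aeval_X, Polynomial.coe_evalRingHom, Polynomial.eval_mul, Polynomial.eval_C,
        Polynomial.eval_X, MvPolynomial.eval_X]
      ring
  exact congrArg (fun f => f P) h

/-- the roots of unity -/
noncomputable def ru (M : ℕ) (a : ℕ) : ℂ := Complex.exp (2 * Real.pi * Complex.I * (a / M : ℝ))

theorem norm_ru (M a : ℕ) : ‖ru M a‖ = 1 := by
  rw [ru, Complex.norm_exp]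
  simp

theorem ru_sum {M : ℕ} (hM : 0 < M) {k l : ℕ} (hk : k < M) (hl : l < M) :
    ∑ a : Fin M, ru M a ^ k * (starRingEnd ℂ) (ru M a ^ l) = if k = l then (M : ℂ) else 0 := by
  set ω : ℂ := Complex.exp (2 * Real.pi * Complex.I / M) with hω
  have hprim : IsPrimitiveRoot ω M := Complex.isPrimitiveRoot_exp M hM.ne'
  have h1 : ∀ a : ℕ, ru M a = ω ^ a := by
    intro a
    rw [ru, hω, ← Complex.exp_nat_mul]
    congr 1
    push_cast
    ring
  have hnorm : ‖ω‖ = 1 := by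
    have := norm_ru M 1
    rwa [h1, pow_one] at this
  have hconj : (starRingEnd ℂ) ω = ω⁻¹ := by
    rw [Complex.inv_def, Complex.normSq_eq_norm_sq, hnorm]
    simp
  have hω0 : ω ≠ 0 := by
    intro h
    rw [h, norm_zero] at hnorm
    exact zero_ne_one hnorm
  have h2 : ∀ a : Fin M, ru M a ^ k * (starRingEnd ℂ) (ru M a ^ l) = (ω ^ k * (ω ^ l)⁻¹) ^ (a : ℕ) := by
    intro a
    rw [h1, map_pow, map_pow, hconj, mul_pow, ← pow_mul, ← pow_mul, inv_pow, inv_pow,
      ← pow_mul, ← pow_mul, mul_comm k, mul_comm l]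
  simp_rw [h2]
  rw [Fin.sum_univ_eq_sum_range (fun a => (ω ^ k * (ω ^ l)⁻¹) ^ a) M]
  split_ifs with h
  · subst h
    rw [mul_inv_cancel₀ (pow_ne_zero _ hω0)]
    simp
  · have hne : ω ^ k * (ω ^ l)⁻¹ ≠ 1 := by
      intro hcon
      rw [mul_inv_eq_one₀ (pow_ne_zero _ hω0)] at hcon
      exact h (hprim.pow_inj hk hl hcon)
    rw [geom_sum_eq hne, mul_pow, inv_pow, ← pow_mul, ← pow_mul, mul_comm k, mul_comm l, pow_mul,
      pow_mul, hprim.pow_eq_one]
    simp

theorem parseval {M : ℕ} (hM : 0 < M) (S : Finset (σ →₀ ℕ)) (hS : ∀ k ∈ S, ∀ j, k j < M)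
    (c : (σ →₀ ℕ) → ℂ) :
    ∑ a : σ → Fin M, ‖∑ k ∈ S, c k * ∏ j, ru M (a j) ^ k j‖ ^ 2 =
      (M : ℝ) ^ Fintype.card σ * ∑ k ∈ S, ‖c k‖ ^ 2 := by
  have h1 : ∀ z : ℂ, ((‖z‖ ^ 2 : ℝ) : ℂ) = z * (starRingEnd ℂ) z := by
    intro z
    rw [Complex.mul_conj, Complex.normSq_eq_norm_sq]
  have h2 : ((∑ a : σ → Fin M, ‖∑ k ∈ S, c k * ∏ j, ru M (a j) ^ k j‖ ^ 2 : ℝ) : ℂ) =
      (((M : ℝ) ^ Fintype.card σ * ∑ k ∈ S, ‖c k‖ ^ 2 : ℝ) : ℂ) := by
    have h4 : ∀ k ∈ S, ∀ l ∈ S, ∑ a : σ → Fin M, (c k * ∏ j, ru M (a j) ^ k j) *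
          ((starRingEnd ℂ) (c l) * ∏ j, (starRingEnd ℂ) (ru M (a j) ^ l j)) =
          if k = l then (M : ℂ) ^ Fintype.card σ * (c k * (starRingEnd ℂ) (c k)) else 0 := by
      intro k hk l hl
      have h3 : ∀ a : σ → Fin M, (c k * ∏ j, ru M (a j) ^ k j) *
          ((starRingEnd ℂ) (c l) * ∏ j, (starRingEnd ℂ) (ru M (a j) ^ l j)) =
          (c k * (starRingEnd ℂ) (c l)) *
            ∏ j, (ru M (a j) ^ k j * (starRingEnd ℂ) (ru M (a j) ^ l j)) := by
        intro a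
        rw [Finset.prod_mul_distrib]
        ring
      simp_rw [h3]
      rw [← Finset.mul_sum]
      have h5 := (Finset.prod_univ_sum (fun _ : σ => (univ : Finset (Fin M)))
        (fun j b => ru M b ^ k j * (starRingEnd ℂ) (ru M b ^ l j))).symm
      rw [Fintype.piFinset_univ] at h5
      rw [h5]
      have h6 : ∀ j : σ, ∑ b : Fin M, ru M b ^ k j * (starRingEnd ℂ) (ru M b ^ l j) =
          if k j = l j then (M : ℂ) else 0 := fun j => ru_sum hM (hS k hk j) (hS l hl j)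
      simp_rw [h6]
      split_ifs with h
      · subst h
        simp
        ring
      · have : ∃ j, k j ≠ l j := by
          by_contra hcon
          push Not at hcon
          exact h (Finsupp.ext hcon)
        obtain ⟨j, hj⟩ := this
        rw [Finset.prod_eq_zero (Finset.mem_univ j) (by rw [if_neg hj]), mul_zero]
    rw [Complex.ofReal_sum]
    simp_rw [h1, map_sum, map_mul, Finset.sum_mul_sum, map_prod]
    rw [Finset.sum_comm]
    rw [Complex.ofReal_mul, Complex.ofReal_sum, Finset.mul_sum]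
    refine Finset.sum_congr rfl fun k hk => ?_
    rw [Finset.sum_comm, h1, Finset.sum_congr rfl (fun l hl => h4 k hk l hl)]
    rw [Finset.sum_ite_eq, if_pos hk]
    push_cast
    ring
  exact_mod_cast h2

/-- Dirichlet bounds on the slices give a bound in several variables. -/
theorem sum_le_of_slices {G : MvPowerSeries σ ℂ} {B : ℝ}
    (hG : ∀ ζ : σ → ℂ, (∀ j, ‖ζ j‖ = 1) → BdD (slice ζ G) B) (T : Finset (σ →₀ ℕ)) :
    ∑ k ∈ T, (((∑ j, k j : ℕ) : ℝ) + 1) * ‖MvPowerSeries.coeff k G‖ ^ 2 ≤ B := by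
  classical
  -- all exponents in `T` have total degree less than `L`
  obtain ⟨L, hL⟩ : ∃ L : ℕ, ∀ k ∈ T, ∑ j, k j < L := by
    refine ⟨(T.sup fun k => ∑ j, k j) + 1, fun k hk => Nat.lt_succ_of_le ?_⟩
    exact Finset.le_sup (f := fun k : σ →₀ ℕ => ∑ j, k j) hk
  rcases Nat.eq_zero_or_pos L with h0 | hLpos
  · have hT : T = ∅ := by
      refine Finset.eq_empty_of_forall_notMem fun k hk => ?_
      have := hL k hk
      omega
    subst hT
    simpa using (hG (fun _ => 1) (by simp)).nonneg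
  have h1 : ∑ k ∈ T, (((∑ j, k j : ℕ) : ℝ) + 1) * ‖MvPowerSeries.coeff k G‖ ^ 2 ≤
      ∑ n ∈ range L, ∑ k ∈ degSet n, ((n : ℝ) + 1) * ‖MvPowerSeries.coeff k G‖ ^ 2 := by
    have hdisj : ((range L : Finset ℕ) : Set ℕ).PairwiseDisjoint
        (fun n => (degSet n : Finset (σ →₀ ℕ))) := by
      intro a _ b _ hab
      rw [Function.onFun, Finset.disjoint_left]
      intro k hka hkb
      rw [mem_degSet] at hka hkb
      exact hab (hka.symm.trans hkb)
    have hsub : T ⊆ (range L).biUnion (fun n => (degSet n : Finset (σ →₀ ℕ))) := by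
      intro k hk
      rw [Finset.mem_biUnion]
      exact ⟨∑ j, k j, Finset.mem_range.mpr (hL k hk), mem_degSet.mpr rfl⟩
    have h2 : ∑ n ∈ range L, ∑ k ∈ degSet n, ((n : ℝ) + 1) * ‖MvPowerSeries.coeff k G‖ ^ 2 =
        ∑ k ∈ (range L).biUnion (fun n => (degSet n : Finset (σ →₀ ℕ))),
          (((∑ j, k j : ℕ) : ℝ) + 1) * ‖MvPowerSeries.coeff k G‖ ^ 2 := by
      rw [Finset.sum_biUnion hdisj]
      refine Finset.sum_congr rfl fun n _ => Finset.sum_congr rfl fun k hk => ?_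
      rw [mem_degSet.mp hk]
    rw [h2]
    exact Finset.sum_le_sum_of_subset_of_nonneg hsub fun k _ _ => by positivity
  refine h1.trans ?_
  have hpow : (0:ℝ) < (L : ℝ) ^ Fintype.card σ := by positivity
  have h3 : (L : ℝ) ^ Fintype.card σ *
      ∑ n ∈ range L, ∑ k ∈ degSet n, ((n : ℝ) + 1) * ‖MvPowerSeries.coeff k G‖ ^ 2 =
      ∑ a : σ → Fin L, ∑ n ∈ range L, ((n : ℝ) + 1) *
        ‖PowerSeries.coeff n (slice (fun j => ru L (a j)) G)‖ ^ 2 := by
    rw [Finset.sum_comm, Finset.mul_sum]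
    refine Finset.sum_congr rfl fun n hn => ?_
    rw [← Finset.mul_sum, ← Finset.mul_sum]
    simp_rw [coeff_slice]
    rw [parseval hLpos (degSet n)]
    · ring
    · intro k hk j
      rw [mem_degSet] at hk
      have h5 : k j ≤ ∑ j, k j := Finset.single_le_sum (f := fun j => k j) (fun _ _ => Nat.zero_le _)
        (Finset.mem_univ j)
      have := Finset.mem_range.mp hn
      omega
  have h4 : ∑ a : σ → Fin L, ∑ n ∈ range L, ((n : ℝ) + 1) *
        ‖PowerSeries.coeff n (slice (fun j => ru L (a j)) G)‖ ^ 2 ≤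
      (L : ℝ) ^ Fintype.card σ * B := by
    calc _ ≤ ∑ a : σ → Fin L, B :=
          Finset.sum_le_sum fun a _ => hG (fun j => ru L (a j)) (fun j => norm_ru _ _) L
      _ = _ := by simp
  rw [← h3] at h4
  exact le_of_mul_le_mul_left h4 hpow

end Pool.Agent.J6H91.Cyc
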