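import Pool.Agent.J6H91.Cyc.Hilbert
import Pool.Agent.J6H91.Cyc.Slice

/-!
# Zero-free polynomials are cyclic in `D_t` for `t ≤ 1 / |σ|`
-/

set_option autoImplicit false

open MvPolynomial Filter Topology

namespace Pool.Agent.J6H91.Cyc

/-- A polynomial without zeros in the open disc is `p(0) ∏ (1 - b X)` with `|b| ≤ 1`. -/
theorem exists_factor (p : Polynomial ℂ) (hp : ∀ x : ℂ, ‖x‖ < 1 → p.eval x ≠ 0) :
    ∃ s : Multiset ℂ, Multiset.card s ≤ p.natDegree ∧ (∀ b ∈ s, ‖b‖ ≤ 1) ∧
      p = Polynomial.C (p.eval 0) * (s.map fun b => 1 - Polynomial.C b * Polynomial.X).prod := by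
  have hsplit := (IsAlgClosed.splits p).eq_prod_roots
  have hroot : ∀ a ∈ p.roots, 1 ≤ ‖a‖ := by
    intro a ha
    by_contra hcon
    push Not at hcon
    exact hp a hcon (Polynomial.isRoot_of_mem_roots ha)
  refine ⟨p.roots.map fun a => a⁻¹, ?_, ?_, ?_⟩
  · rw [Multiset.card_map]
    exact Polynomial.card_roots' p
  · intro b hb
    rw [Multiset.mem_map] at hb
    obtain ⟨a, ha, rfl⟩ := hb
    rw [norm_inv]
    exact inv_le_one_of_one_le₀ (hroot a ha)
  · have key : ∀ s : Multiset ℂ, (∀ a ∈ s, a ≠ 0) →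
        (s.map fun a => Polynomial.X - Polynomial.C a).prod =
          Polynomial.C (s.map fun a => -a).prod *
          ((s.map fun a => a⁻¹).map fun b => 1 - Polynomial.C b * Polynomial.X).prod := by
      intro s hs
      induction s using Multiset.induction_on with
      | empty => simp
      | cons a s ih =>
        have ha : a ≠ 0 := hs a (Multiset.mem_cons_self _ _)
        simp only [Multiset.map_cons, Multiset.prod_cons]
        rw [ih fun b hb => hs b (Multiset.mem_cons_of_mem hb)]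
        have : Polynomial.X - Polynomial.C a =
            Polynomial.C (-a) * (1 - Polynomial.C a⁻¹ * Polynomial.X) := by
          rw [mul_sub, mul_one, ← mul_assoc, ← Polynomial.C_mul, neg_mul, mul_inv_cancel₀ ha]
          simp
          ring
        rw [this, Polynomial.C_mul]
        ring
    have hne : ∀ a ∈ p.roots, a ≠ 0 := by
      intro a ha h0
      have := hroot a ha
      rw [h0, norm_zero] at this
      linarith
    have h2 := key p.roots hne
    have h3 : p = Polynomial.C (p.leadingCoeff * (p.roots.map fun a => -a).prod) *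
        ((p.roots.map fun a => a⁻¹).map fun b => 1 - Polynomial.C b * Polynomial.X).prod := by
      conv_lhs => rw [hsplit, h2]
      rw [Polynomial.C_mul]
      ring
    have h4 : p.eval 0 = p.leadingCoeff * (p.roots.map fun a => -a).prod := by
      conv_lhs => rw [h3]
      rw [Polynomial.eval_mul, Polynomial.eval_C, Polynomial.eval_multiset_prod]
      simp
    rw [h4]
    exact h3

variable {σ : Type} [Fintype σ] [DecidableEq σ]

theorem slice_rescale (ζ : σ → ℂ) (r : ℂ) (G : MvPowerSeries σ ℂ) :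
    slice ζ (MvPowerSeries.rescale (fun _ => r) G) = PowerSeries.rescale r (slice ζ G) := by
  ext n
  rw [PowerSeries.coeff_rescale, coeff_slice, coeff_slice, Finset.mul_sum]
  refine Finset.sum_congr rfl fun k hk => ?_
  rw [MvPowerSeries.coeff_rescale, Finsupp.prod_fintype _ _ (by simp),
    Finset.prod_pow_eq_pow_sum, mem_degSet.mp hk]
  ring

theorem coe_prod_factors (s : Multiset ℂ) :
    (((s.map fun b => 1 - Polynomial.C b * Polynomial.X).prod : Polynomial ℂ) : PowerSeries ℂ) =
      (s.map fun b => 1 - PowerSeries.C b * PowerSeries.X).prod := by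
  induction s using Multiset.induction_on with
  | empty => simp
  | cons a s ih =>
    simp only [Multiset.map_cons, Multiset.prod_cons]
    rw [Polynomial.coe_mul, ih]
    simp

theorem rescale_prod_factors (r : ℂ) (s : Multiset ℂ) :
    PowerSeries.rescale r (s.map fun b => 1 - PowerSeries.C b * PowerSeries.X).prod =
      (s.map fun b => 1 - PowerSeries.C (r * b) * PowerSeries.X).prod := by
  rw [map_multiset_prod, Multiset.map_map]
  congr 1
  refine Multiset.map_congr rfl fun b _ => ?_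
  simp only [Function.comp_apply, map_sub, map_one, map_mul, PowerSeries.rescale_X]
  rw [show PowerSeries.rescale r (PowerSeries.C b) = PowerSeries.C b by
    ext n; rw [PowerSeries.coeff_rescale, PowerSeries.coeff_C]; split_ifs with h <;> simp [h]]
  ring

theorem prod_geo_mul (r : ℂ) (s : Multiset ℂ) :
    (s.map fun b => geo (r * b)).prod *
      (s.map fun b => 1 - PowerSeries.C (r * b) * PowerSeries.X).prod = 1 := by
  rw [← Multiset.prod_map_mul]
  simp only [geo_mul, Multiset.map_const', Multiset.prod_replicate, one_pow]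

theorem prod_fac_eq (r : ℝ) (s : Multiset ℂ) :
    (s.map fun b => fac b r).prod =
      (s.map fun b => 1 - PowerSeries.C b * PowerSeries.X).prod *
      (s.map fun b => geo (r * b)).prod := by
  rw [← Multiset.prod_map_mul]
  rfl

/-- the inverse series of `P(r z)` -/
noncomputable def invR (P : MvPolynomial σ ℂ) (r : ℝ) : MvPowerSeries σ ℂ :=
  MvPowerSeries.rescale (fun _ => (r : ℂ)) ((P : MvPowerSeries σ ℂ)⁻¹)

theorem constantCoeff_ne {P : MvPolynomial σ ℂ} (hP : ZeroFree P) :
    MvPowerSeries.constantCoeff (P : MvPowerSeries σ ℂ) ≠ 0 := by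
  have h := hP (fun _ => 0) (by simp)
  rw [show (fun _ : σ => (0:ℂ)) = 0 from rfl, MvPolynomial.eval_zero] at h
  rw [← MvPowerSeries.coeff_zero_eq_constantCoeff_apply, MvPolynomial.coeff_coe]
  exact h

/-- slices of the inverse series and of the quotient `P(z) / P(r z)` -/
theorem slices {P : MvPolynomial σ ℂ} (hP : ZeroFree P) (ζ : σ → ℂ) (hζ : ∀ j, ‖ζ j‖ = 1) :
    ∃ s : Multiset ℂ, Multiset.card s ≤ P.totalDegree ∧ (∀ b ∈ s, ‖b‖ ≤ 1) ∧ ∀ r : ℝ,
      slice ζ (invR P r) = PowerSeries.C (P.coeff 0)⁻¹ * (s.map fun b => geo (r * b)).prod ∧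
      slice ζ ((P : MvPowerSeries σ ℂ) * invR P r) = (s.map fun b => fac b r).prod := by
  have h0 : P.coeff 0 ≠ 0 := by
    have := constantCoeff_ne hP
    rwa [← MvPowerSeries.coeff_zero_eq_constantCoeff_apply, MvPolynomial.coeff_coe] at this
  have hp : ∀ x : ℂ, ‖x‖ < 1 → (polySlice ζ P).eval x ≠ 0 := by
    intro x hx
    rw [eval_polySlice]
    refine hP _ fun j => ?_
    rw [norm_mul, hζ, mul_one]
    exact hx
  obtain ⟨s, hs1, hs2, hs3⟩ := exists_factor _ hp
  have he0 : (polySlice ζ P).eval 0 = P.coeff 0 := by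
    rw [eval_polySlice]
    simp only [zero_mul]
    rw [show (fun _ : σ => (0:ℂ)) = 0 from rfl, MvPolynomial.eval_zero]
    rfl
  rw [he0] at hs3
  have hdeg : (polySlice ζ P).natDegree ≤ P.totalDegree := by
    have := MvPolynomial.aeval_natDegree_le (m := P.totalDegree) (n := 1) P le_rfl
      (fun j => Polynomial.C (ζ j) * Polynomial.X)
      (fun j => (Polynomial.natDegree_C_mul_le _ _).trans Polynomial.natDegree_X_le)
    rw [mul_one] at this
    exact this
  have hsl : slice ζ (P : MvPowerSeries σ ℂ) = PowerSeries.C (P.coeff 0) *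
      (s.map fun b => 1 - PowerSeries.C b * PowerSeries.X).prod := by
    rw [slice_poly, hs3, Polynomial.coe_mul, coe_prod_factors, Polynomial.coe_C]
  have hinv : ∀ r : ℝ, slice ζ (invR P r) =
      PowerSeries.C (P.coeff 0)⁻¹ * (s.map fun b => geo (r * b)).prod := by
    intro r
    have h1 : (P : MvPowerSeries σ ℂ) * (P : MvPowerSeries σ ℂ)⁻¹ = 1 :=
      MvPowerSeries.mul_inv_cancel _ (constantCoeff_ne hP)
    have h2 := congrArg (fun G => slice ζ (MvPowerSeries.rescale (fun _ => (r : ℂ)) G)) h1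
    simp only [map_mul, map_one, slice_mul, slice_one] at h2
    rw [slice_rescale, hsl, map_mul, rescale_prod_factors] at h2
    have h3 : PowerSeries.rescale (r : ℂ) (PowerSeries.C (P.coeff 0)) =
        PowerSeries.C (P.coeff 0) := by
      ext n
      rw [PowerSeries.coeff_rescale, PowerSeries.coeff_C]
      split_ifs with h <;> simp [h]
    rw [h3] at h2
    have h4 := prod_geo_mul (r : ℂ) s
    have h5 : PowerSeries.C (P.coeff 0)⁻¹ * PowerSeries.C (P.coeff 0) = 1 := by
      rw [← map_mul, inv_mul_cancel₀ h0, map_one]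
    change slice ζ (MvPowerSeries.rescale (fun _ => (r : ℂ)) ((P : MvPowerSeries σ ℂ)⁻¹)) = _
    set A := slice ζ (MvPowerSeries.rescale (fun _ => (r : ℂ)) ((P : MvPowerSeries σ ℂ)⁻¹))
    set Q := (s.map fun b : ℂ => 1 - PowerSeries.C ((r : ℂ) * b) * PowerSeries.X).prod
    set K := (s.map fun b : ℂ => geo ((r : ℂ) * b)).prod
    calc A = (PowerSeries.C (P.coeff 0)⁻¹ * PowerSeries.C (P.coeff 0)) * (K * Q) * A := by
          rw [h5, h4]; ring
      _ = PowerSeries.C (P.coeff 0)⁻¹ * K * (PowerSeries.C (P.coeff 0) * Q * A) := by ring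
      _ = _ := by rw [h2, mul_one]
  refine ⟨s, hs1.trans hdeg, hs2, fun r => ⟨hinv r, ?_⟩⟩
  rw [slice_mul, hinv, hsl, prod_fac_eq]
  have h5 : PowerSeries.C (P.coeff 0) * PowerSeries.C (P.coeff 0)⁻¹ = 1 := by
    rw [← map_mul, mul_inv_cancel₀ h0, map_one]
  calc _ = (PowerSeries.C (P.coeff 0) * PowerSeries.C (P.coeff 0)⁻¹) *
        ((s.map fun b => 1 - PowerSeries.C b * PowerSeries.X).prod *
        (s.map fun b => geo (r * b)).prod) := by ring
    _ = _ := by rw [h5, one_mul]

/-- the weight of `D_t`, `t ≤ 1 / |σ|`, is at most the radial weight -/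
theorem weight_le {t : ℝ} (ht : t * Fintype.card σ ≤ 1) (k : σ →₀ ℕ) :
    weight t k ≤ ((∑ j, k j : ℕ) : ℝ) + 1 := by
  unfold weight
  rcases isEmpty_or_nonempty σ with hσ | hσ
  · simp
  have hcard : (0:ℝ) < Fintype.card σ := by exact_mod_cast Fintype.card_pos
  have h1 : ∏ j, ((k j : ℝ) + 1) ^ t ≤ ∏ j, ((k j : ℝ) + 1) ^ ((Fintype.card σ : ℝ)⁻¹) := by
    refine Finset.prod_le_prod (fun j _ => by positivity) fun j _ => ?_
    refine Real.rpow_le_rpow_of_exponent_le (by simp) ?_
    rw [← one_div, le_div_iff₀ hcard]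
    exact ht
  refine h1.trans ?_
  have h3 := Real.geom_mean_le_arith_mean_weighted (Finset.univ : Finset σ)
    (fun _ => (Fintype.card σ : ℝ)⁻¹) (fun j => (k j : ℝ) + 1) (fun _ _ => by positivity)
    (by simp [hcard.ne']) (fun _ _ => by positivity)
  refine h3.trans ?_
  rw [← Finset.mul_sum, Finset.sum_add_distrib]
  simp only [Finset.sum_const, Finset.card_univ, nsmul_eq_mul, mul_one]
  push_cast
  have h4 : (0:ℝ) ≤ ∑ j, (k j : ℝ) := Finset.sum_nonneg fun _ _ => Nat.cast_nonneg _
  have h5 : (1:ℝ) ≤ Fintype.card σ := by exact_mod_cast Fintype.card_pos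
  rw [mul_add, inv_mul_cancel₀ hcard.ne']
  have h6 : (Fintype.card σ : ℝ)⁻¹ ≤ 1 := inv_le_one_of_one_le₀ h5
  nlinarith

theorem memD_of_slices {t : ℝ} (ht : t * Fintype.card σ ≤ 1) {G : MvPowerSeries σ ℂ} {B : ℝ}
    (hG : ∀ ζ : σ → ℂ, (∀ j, ‖ζ j‖ = 1) → BdD (slice ζ G) B) :
    MemD t (fun k => MvPowerSeries.coeff k G) ∧ normSq t (fun k => MvPowerSeries.coeff k G) ≤ B := by
  have h1 : ∀ T : Finset (σ →₀ ℕ), ∑ k ∈ T, weight t k * ‖MvPowerSeries.coeff k G‖ ^ 2 ≤ B := by
    intro T
    refine le_trans ?_ (sum_le_of_slices hG T)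
    exact Finset.sum_le_sum fun k _ => mul_le_mul_of_nonneg_right (weight_le ht k) (by positivity)
  have h2 : MemD t (fun k => MvPowerSeries.coeff k G) :=
    summable_of_sum_le (fun k => by have := weight_nonneg t k; positivity) h1
  exact ⟨h2, Real.tsum_le_of_sum_le (fun k => by have := weight_nonneg t k; positivity) h1⟩

/-- **Theorem.** A polynomial without zeros in the open polydisc is cyclic in `D_t` for
`t ≤ 1 / |σ|`. -/
theorem approxOne_of_zeroFree {t : ℝ} (ht : t * Fintype.card σ ≤ 1) {P : MvPolynomial σ ℂ}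
    (hP : ZeroFree P) : ApproxOne t P := by
  set r : ℕ → ℝ := fun n => 1 - 1 / ((n : ℝ) + 2) with hr
  have hr0 : ∀ n, 0 ≤ r n := by
    intro n
    rw [hr]
    simp only
    rw [sub_nonneg, div_le_one (by positivity)]
    have : (0:ℝ) ≤ n := Nat.cast_nonneg n
    linarith
  have hr1 : ∀ n, r n < 1 := by
    intro n
    rw [hr]
    simp only
    have : 0 < 1 / ((n : ℝ) + 2) := by positivity
    linarith
  have hrlim : Tendsto r atTop (𝓝 1) := by
    have h1 : Tendsto (fun n : ℕ => 1 / ((n : ℝ) + 2)) atTop (𝓝 0) := by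
      have := tendsto_one_div_add_atTop_nhds_zero_nat (𝕜 := ℝ)
      have h2 := (tendsto_add_atTop_iff_nat 1).mpr this
      refine h2.congr fun n => ?_
      push_cast
      ring_nf
    have := h1.const_sub 1
    rw [sub_zero] at this
    exact this
  have hslice : ∀ n, ∀ ζ : σ → ℂ, (∀ j, ‖ζ j‖ = 1) →
      BdD (slice ζ ((P : MvPowerSeries σ ℂ) * invR P (r n))) (14 ^ P.totalDegree) := by
    intro n ζ hζ
    obtain ⟨s, hs1, hs2, hs3⟩ := slices hP ζ hζ
    rw [(hs3 (r n)).2]
    refine (bd_prod_fac (hr0 n) (hr1 n) s hs2).2.mono ?_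
    exact pow_le_pow_right₀ (by norm_num) hs1
  have hinv : ∀ n, MemD t (fun k => MvPowerSeries.coeff k (invR P (r n))) := by
    intro n
    obtain ⟨A, B, hAB⟩ := bd_prod_geo (hr0 n) (hr1 n) P.totalDegree
    refine (memD_of_slices ht (B := ‖(P.coeff 0)⁻¹‖ ^ 2 * B) fun ζ hζ => ?_).1
    obtain ⟨s, hs1, hs2, hs3⟩ := slices hP ζ hζ
    rw [(hs3 (r n)).1]
    intro L
    have := (hAB s hs1 hs2).2 L
    calc ∑ n_1 ∈ Finset.range L, ((n_1 : ℝ) + 1) * ‖PowerSeries.coeff n_1
          (PowerSeries.C (P.coeff 0)⁻¹ * (s.map fun b => geo (r n * b)).prod)‖ ^ 2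
        = ‖(P.coeff 0)⁻¹‖ ^ 2 * ∑ n_1 ∈ Finset.range L, ((n_1 : ℝ) + 1) *
          ‖PowerSeries.coeff n_1 ((s.map fun b => geo (r n * b)).prod)‖ ^ 2 := by
          rw [Finset.mul_sum]
          refine Finset.sum_congr rfl fun m _ => ?_
          rw [PowerSeries.coeff_C_mul, norm_mul, mul_pow]
          ring
      _ ≤ _ := mul_le_mul_of_nonneg_left this (by positivity)
  refine approxOne_of_weak
    (fun n k => MvPowerSeries.coeff k ((P : MvPowerSeries σ ℂ) * invR P (r n)))
    (fun n => (memD_of_slices ht (hslice n)).1) (14 ^ P.totalDegree)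
    (fun n => (memD_of_slices ht (hslice n)).2) ?_ ?_
  · intro k
    have h1 : (P : MvPowerSeries σ ℂ) * (P : MvPowerSeries σ ℂ)⁻¹ = 1 :=
      MvPowerSeries.mul_inv_cancel _ (constantCoeff_ne hP)
    have h2 : ((1 : MvPolynomial σ ℂ).coeff k) =
        MvPowerSeries.coeff k ((P : MvPowerSeries σ ℂ) * (P : MvPowerSeries σ ℂ)⁻¹) := by
      rw [h1, ← MvPolynomial.coeff_coe, MvPolynomial.coe_one]
    rw [h2]
    simp_rw [MvPowerSeries.coeff_mul]
    refine tendsto_finsetSum _ fun p _ => ?_
    refine Tendsto.const_mul _ ?_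
    have h3 : ∀ n, MvPowerSeries.coeff p.2 (invR P (r n)) =
        ((r n : ℂ)) ^ (∑ j, p.2 j) * MvPowerSeries.coeff p.2 ((P : MvPowerSeries σ ℂ)⁻¹) := by
      intro n
      rw [invR, MvPowerSeries.coeff_rescale, Finsupp.prod_fintype _ _ (by simp),
        Finset.prod_pow_eq_pow_sum]
    simp_rw [h3]
    have h4 : Tendsto (fun n => ((r n : ℂ))) atTop (𝓝 1) := by
      have := (Complex.continuous_ofReal.tendsto 1).comp hrlim
      rw [Complex.ofReal_one] at this
      exact this
    have h5 := (h4.pow (∑ j, p.2 j)).mul_const (MvPowerSeries.coeff p.2 ((P : MvPowerSeries σ ℂ)⁻¹))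
    simpa using h5
  · intro n ε hε
    obtain ⟨C, hC, hC2⟩ := exists_series_mul_bound t P
    obtain ⟨q, hq⟩ := exists_truncation t (hinv n) (ε := ε / C) (by positivity)
    refine ⟨q, ?_⟩
    have h1 := hC2 (invR P (r n) - (q : MvPowerSeries σ ℂ)) (by
      have := (hinv n).sub (memD_coeff t q)
      refine this.congr fun k => ?_
      simp only [map_sub, MvPolynomial.coeff_coe])
    have h2 : (fun k => MvPowerSeries.coeff k ((P : MvPowerSeries σ ℂ) * invR P (r n)) -
        (q * P).coeff k) = fun k => MvPowerSeries.coeff k ((P : MvPowerSeries σ ℂ) *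
        (invR P (r n) - (q : MvPowerSeries σ ℂ))) := by
      funext k
      rw [mul_sub, map_sub, ← MvPolynomial.coe_mul, MvPolynomial.coeff_coe, mul_comm P q]
    rw [h2]
    refine lt_of_le_of_lt h1.2 ?_
    have h3 : normSq t (fun k => MvPowerSeries.coeff k (invR P (r n) - (q : MvPowerSeries σ ℂ))) =
        normSq t (fun k => MvPowerSeries.coeff k (invR P (r n)) - q.coeff k) := by
      simp only [map_sub, MvPolynomial.coeff_coe]
    rw [h3]
    calc _ < C * (ε / C) := mul_lt_mul_of_pos_left hq hC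
      _ = ε := by field_simp

end Pool.Agent.J6H91.Cyc
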