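import Pool.Agent.J6H91.Cyc.Main1

/-!
# Fewer variables, factors, point evaluations, the diagonal functional
-/

set_option autoImplicit false
set_option linter.unusedSectionVars false

open MvPolynomial Filter Topology

namespace Pool.Agent.J6H91.Cyc

/-! ### Renaming of variables -/

section Rename

variable {σ τ : Type} [Fintype σ] [Fintype τ]

theorem weight_mapDomain (t : ℝ) (e : τ → σ) (he : Function.Injective e) (k : τ →₀ ℕ) :
    weight t (k.mapDomain e) = weight t k := by
  classical
  unfold weight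
  have h1 : ∀ j : τ, k.mapDomain e (e j) = k j := fun j => Finsupp.mapDomain_apply he k j
  have h2 : ∀ i : σ, i ∉ Set.range e → k.mapDomain e i = 0 := fun i hi =>
    Finsupp.mapDomain_of_notMem_range k i hi
  rw [← Finset.prod_subset (Finset.subset_univ (Finset.univ.image e))]
  · rw [Finset.prod_image (fun a _ b _ h => he h)]
    simp_rw [h1]
  · intro i _ hi
    rw [h2 i (by simpa using hi)]
    simp

theorem normSq_rename (t : ℝ) (e : τ → σ) (he : Function.Injective e) (f : MvPolynomial τ ℂ) :
    normSq t (fun k => (rename e f).coeff k) = normSq t (fun k => f.coeff k) := by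
  unfold normSq
  have hinj : Function.Injective (Finsupp.mapDomain e : (τ →₀ ℕ) → (σ →₀ ℕ)) :=
    Finsupp.mapDomain_injective he
  have hsupp : Function.support (fun k => weight t k * ‖(rename e f).coeff k‖ ^ 2) ⊆
      Set.range (Finsupp.mapDomain e : (τ →₀ ℕ) → (σ →₀ ℕ)) := by
    intro k hk
    by_contra hcon
    apply hk
    have h0 : (MvPolynomial.rename e f).coeff k = 0 :=
      MvPolynomial.coeff_rename_eq_zero _ _ _ fun u hu => absurd ⟨u, hu⟩ hcon
    simp [h0]
  rw [← hinj.tsum_eq hsupp]
  refine tsum_congr fun k => ?_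
  rw [weight_mapDomain t e he, MvPolynomial.coeff_rename_mapDomain e he]

theorem ApproxOne.rename {t : ℝ} {e : τ → σ} (he : Function.Injective e) {Q : MvPolynomial τ ℂ}
    (h : ApproxOne t Q) : ApproxOne t (MvPolynomial.rename e Q) := by
  intro ε hε
  obtain ⟨q, hq⟩ := h ε hε
  refine ⟨MvPolynomial.rename e q, ?_⟩
  rw [← map_mul, ← map_one (MvPolynomial.rename e), ← map_sub, normSq_rename t e he]
  exact hq

theorem ZeroFree.of_rename {e : τ → σ} (he : Function.Injective e) {Q : MvPolynomial τ ℂ}
    (h : ZeroFree (MvPolynomial.rename e Q)) : ZeroFree Q := by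
  classical
  intro z hz h0
  refine h (Function.extend e z 0) (fun j => ?_) ?_
  · by_cases hj : ∃ i, e i = j
    · obtain ⟨i, rfl⟩ := hj
      rw [he.extend_apply]
      exact hz i
    · rw [Function.extend_apply' _ _ _ hj]
      simp
  · rw [MvPolynomial.eval_rename]
    have : Function.extend e z 0 ∘ e = z := by
      funext i
      exact he.extend_apply z 0 i
    rw [this]
    exact h0

theorem ZeroFree.rename {e : τ → σ} {Q : MvPolynomial τ ℂ} (h : ZeroFree Q) :
    ZeroFree (MvPolynomial.rename e Q) := by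
  intro z hz h0
  rw [MvPolynomial.eval_rename] at h0
  exact h (z ∘ e) (fun j => hz (e j)) h0

end Rename

variable {σ : Type} [Fintype σ]

/-- A zero-free polynomial depending on at most `k` variables is cyclic for `t k ≤ 1`. -/
theorem approxOne_of_vars {t : ℝ} {F : MvPolynomial σ ℂ} (ht : t * F.vars.card ≤ 1)
    (hF : ZeroFree F) : ApproxOne t F := by
  classical
  obtain ⟨Q, hQ⟩ := MvPolynomial.exists_rename_eq_of_vars_subset_range F
    (Subtype.val : F.vars → σ) Subtype.val_injective (by simp)
  rw [← hQ] at hF ⊢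
  refine ApproxOne.rename Subtype.val_injective (approxOne_of_zeroFree ?_
    (ZeroFree.of_rename Subtype.val_injective hF))
  rw [Fintype.card_coe]
  exact ht

theorem ZeroFree.of_dvd {P Q : MvPolynomial σ ℂ} (h : ZeroFree Q) (hd : P ∣ Q) : ZeroFree P := by
  obtain ⟨R, rfl⟩ := hd
  intro z hz h0
  exact h z hz (by rw [map_mul, h0, zero_mul])

/-- cyclicity of a product from its irreducible factors -/
theorem approxOne_of_factors {t : ℝ} {P : MvPolynomial σ ℂ} (hP : P ≠ 0)
    (h : ∀ F : MvPolynomial σ ℂ, Irreducible F → F ∣ P → ApproxOne t F) : ApproxOne t P := by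
  induction P using WfDvdMonoid.induction_on_irreducible with
  | zero => exact absurd rfl hP
  | unit u hu =>
    obtain ⟨a, ha, rfl⟩ := MvPolynomial.isUnit_iff_eq_C_of_isReduced.mp hu
    exact approxOne_C ha.ne_zero
  | mul a i ha hi ih =>
    refine ApproxOne.mul (h i hi (dvd_mul_right i a)) (ih ha fun F hF hFa => h F hF ?_)
    exact Dvd.dvd.mul_left hFa i

/-! ### Functionals -/

theorem functional_eq_sum {φ : (σ →₀ ℕ) → ℂ} {f : MvPolynomial σ ℂ} {S : Finset (σ →₀ ℕ)}
    (hS : f.support ⊆ S) : functional φ f = ∑ k ∈ S, f.coeff k * φ k := by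
  unfold functional
  refine Finset.sum_subset hS fun k _ hk => ?_
  rw [MvPolynomial.notMem_support_iff.mp hk, zero_mul]

theorem functional_add (φ : (σ →₀ ℕ) → ℂ) (f g : MvPolynomial σ ℂ) :
    functional φ (f + g) = functional φ f + functional φ g := by
  classical
  have h1 := functional_eq_sum (φ := φ) (MvPolynomial.support_add (p := f) (q := g))
  rw [h1, functional_eq_sum (φ := φ) (Finset.subset_union_left (s₁ := f.support) (s₂ := g.support)),
    functional_eq_sum (φ := φ) (Finset.subset_union_right (s₁ := f.support) (s₂ := g.support)),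
    ← Finset.sum_add_distrib]
  refine Finset.sum_congr rfl fun k _ => ?_
  rw [MvPolynomial.coeff_add, add_mul]

theorem functional_monomial (φ : (σ →₀ ℕ) → ℂ) (k : σ →₀ ℕ) (x : ℂ) :
    functional φ (monomial k x) = x * φ k := by
  classical
  rw [functional_eq_sum (φ := φ) (S := {k}) (by
    intro m hm
    exact MvPolynomial.support_monomial_subset hm)]
  simp

theorem functional_neg (φ : (σ →₀ ℕ) → ℂ) (f : MvPolynomial σ ℂ) :
    functional φ (-f) = - functional φ f := by
  have h := functional_add φ f (-f)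
  rw [add_neg_cancel] at h
  have h0 : functional φ (0 : MvPolynomial σ ℂ) = 0 := by simp [functional]
  rw [h0] at h
  exact (neg_eq_of_add_eq_zero_right h.symm).symm

theorem functional_sub (φ : (σ →₀ ℕ) → ℂ) (f g : MvPolynomial σ ℂ) :
    functional φ (f - g) = functional φ f - functional φ g := by
  rw [sub_eq_add_neg, functional_add, functional_neg, sub_eq_add_neg]

/-- nonnegative product sequences are summable if the factors are -/
theorem summable_prod_of_nonneg (a : σ → ℕ → ℝ) (ha0 : ∀ j n, 0 ≤ a j n)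
    (ha : ∀ j, Summable (a j)) : Summable fun k : σ →₀ ℕ => ∏ j, a j (k j) := by
  classical
  refine summable_of_sum_le (c := ∏ j, ∑' n, a j n) (fun k => Finset.prod_nonneg fun j _ => ha0 _ _)
    fun T => ?_
  obtain ⟨L, hL⟩ : ∃ L : ℕ, ∀ k ∈ T, ∀ j, k j < L := by
    refine ⟨(T.sup fun k => ∑ j, k j) + 1, fun k hk j => Nat.lt_succ_of_le ?_⟩
    refine le_trans ?_ (Finset.le_sup (f := fun k : σ →₀ ℕ => ∑ j, k j) hk)
    exact Finset.single_le_sum (f := fun j => k j) (fun _ _ => Nat.zero_le _) (Finset.mem_univ j)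
  have h1 : ∑ k ∈ T, ∏ j, a j (k j) ≤
      ∑ k ∈ Fintype.piFinset (fun _ : σ => Finset.range L), ∏ j, a j (k j) := by
    have h2 : ∑ k ∈ T, ∏ j, a j (k j) =
        ∑ k ∈ T.image (fun k : σ →₀ ℕ => (k : σ → ℕ)), ∏ j, a j (k j) := by
      rw [Finset.sum_image (fun a _ b _ h => DFunLike.coe_injective h)]
    rw [h2]
    refine Finset.sum_le_sum_of_subset_of_nonneg ?_ fun k _ _ =>
      Finset.prod_nonneg fun j _ => ha0 _ _
    intro k hk
    rw [Finset.mem_image] at hk
    obtain ⟨k', hk', rfl⟩ := hk
    rw [Fintype.mem_piFinset]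
    intro j
    exact Finset.mem_range.mpr (hL k' hk' j)
  refine h1.trans ?_
  rw [← Finset.prod_univ_sum]
  exact Finset.prod_le_prod (fun j _ => Finset.sum_nonneg fun n _ => ha0 _ _) fun j _ =>
    (ha j).sum_le_tsum _ fun n _ => ha0 _ _

theorem summable_rpow_mul_geometric (t x : ℝ) (hx0 : 0 ≤ x) (hx1 : x < 1) :
    Summable fun n : ℕ => (((n : ℝ) + 1) ^ t)⁻¹ * x ^ n := by
  obtain ⟨m, hm⟩ := exists_nat_ge (-t)
  have h1 : Summable fun n : ℕ => ((n : ℝ) + 1) ^ m * x ^ n := by
    have h2 : Summable fun n : ℕ => ((n : ℝ)) ^ m * x ^ n :=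
      summable_pow_mul_geometric_of_norm_lt_one m (by rwa [Real.norm_of_nonneg hx0])
    rcases hx0.eq_or_lt with h0 | hpos
    · subst h0
      refine summable_of_ne_finset_zero (s := {0}) fun n hn => ?_
      rw [zero_pow (by simpa using hn), mul_zero]
    · have h3 := ((summable_nat_add_iff 1).mpr h2).mul_left x⁻¹
      refine h3.congr fun n => ?_
      push_cast
      rw [pow_succ]
      field_simp
  refine Summable.of_nonneg_of_le (fun n => by positivity) (fun n => ?_) h1
  refine mul_le_mul_of_nonneg_right ?_ (by positivity)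
  rw [← Real.rpow_neg (by positivity), ← Real.rpow_natCast]
  exact Real.rpow_le_rpow_of_exponent_le (by simp) hm

/-- A polynomial with a zero in the open polydisc is not cyclic. -/
theorem not_approxOne_of_zero {t : ℝ} {P : MvPolynomial σ ℂ} {z : σ → ℂ} (hz : ∀ j, ‖z j‖ < 1)
    (h0 : eval z P = 0) : ¬ ApproxOne t P := by
  have hfun : ∀ f : MvPolynomial σ ℂ, functional (fun k => ∏ j, z j ^ k j) f = eval z f := by
    intro f
    rw [MvPolynomial.eval_eq']
    rfl
  refine not_approxOne_of_functional (φ := fun k => ∏ j, z j ^ k j) ?_ ?_ ?_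
  · have h1 := summable_prod_of_nonneg (σ := σ)
      (fun j n => (((n : ℝ) + 1) ^ t)⁻¹ * (‖z j‖ ^ 2) ^ n) (fun j n => by positivity)
      (fun j => summable_rpow_mul_geometric t _ (by positivity) (by
        have := hz j
        have := norm_nonneg (z j)
        nlinarith))
    refine h1.congr fun k => ?_
    rw [Finset.prod_mul_distrib, weight, Finset.prod_inv_distrib, norm_prod, ← Finset.prod_pow]
    congr 1
    refine Finset.prod_congr rfl fun j _ => ?_
    rw [norm_pow, ← pow_mul, ← pow_mul, mul_comm]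
  · intro q
    rw [hfun, hfun, map_sub, map_mul, h0, mul_zero, sub_zero]
  · rw [hfun, map_one]
    exact one_ne_zero

/-! ### The product of the variables -/

/-- the exponent of `∏_{j ∈ J} z_j` -/
noncomputable def indJ (J : Finset σ) : σ →₀ ℕ := ∑ j ∈ J, Finsupp.single j 1

theorem indJ_apply [DecidableEq σ] (J : Finset σ) (i : σ) : indJ J i = if i ∈ J then 1 else 0 := by
  unfold indJ
  rw [Finsupp.finsetSum_apply]
  simp [Finsupp.single_apply]

/-- the polynomial `1 - ∏_{j ∈ J} z_j` -/
noncomputable def oneSub (J : Finset σ) : MvPolynomial σ ℂ := 1 - monomial (indJ J) 1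

open Classical in
/-- the coefficients of the functional `f ↦ Σ_n f_{n, …, n}` -/
noncomputable def diagφ (J : Finset σ) (k : σ →₀ ℕ) : ℂ := if ∃ n : ℕ, k = n • indJ J then 1 else 0

theorem diagφ_add (J : Finset σ) (hJ : J.Nonempty) (k : σ →₀ ℕ) :
    diagφ J (k + indJ J) = diagφ J k := by
  classical
  unfold diagφ
  congr 1
  rw [eq_iff_iff]
  constructor
  · rintro ⟨n, hn⟩
    obtain ⟨j, hj⟩ := hJ
    cases n with
    | zero =>
      have := DFunLike.congr_fun hn j
      simp [indJ_apply, hj] at this
    | succ n =>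
      refine ⟨n, ?_⟩
      rw [succ_nsmul] at hn
      exact add_right_cancel hn
  · rintro ⟨n, hn⟩
    exact ⟨n + 1, by rw [hn, succ_nsmul]⟩

theorem functional_diag_mul (J : Finset σ) (hJ : J.Nonempty) (q : MvPolynomial σ ℂ) :
    functional (diagφ J) (q * oneSub J) = 0 := by
  have hmon : ∀ (a : σ →₀ ℕ) (b : ℂ), functional (diagφ J) (monomial a b * oneSub J) = 0 := by
    intro a b
    unfold oneSub
    rw [mul_sub, mul_one, functional_sub, MvPolynomial.monomial_mul, mul_one, functional_monomial,
      functional_monomial, diagφ_add J hJ, sub_self]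
  induction q using MvPolynomial.monomial_add_induction_on with
  | C a => exact hmon 0 a
  | monomial_add a b f _ _ ih =>
    rw [add_mul, functional_add, hmon, ih, add_zero]

theorem nsmul_indJ_injective (J : Finset σ) (hJ : J.Nonempty) :
    Function.Injective fun n : ℕ => n • indJ J := by
  classical
  intro a b hab
  obtain ⟨j, hj⟩ := hJ
  have := DFunLike.congr_fun hab j
  simpa [indJ_apply, hj] using this

theorem weight_nsmul_indJ (t : ℝ) (J : Finset σ) (n : ℕ) :
    weight t (n • indJ J) = ((n : ℝ) + 1) ^ (t * J.card) := by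
  classical
  unfold weight
  have h1 : ∀ j : σ, (((n • indJ J) j : ℕ) : ℝ) = if j ∈ J then (n : ℝ) else 0 := by
    intro j
    rw [Finsupp.smul_apply, indJ_apply]
    split_ifs <;> simp
  simp_rw [h1]
  rw [← Finset.prod_subset (Finset.subset_univ J)]
  · rw [Finset.prod_congr rfl (g := fun _ => ((n : ℝ) + 1) ^ t)]
    · rw [Finset.prod_const, ← Real.rpow_natCast, ← Real.rpow_mul (by positivity)]
    · intro j hj
      rw [if_pos hj]
  · intro j _ hj
    rw [if_neg hj]
    simp

/-- `1 - ∏_{j ∈ J} z_j` is not cyclic for `t |J| > 1`. -/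
theorem not_approxOne_oneSub {t : ℝ} {J : Finset σ} (hJ : J.Nonempty) (ht : 1 < t * J.card) :
    ¬ ApproxOne t (oneSub J) := by
  classical
  have hsupp : Function.support (fun k : σ →₀ ℕ => (weight t k)⁻¹ * ‖diagφ J k‖ ^ 2) ⊆
      Set.range fun n : ℕ => n • indJ J := by
    intro k hk
    by_contra hcon
    apply hk
    have : diagφ J k = 0 := by
      unfold diagφ
      rw [if_neg]
      rintro ⟨n, rfl⟩
      exact hcon ⟨n, rfl⟩
    simp [this]
  refine not_approxOne_of_functional (φ := diagφ J) ?_ ?_ ?_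
  · rw [← (nsmul_indJ_injective J hJ).summable_iff (fun k hk => by
      by_contra hcon
      exact hk (hsupp hcon))]
    have h1 : ∀ n : ℕ, ((fun k : σ →₀ ℕ => (weight t k)⁻¹ * ‖diagφ J k‖ ^ 2) ∘
        fun n : ℕ => n • indJ J) n = (((n + 1 : ℕ) : ℝ) ^ (t * J.card))⁻¹ := by
      intro n
      have h2 : diagφ J (n • indJ J) = 1 := by
        unfold diagφ
        rw [if_pos ⟨n, rfl⟩]
      simp only [Function.comp_apply, h2, weight_nsmul_indJ]
      simp
    refine Summable.congr ?_ fun n => (h1 n).symm
    exact (summable_nat_add_iff 1).mpr (Real.summable_nat_rpow_inv.mpr ht)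
  · intro q
    rw [functional_sub, functional_diag_mul J hJ, sub_zero]
  · have : (1 : MvPolynomial σ ℂ) = monomial 0 1 := rfl
    rw [this, functional_monomial]
    unfold diagφ
    rw [if_pos ⟨0, by simp⟩]
    simp

theorem zeroFree_oneSub {J : Finset σ} (hJ : J.Nonempty) : ZeroFree (oneSub J) := by
  classical
  intro z hz h0
  unfold oneSub at h0
  rw [map_sub, map_one, MvPolynomial.eval_monomial, one_mul, sub_eq_zero] at h0
  have h1 : ‖(indJ J).prod fun n e => z n ^ e‖ < 1 := by
    rw [Finsupp.prod_fintype _ _ (by simp)]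
    have h2 : ∀ j : σ, z j ^ (indJ J j) = if j ∈ J then z j else 1 := by
      intro j
      rw [indJ_apply]
      split_ifs <;> simp
    simp_rw [h2]
    rw [Finset.prod_ite_mem, Finset.univ_inter, norm_prod]
    obtain ⟨j, hj⟩ := hJ
    rw [← Finset.mul_prod_erase J _ hj]
    have h3 : ∏ i ∈ J.erase j, ‖z i‖ ≤ 1 := Finset.prod_le_one (fun _ _ => norm_nonneg _)
      fun i _ => (hz i).le
    have h4 : 0 ≤ ∏ i ∈ J.erase j, ‖z i‖ := Finset.prod_nonneg fun _ _ => norm_nonneg _
    have h5 := hz j
    have h6 := norm_nonneg (z j)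
    nlinarith
  rw [← h0, norm_one] at h1
  exact lt_irrefl _ h1

theorem vars_subset_of_dvd {F P : MvPolynomial σ ℂ} (hP : P ≠ 0) (hd : F ∣ P) :
    F.vars ⊆ P.vars := by
  obtain ⟨R, rfl⟩ := hd
  intro i hi
  rw [MvPolynomial.mem_vars_iff_degreeOf_ne_zero] at hi ⊢
  rw [MvPolynomial.degreeOf_mul_eq (left_ne_zero_of_mul hP) (right_ne_zero_of_mul hP)]
  omega

theorem vars_oneSub_subset (J : Finset σ) : (oneSub J).vars ⊆ J := by
  classical
  unfold oneSub
  refine (MvPolynomial.vars_sub_subset _).trans ?_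
  rw [MvPolynomial.vars_one, Finset.empty_union, MvPolynomial.vars_monomial one_ne_zero]
  intro i hi
  rw [Finsupp.mem_support_iff, indJ_apply] at hi
  by_contra hcon
  rw [if_neg hcon] at hi
  exact hi rfl

theorem oneSub_ne_zero {J : Finset σ} (hJ : J.Nonempty) : oneSub J ≠ 0 := by
  intro h
  have := zeroFree_oneSub hJ (fun _ => 0) (by simp)
  rw [h, map_zero] at this
  exact this rfl

/-- **Theorem.** Let `1 ≤ k ≤ d`. For the polynomials all of whose irreducible factors depend on at
most `k` variables, shift-cyclicity in `D_t(𝔻^d)` is equivalent to the absence of zeros in the open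
polydisc if and only if `t ≤ 1 / k`. -/
theorem main1 (d k : ℕ) (hk : 1 ≤ k) (hkd : k ≤ d) (t : ℝ) :
    t ≤ 1 / k ↔ ∀ P : MvPolynomial (Fin d) ℂ,
      (∀ F : MvPolynomial (Fin d) ℂ, Irreducible F → F ∣ P → F.vars.card ≤ k) →
      (ShiftCyclic t P ↔ ZeroFree P) := by
  have hk0 : (0:ℝ) < k := by exact_mod_cast hk
  constructor
  · intro ht P hP
    rw [shiftCyclic_iff]
    constructor
    · intro h z hz h0
      exact not_approxOne_of_zero hz h0 h
    · intro hz
      have hP0 : P ≠ 0 := by
        intro h0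
        have := hz (fun _ => 0) (by simp)
        rw [h0, map_zero] at this
        exact this rfl
      refine approxOne_of_factors hP0 fun F hF hFP => approxOne_of_vars ?_ (hz.of_dvd hFP)
      have h1 : (F.vars.card : ℝ) ≤ k := by exact_mod_cast hP F hF hFP
      have h2 : (0:ℝ) ≤ F.vars.card := Nat.cast_nonneg _
      rw [le_div_iff₀ hk0] at ht
      rcases le_total 0 t with h3 | h3
      · exact (mul_le_mul_of_nonneg_left h1 h3).trans ht
      · have := mul_nonpos_of_nonpos_of_nonneg h3 h2
        linarith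
  · intro h
    by_contra hcon
    push Not at hcon
    obtain ⟨J, -, hJcard⟩ := Finset.exists_subset_card_eq (s := (Finset.univ : Finset (Fin d)))
      (n := k) (by simpa using hkd)
    have hJ : J.Nonempty := by
      rw [← Finset.card_pos, hJcard]
      exact hk
    have h1 := (h (oneSub J) (fun F _ hFP => by
      rw [← hJcard]
      exact Finset.card_le_card ((vars_subset_of_dvd (oneSub_ne_zero hJ) hFP).trans
        (vars_oneSub_subset J)))).mpr (zeroFree_oneSub hJ)
    rw [shiftCyclic_iff] at h1
    refine not_approxOne_oneSub hJ ?_ h1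
    rw [hJcard]
    rw [div_lt_iff₀ hk0] at hcon
    exact hcon

end Pool.Agent.J6H91.Cyc
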