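import Pool.Agent.J6H91.Cyc.Dominated
import Pool.Agent.J6H91.Cyc.Diverge

/-!
# Classification of the products of polynomials with dominant constant term
-/

set_option autoImplicit false
set_option linter.unusedSectionVars false

open MvPolynomial

namespace Pool.Agent.J6H91.Cyc

variable {σ : Type} [Fintype σ] [DecidableEq σ]

/-- the monoid of the exponents in the group generated by the exponents of `P` -/
def exponentMonoid (P : MvPolynomial σ ℂ) : AddSubmonoid (σ →₀ ℕ) where
  carrier := {k | InExponentGroup P k}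
  zero_mem' := by
    change InExponentGroup P 0
    unfold InExponentGroup
    rw [toZ_zero]
    exact zero_mem _
  add_mem' := by
    intro a b ha hb
    change InExponentGroup P (a + b)
    unfold InExponentGroup
    rw [toZ_add]
    exact add_mem ha hb

theorem mem_exponentMonoid {P : MvPolynomial σ ℂ} {k : σ →₀ ℕ} :
    k ∈ exponentMonoid P ↔ InExponentGroup P k := Iff.rfl

theorem exponentMonoid_subtractive (P : MvPolynomial σ ℂ) :
    ∀ x ∈ exponentMonoid P, ∀ y, x + y ∈ exponentMonoid P → y ∈ exponentMonoid P := by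
  intro x hx y hxy
  rw [mem_exponentMonoid] at *
  unfold InExponentGroup at *
  rw [toZ_add] at hxy
  exact (AddSubgroup.add_mem_cancel_left _ hx).mp hxy

theorem Dominated.exists_ne_zero {P : MvPolynomial σ ℂ} (hP : Dominated P) {z : σ → ℂ}
    (h0 : eval z P = 0) : ∃ k ∈ P.support, k ≠ 0 := by
  by_contra hcon
  push Not at hcon
  have hc := hP.coeff_zero_ne
  apply hc
  rw [eval_eq_split] at h0
  have h1 : P.support \ {0} = ∅ := by
    ext k
    simp only [Finset.mem_sdiff, Finset.mem_singleton, Finset.notMem_empty, iff_false, not_and,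
      not_not]
    exact hcon k
  rw [h1, Finset.sum_empty, add_zero] at h0
  exact h0

theorem dominated_cyclic_iff {P : MvPolynomial σ ℂ} (hP : Dominated P) (t : ℝ) :
    ApproxOne t P ↔ (∀ z : σ → ℂ, (∀ j, ‖z j‖ = 1) → eval z P ≠ 0) ∨
      ∃ J : Finset σ, J.Nonempty ∧ t * J.card ≤ rankIn {k | InExponentGroup P k} J := by
  rw [dominated_iff hP]
  by_cases hz : ∀ z : σ → ℂ, (∀ j, ‖z j‖ = 1) → eval z P ≠ 0
  · exact iff_of_true (Or.inl hz) (Or.inl hz)
  · have hz' := hz
    push Not at hz'
    obtain ⟨ζ, hζ, h0⟩ := hz'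
    obtain ⟨x, hx, hx0⟩ := hP.exists_ne_zero h0
    have hx' : x ∈ exponentMonoid P := by
      rw [mem_exponentMonoid]
      exact AddSubgroup.subset_closure ⟨x, hx, rfl⟩
    have h1 := summable_iff_rank (exponentMonoid_subtractive P) hx' hx0 t
    rw [or_iff_right hz, or_iff_right hz]
    refine Iff.trans ?_ h1
    rw [not_iff_not]
    simp only [weight_neg]
    rfl

theorem approxOne_list_prod {t : ℝ} (l : List (MvPolynomial σ ℂ)) :
    ApproxOne t l.prod ↔ ∀ P ∈ l, ApproxOne t P := by
  constructor
  · intro h P hP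
    exact h.of_dvd (List.dvd_prod hP)
  · intro h
    induction l with
    | nil =>
      rw [List.prod_nil]
      have := approxOne_C (σ := σ) (t := t) (a := 1) one_ne_zero
      rwa [C_1] at this
    | cons Q l ih =>
      rw [List.prod_cons]
      exact (h Q (by simp)).mul (ih fun P hP => h P (by simp [hP]))

theorem dominated_prod_iff (t : ℝ) (l : List (MvPolynomial σ ℂ)) (hl : ∀ P ∈ l, Dominated P) :
    ShiftCyclic t l.prod ↔ ∀ P ∈ l, (∀ z : σ → ℂ, (∀ j, ‖z j‖ = 1) → eval z P ≠ 0) ∨
      ∃ J : Finset σ, J.Nonempty ∧ t * J.card ≤ rankIn {k | InExponentGroup P k} J := by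
  rw [shiftCyclic_iff, approxOne_list_prod]
  refine forall_congr' fun P => ?_
  constructor
  · intro h hP
    exact (dominated_cyclic_iff (hl P hP) t).mp (h hP)
  · intro h hP
    exact (dominated_cyclic_iff (hl P hP) t).mpr (h hP)

end Pool.Agent.J6H91.Cyc
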