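import Mathlib

/-!
# Bounds for products of one variable power series

`BdL1 G A`: the sum of the absolute values of the coefficients of `G` is at most `A`.
`BdD G B`: the Dirichlet norm satisfies `Σ (n+1) |G_n|² ≤ B`.
-/

set_option autoImplicit false

open PowerSeries Finset

namespace Pool.Agent.J6H91.Cyc

/-- `Σ |G_n| ≤ A` -/
def BdL1 (G : PowerSeries ℂ) (A : ℝ) : Prop := ∀ L : ℕ, ∑ n ∈ range L, ‖coeff n G‖ ≤ A

/-- `Σ (n+1) |G_n|² ≤ B` -/
def BdD (G : PowerSeries ℂ) (B : ℝ) : Prop := ∀ L : ℕ, ∑ n ∈ range L, ((n : ℝ) + 1) * ‖coeff n G‖ ^ 2 ≤ B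

theorem BdL1.nonneg {G : PowerSeries ℂ} {A : ℝ} (h : BdL1 G A) : 0 ≤ A := by simpa using h 0

theorem BdD.nonneg {G : PowerSeries ℂ} {A : ℝ} (h : BdD G A) : 0 ≤ A := by simpa using h 0

theorem BdL1.mono {G : PowerSeries ℂ} {A B : ℝ} (h : BdL1 G A) (hAB : A ≤ B) : BdL1 G B :=
  fun L => (h L).trans hAB

theorem BdD.mono {G : PowerSeries ℂ} {A B : ℝ} (h : BdD G A) (hAB : A ≤ B) : BdD G B :=
  fun L => (h L).trans hAB

/-- a double sum over `i + j < L` of nonnegative terms is at most the sum over the square -/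
theorem sum_antidiagonal_le (u : ℕ → ℕ → ℝ) (hu : ∀ i j, 0 ≤ u i j) (L : ℕ) :
    ∑ n ∈ range L, ∑ p ∈ antidiagonal n, u p.1 p.2 ≤ ∑ i ∈ range L, ∑ j ∈ range L, u i j := by
  simp_rw [Finset.Nat.sum_antidiagonal_eq_sum_range_succ u]
  rw [Finset.sum_range_diag_flip]
  refine Finset.sum_le_sum fun i _ => ?_
  refine Finset.sum_le_sum_of_subset_of_nonneg (fun j hj => ?_) fun j _ _ => hu i j
  simp only [mem_range] at hj ⊢
  omega

/-- Young's inequality for finite convolutions -/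
theorem young (u v : ℕ → ℝ) (_hu : ∀ i, 0 ≤ u i) (hv : ∀ i, 0 ≤ v i) (L : ℕ) {U V : ℝ}
    (hU : ∑ i ∈ range L, u i ^ 2 ≤ U) (hV : ∑ i ∈ range L, v i ≤ V) :
    ∑ n ∈ range L, (∑ p ∈ antidiagonal n, u p.1 * v p.2) ^ 2 ≤ U * V ^ 2 := by
  have hV0 : 0 ≤ V := (Finset.sum_nonneg fun i _ => hv i).trans hV
  have hU0 : 0 ≤ U := (Finset.sum_nonneg fun i _ => sq_nonneg _).trans hU
  have h1 : ∀ n ∈ range L, (∑ p ∈ antidiagonal n, u p.1 * v p.2) ^ 2 ≤
      (∑ p ∈ antidiagonal n, u p.1 ^ 2 * v p.2) * V := by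
    intro n hn
    have h2 := Finset.sum_mul_sq_le_sq_mul_sq (antidiagonal n)
      (fun p => u p.1 * Real.sqrt (v p.2)) (fun p => Real.sqrt (v p.2))
    have h3 : ∀ p : ℕ × ℕ, u p.1 * Real.sqrt (v p.2) * Real.sqrt (v p.2) = u p.1 * v p.2 := by
      intro p
      rw [mul_assoc, Real.mul_self_sqrt (hv _)]
    have h4 : ∀ p : ℕ × ℕ, (u p.1 * Real.sqrt (v p.2)) ^ 2 = u p.1 ^ 2 * v p.2 := by
      intro p
      rw [mul_pow, Real.sq_sqrt (hv _)]
    have h5 : ∀ p : ℕ × ℕ, (Real.sqrt (v p.2)) ^ 2 = v p.2 := fun p => Real.sq_sqrt (hv _)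
    simp_rw [h3, h4, h5] at h2
    refine h2.trans (mul_le_mul_of_nonneg_left ?_ (Finset.sum_nonneg fun p _ =>
      mul_nonneg (sq_nonneg _) (hv _)))
    have h6 : ∑ p ∈ antidiagonal n, v p.2 = ∑ i ∈ range (n + 1), v i := by
      rw [Finset.Nat.sum_antidiagonal_eq_sum_range_succ (fun _ j => v j)]
      exact Finset.sum_range_reflect (fun j => v j) (n + 1) ▸ by
        refine Finset.sum_congr rfl fun j hj => ?_
        congr 1
    rw [h6]
    refine le_trans ?_ hV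
    refine Finset.sum_le_sum_of_subset_of_nonneg (fun j hj => ?_) fun j _ _ => hv j
    simp only [mem_range] at hj hn ⊢
    omega
  calc ∑ n ∈ range L, (∑ p ∈ antidiagonal n, u p.1 * v p.2) ^ 2
      ≤ ∑ n ∈ range L, (∑ p ∈ antidiagonal n, u p.1 ^ 2 * v p.2) * V := Finset.sum_le_sum h1
    _ = (∑ n ∈ range L, ∑ p ∈ antidiagonal n, u p.1 ^ 2 * v p.2) * V := by rw [Finset.sum_mul]
    _ ≤ (∑ i ∈ range L, ∑ j ∈ range L, u i ^ 2 * v j) * V :=
        mul_le_mul_of_nonneg_right (sum_antidiagonal_le (fun i j => u i ^ 2 * v j)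
          (fun i j => mul_nonneg (sq_nonneg _) (hv _)) L) hV0
    _ = ((∑ i ∈ range L, u i ^ 2) * (∑ j ∈ range L, v j)) * V := by
        rw [Finset.sum_mul_sum]
    _ ≤ (U * V) * V := by
        refine mul_le_mul_of_nonneg_right ?_ hV0
        exact mul_le_mul hU hV (Finset.sum_nonneg fun i _ => hv i) hU0
    _ = U * V ^ 2 := by ring

theorem BdL1.mul {F G : PowerSeries ℂ} {A B : ℝ} (hF : BdL1 F A) (hG : BdL1 G B) :
    BdL1 (F * G) (A * B) := by
  intro L
  calc ∑ n ∈ range L, ‖coeff n (F * G)‖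
      ≤ ∑ n ∈ range L, ∑ p ∈ antidiagonal n, ‖coeff p.1 F‖ * ‖coeff p.2 G‖ := by
        refine Finset.sum_le_sum fun n _ => ?_
        rw [PowerSeries.coeff_mul]
        refine (norm_sum_le _ _).trans (Finset.sum_le_sum fun p _ => ?_)
        rw [norm_mul]
    _ ≤ ∑ i ∈ range L, ∑ j ∈ range L, ‖coeff i F‖ * ‖coeff j G‖ :=
        sum_antidiagonal_le (fun i j => ‖coeff i F‖ * ‖coeff j G‖) (fun i j => by positivity) L
    _ = (∑ i ∈ range L, ‖coeff i F‖) * (∑ j ∈ range L, ‖coeff j G‖) := by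
        rw [Finset.sum_mul_sum]
    _ ≤ A * B := mul_le_mul (hF L) (hG L) (Finset.sum_nonneg fun _ _ => norm_nonneg _) hF.nonneg

theorem BdD.mul {F G : PowerSeries ℂ} {A B a b : ℝ} (hF : BdL1 F A) (hG : BdL1 G B)
    (hF2 : BdD F a) (hG2 : BdD G b) : BdD (F * G) (2 * (a * B ^ 2 + b * A ^ 2)) := by
  intro L
  set u : ℕ → ℝ := fun n => Real.sqrt ((n : ℝ) + 1) * ‖coeff n F‖ with hu
  set v : ℕ → ℝ := fun n => Real.sqrt ((n : ℝ) + 1) * ‖coeff n G‖ with hv
  have hu2 : ∀ n, u n ^ 2 = ((n : ℝ) + 1) * ‖coeff n F‖ ^ 2 := by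
    intro n
    rw [hu]
    simp only
    rw [mul_pow, Real.sq_sqrt (by positivity)]
  have hv2 : ∀ n, v n ^ 2 = ((n : ℝ) + 1) * ‖coeff n G‖ ^ 2 := by
    intro n
    rw [hv]
    simp only
    rw [mul_pow, Real.sq_sqrt (by positivity)]
  have hy1 := young u (fun n => ‖coeff n G‖) (fun n => by positivity) (fun n => norm_nonneg _) L
    (U := a) (V := B) (by simp_rw [hu2]; exact hF2 L) (hG L)
  have hy2 := young v (fun n => ‖coeff n F‖) (fun n => by positivity) (fun n => norm_nonneg _) L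
    (U := b) (V := A) (by simp_rw [hv2]; exact hG2 L) (hF L)
  have key : ∀ n : ℕ, ((n : ℝ) + 1) * ‖coeff n (F * G)‖ ^ 2 ≤
      2 * (∑ p ∈ antidiagonal n, u p.1 * ‖coeff p.2 G‖) ^ 2 +
      2 * (∑ p ∈ antidiagonal n, v p.1 * ‖coeff p.2 F‖) ^ 2 := by
    intro n
    have h1 : Real.sqrt ((n : ℝ) + 1) * ‖coeff n (F * G)‖ ≤
        (∑ p ∈ antidiagonal n, u p.1 * ‖coeff p.2 G‖) +
        (∑ p ∈ antidiagonal n, v p.1 * ‖coeff p.2 F‖) := by
      have hswap : ∑ p ∈ antidiagonal n, v p.1 * ‖coeff p.2 F‖ =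
          ∑ p ∈ antidiagonal n, v p.2 * ‖coeff p.1 F‖ :=
        Finset.Nat.sum_antidiagonal_swap (f := fun p => v p.1 * ‖coeff p.2 F‖) |>.symm
      rw [hswap, ← Finset.sum_add_distrib, PowerSeries.coeff_mul]
      calc Real.sqrt ((n : ℝ) + 1) * ‖∑ p ∈ antidiagonal n, coeff p.1 F * coeff p.2 G‖
          ≤ Real.sqrt ((n : ℝ) + 1) * ∑ p ∈ antidiagonal n, ‖coeff p.1 F‖ * ‖coeff p.2 G‖ := by
            refine mul_le_mul_of_nonneg_left ?_ (Real.sqrt_nonneg _)
            refine (norm_sum_le _ _).trans (Finset.sum_le_sum fun p _ => ?_)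
            rw [norm_mul]
        _ = ∑ p ∈ antidiagonal n, Real.sqrt ((n : ℝ) + 1) * (‖coeff p.1 F‖ * ‖coeff p.2 G‖) := by
            rw [Finset.mul_sum]
        _ ≤ _ := by
            refine Finset.sum_le_sum fun p hp => ?_
            have hp' : p.1 + p.2 = n := Finset.HasAntidiagonal.mem_antidiagonal.mp hp
            have hs : Real.sqrt ((n : ℝ) + 1) ≤
                Real.sqrt ((p.1 : ℝ) + 1) + Real.sqrt ((p.2 : ℝ) + 1) := by
              rw [← hp']
              push_cast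
              rw [Real.sqrt_le_left (by positivity), add_sq, Real.sq_sqrt (by positivity),
                Real.sq_sqrt (by positivity)]
              have : 0 ≤ 2 * Real.sqrt ((p.1 : ℝ) + 1) * Real.sqrt ((p.2 : ℝ) + 1) := by positivity
              linarith
            rw [hu, hv]
            simp only
            calc Real.sqrt ((n : ℝ) + 1) * (‖coeff p.1 F‖ * ‖coeff p.2 G‖)
                ≤ (Real.sqrt ((p.1 : ℝ) + 1) + Real.sqrt ((p.2 : ℝ) + 1)) *
                  (‖coeff p.1 F‖ * ‖coeff p.2 G‖) :=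
                  mul_le_mul_of_nonneg_right hs (by positivity)
              _ = _ := by ring
    have h2 : (Real.sqrt ((n : ℝ) + 1) * ‖coeff n (F * G)‖) ^ 2 =
        ((n : ℝ) + 1) * ‖coeff n (F * G)‖ ^ 2 := by
      rw [mul_pow, Real.sq_sqrt (by positivity)]
    rw [← h2]
    set x := ∑ p ∈ antidiagonal n, u p.1 * ‖coeff p.2 G‖
    set y := ∑ p ∈ antidiagonal n, v p.1 * ‖coeff p.2 F‖
    calc (Real.sqrt ((n : ℝ) + 1) * ‖coeff n (F * G)‖) ^ 2 ≤ (x + y) ^ 2 :=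
          pow_le_pow_left₀ (by positivity) h1 2
      _ ≤ _ := by nlinarith [sq_nonneg (x - y)]
  calc ∑ n ∈ range L, ((n : ℝ) + 1) * ‖coeff n (F * G)‖ ^ 2
      ≤ ∑ n ∈ range L, (2 * (∑ p ∈ antidiagonal n, u p.1 * ‖coeff p.2 G‖) ^ 2 +
      2 * (∑ p ∈ antidiagonal n, v p.1 * ‖coeff p.2 F‖) ^ 2) :=
        Finset.sum_le_sum fun n _ => key n
    _ = 2 * (∑ n ∈ range L, (∑ p ∈ antidiagonal n, u p.1 * ‖coeff p.2 G‖) ^ 2) +
        2 * (∑ n ∈ range L, (∑ p ∈ antidiagonal n, v p.1 * ‖coeff p.2 F‖) ^ 2) := by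
        rw [Finset.sum_add_distrib, Finset.mul_sum, Finset.mul_sum]
    _ ≤ 2 * (a * B ^ 2) + 2 * (b * A ^ 2) := by linarith
    _ = _ := by ring

theorem bdL1_one : BdL1 1 1 := by
  intro L
  simp only [PowerSeries.coeff_one]
  cases L with
  | zero => simp
  | succ L =>
    rw [Finset.sum_eq_single_of_mem 0 (by simp)]
    · simp
    · intro b _ hb
      simp [hb]

theorem bdD_one : BdD 1 1 := by
  intro L
  simp only [PowerSeries.coeff_one]
  cases L with
  | zero => simp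
  | succ L =>
    rw [Finset.sum_eq_single_of_mem 0 (by simp)]
    · simp
    · intro b _ hb
      simp [hb]

/-- the geometric series `1 / (1 - x X)` -/
noncomputable def geo (x : ℂ) : PowerSeries ℂ := PowerSeries.mk fun n => x ^ n

theorem geo_mul (x : ℂ) : geo x * (1 - C x * X) = 1 := by
  ext n
  cases n with
  | zero => simp [geo, PowerSeries.coeff_mul]
  | succ n =>
    rw [mul_sub, mul_one, map_sub, mul_left_comm, ← mul_assoc, mul_assoc (C x),
      PowerSeries.coeff_C_mul, PowerSeries.coeff_succ_mul_X]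
    simp [geo, PowerSeries.coeff_one, pow_succ]
    ring

/-- the series of `(1 - b X) / (1 - r b X)` -/
noncomputable def fac (b : ℂ) (r : ℝ) : PowerSeries ℂ := (1 - C b * X) * geo (r * b)

theorem fac_mul (b : ℂ) (r : ℝ) : fac b r * (1 - C (r * b) * X) = 1 - C b * X := by
  rw [fac, mul_assoc, geo_mul, mul_one]

theorem coeff_zero_fac (b : ℂ) (r : ℝ) : coeff 0 (fac b r) = 1 := by
  simp [fac, geo, PowerSeries.coeff_mul]

theorem coeff_succ_fac (b : ℂ) (r : ℝ) (n : ℕ) :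
    coeff (n + 1) (fac b r) = - ((1 - r) * b * (r * b) ^ n) := by
  rw [fac, sub_mul, one_mul, map_sub, mul_assoc, PowerSeries.coeff_C_mul, mul_comm X,
    PowerSeries.coeff_succ_mul_X]
  simp [geo, pow_succ]
  ring

theorem norm_coeff_succ_fac_le {b : ℂ} (hb : ‖b‖ ≤ 1) {r : ℝ} (hr0 : 0 ≤ r) (hr1 : r < 1) (n : ℕ) :
    ‖coeff (n + 1) (fac b r)‖ ≤ (1 - r) * r ^ n := by
  rw [coeff_succ_fac, norm_neg, norm_mul, norm_mul, norm_pow, norm_mul]
  have h1 : ‖(1 - r : ℂ)‖ = 1 - r := by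
    rw [show (1 - r : ℂ) = ((1 - r : ℝ) : ℂ) by push_cast; rfl, Complex.norm_real,
      Real.norm_of_nonneg (by linarith)]
  have h2 : ‖(r : ℂ)‖ = r := by rw [Complex.norm_real, Real.norm_of_nonneg hr0]
  rw [h1, h2]
  have h3 : (r * ‖b‖) ^ n ≤ r ^ n :=
    pow_le_pow_left₀ (by positivity) (mul_le_of_le_one_right hr0 hb) n
  have h4 : (1 - r) * ‖b‖ ≤ 1 - r := mul_le_of_le_one_right (by linarith) hb
  exact mul_le_mul h4 h3 (by positivity) (by linarith)

theorem bdL1_fac {b : ℂ} (hb : ‖b‖ ≤ 1) {r : ℝ} (hr0 : 0 ≤ r) (hr1 : r < 1) :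
    BdL1 (fac b r) 2 := by
  intro L
  cases L with
  | zero => simp
  | succ L =>
    rw [Finset.sum_range_succ', coeff_zero_fac]
    have h1 : ∑ k ∈ range L, ‖coeff (k + 1) (fac b r)‖ ≤ ∑ k ∈ range L, (1 - r) * r ^ k :=
      Finset.sum_le_sum fun k _ => norm_coeff_succ_fac_le hb hr0 hr1 k
    have h2 : ∑ k ∈ range L, (1 - r) * r ^ k ≤ 1 := by
      rw [← Finset.mul_sum, mul_comm, geom_sum_mul_neg]
      have := pow_nonneg hr0 L
      linarith
    simp only [norm_one]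
    linarith

theorem sum_succ_mul_pow_le {x : ℝ} (hx0 : 0 ≤ x) (hx1 : x < 1) (L : ℕ) :
    (1 - x) ^ 2 * ∑ k ∈ range L, ((k : ℝ) + 1) * x ^ k ≤ 1 := by
  have h : ∀ L : ℕ, (1 - x) ^ 2 * ∑ k ∈ range L, ((k : ℝ) + 1) * x ^ k =
      1 - x ^ L * (1 + L * (1 - x)) := by
    intro L
    induction L with
    | zero => simp
    | succ L ih =>
      rw [Finset.sum_range_succ, mul_add, ih]
      push_cast
      ring
  rw [h]
  have : 0 ≤ x ^ L * (1 + L * (1 - x)) := by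
    have : 0 ≤ 1 - x := by linarith
    positivity
  linarith

theorem bdD_fac {b : ℂ} (hb : ‖b‖ ≤ 1) {r : ℝ} (hr0 : 0 ≤ r) (hr1 : r < 1) :
    BdD (fac b r) 3 := by
  intro L
  cases L with
  | zero => simp
  | succ L =>
    rw [Finset.sum_range_succ', coeff_zero_fac]
    have h1 : ∑ k ∈ range L, (((k + 1 : ℕ) : ℝ) + 1) * ‖coeff (k + 1) (fac b r)‖ ^ 2 ≤
        2 * ((1 - r ^ 2) ^ 2 * ∑ k ∈ range L, ((k : ℝ) + 1) * (r ^ 2) ^ k) := by
      rw [Finset.mul_sum, Finset.mul_sum]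
      refine Finset.sum_le_sum fun k _ => ?_
      have h2 := norm_coeff_succ_fac_le hb hr0 hr1 k
      have h3 : ‖coeff (k + 1) (fac b r)‖ ^ 2 ≤ ((1 - r) * r ^ k) ^ 2 :=
        pow_le_pow_left₀ (norm_nonneg _) h2 2
      have h4 : ((1 - r) * r ^ k) ^ 2 ≤ (1 - r ^ 2) ^ 2 * (r ^ 2) ^ k := by
        rw [mul_pow, ← pow_mul, ← pow_mul, mul_comm k 2]
        refine mul_le_mul_of_nonneg_right ?_ (by positivity)
        refine pow_le_pow_left₀ (by linarith) ?_ 2
        nlinarith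
      have h5 : (((k + 1 : ℕ) : ℝ) + 1) ≤ 2 * ((k : ℝ) + 1) := by
        push_cast
        have : (0:ℝ) ≤ k := Nat.cast_nonneg k
        linarith
      calc (((k + 1 : ℕ) : ℝ) + 1) * ‖coeff (k + 1) (fac b r)‖ ^ 2
          ≤ (2 * ((k : ℝ) + 1)) * ((1 - r ^ 2) ^ 2 * (r ^ 2) ^ k) :=
            mul_le_mul h5 (h3.trans h4) (by positivity) (by positivity)
        _ = _ := by ring
    have h6 := sum_succ_mul_pow_le (x := r ^ 2) (by positivity) (by nlinarith) L
    simp only [Nat.cast_zero, zero_add, norm_one]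
    linarith

theorem bdL1_geo {x : ℂ} {r : ℝ} (hr1 : r < 1) (hx : ‖x‖ ≤ r) : BdL1 (geo x) (1 / (1 - r)) := by
  intro L
  have hr0 : 0 ≤ r := (norm_nonneg _).trans hx
  have h1 : ∑ n ∈ range L, ‖coeff n (geo x)‖ ≤ ∑ n ∈ range L, r ^ n := by
    refine Finset.sum_le_sum fun n _ => ?_
    rw [geo, PowerSeries.coeff_mk, norm_pow]
    exact pow_le_pow_left₀ (norm_nonneg _) hx n
  refine h1.trans ?_
  rw [le_div_iff₀ (by linarith), geom_sum_mul_neg]
  have := pow_nonneg hr0 L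
  linarith

theorem bdD_geo {x : ℂ} {r : ℝ} (hr1 : r < 1) (hx : ‖x‖ ≤ r) :
    BdD (geo x) (1 / (1 - r) ^ 2) := by
  intro L
  have hr0 : 0 ≤ r := (norm_nonneg _).trans hx
  have h1 : ∑ n ∈ range L, ((n : ℝ) + 1) * ‖coeff n (geo x)‖ ^ 2 ≤
      ∑ n ∈ range L, ((n : ℝ) + 1) * r ^ n := by
    refine Finset.sum_le_sum fun n _ => ?_
    rw [geo, PowerSeries.coeff_mk, norm_pow]
    refine mul_le_mul_of_nonneg_left ?_ (by positivity)
    have h2 : ‖x‖ ^ n ≤ r ^ n := pow_le_pow_left₀ (norm_nonneg _) hx n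
    have h3 : r ^ n ≤ 1 := pow_le_one₀ hr0 hr1.le
    have h4 : 0 ≤ ‖x‖ ^ n := by positivity
    nlinarith
  refine h1.trans ?_
  rw [le_div_iff₀ (by have : 0 < 1 - r := by linarith
                      positivity), mul_comm]
  exact sum_succ_mul_pow_le hr0 hr1 L

/-- products of `N` factors `(1 - b X) / (1 - r b X)` with `|b| ≤ 1` are bounded independently
of `r` -/
theorem bd_prod_fac {r : ℝ} (hr0 : 0 ≤ r) (hr1 : r < 1) (s : Multiset ℂ)
    (hs : ∀ b ∈ s, ‖b‖ ≤ 1) :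
    BdL1 (s.map fun b => fac b r).prod (2 ^ Multiset.card s) ∧
      BdD (s.map fun b => fac b r).prod (14 ^ Multiset.card s) := by
  induction s using Multiset.induction_on with
  | empty => simpa using ⟨bdL1_one, bdD_one⟩
  | cons b s ih =>
    obtain ⟨h1, h2⟩ := ih fun c hc => hs c (Multiset.mem_cons_of_mem hc)
    have hb := hs b (Multiset.mem_cons_self b s)
    rw [Multiset.map_cons, Multiset.prod_cons, Multiset.card_cons]
    constructor
    · have := (bdL1_fac hb hr0 hr1).mul h1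
      rw [pow_succ']
      exact this
    · refine (BdD.mul (bdL1_fac hb hr0 hr1) h1 (bdD_fac hb hr0 hr1) h2).mono ?_
      have e1 : ((2:ℝ) ^ Multiset.card s) ^ 2 ≤ 14 ^ Multiset.card s := by
        rw [← pow_mul, mul_comm, pow_mul]
        exact pow_le_pow_left₀ (by norm_num) (by norm_num) _
      have e2 : (14:ℝ) ^ (Multiset.card s + 1) = 14 ^ Multiset.card s * 14 := pow_succ _ _
      rw [e2]
      linarith

/-- products of geometric series are bounded -/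
theorem bd_prod_geo {r : ℝ} (hr0 : 0 ≤ r) (hr1 : r < 1) (N : ℕ) :
    ∃ A B : ℝ, ∀ (s : Multiset ℂ), Multiset.card s ≤ N → (∀ b ∈ s, ‖b‖ ≤ 1) →
      BdL1 (s.map fun b => geo (r * b)).prod A ∧ BdD (s.map fun b => geo (r * b)).prod B := by
  induction N with
  | zero =>
    refine ⟨1, 1, fun s hs _ => ?_⟩
    have : s = 0 := by simpa using hs
    subst this
    simpa using ⟨bdL1_one, bdD_one⟩
  | succ N ih =>
    obtain ⟨A, B, h⟩ := ih
    refine ⟨max 1 (1 / (1 - r) * A), max 1 (2 * (1 / (1 - r) ^ 2 * A ^ 2 + B * (1 / (1 - r)) ^ 2)),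
      fun s hs hb => ?_⟩
    rcases Multiset.empty_or_exists_mem s with h0 | ⟨b, hbs⟩
    · subst h0
      simpa using ⟨bdL1_one.mono (le_max_left _ _), bdD_one.mono (le_max_left _ _)⟩
    · obtain ⟨s', rfl⟩ := Multiset.exists_cons_of_mem hbs
      rw [Multiset.card_cons] at hs
      obtain ⟨h1, h2⟩ := h s' (by omega) fun c hc => hb c (Multiset.mem_cons_of_mem hc)
      have hb' : ‖(r * b : ℂ)‖ ≤ r := by
        rw [norm_mul, Complex.norm_real, Real.norm_of_nonneg hr0]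
        exact mul_le_of_le_one_right hr0 (hb b (Multiset.mem_cons_self _ _))
      rw [Multiset.map_cons, Multiset.prod_cons]
      exact ⟨((bdL1_geo hr1 hb').mul h1).mono (le_max_right _ _),
        (BdD.mul (bdL1_geo hr1 hb') h1 (bdD_geo hr1 hb') h2).mono (le_max_right _ _)⟩

end Pool.Agent.J6H91.Cyc
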